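import Mathlib

/-! # Exponential bounds -/

namespace Pool.Agent.Lib.MP_bb9e9d_lc

/-- bounded by `2 ^ O(N)` -/
def E1 (F : ℕ → ℕ) : Prop := ∃ c, ∀ N, F N ≤ 2 ^ (c * (N + 1))

/-- bounded by `2 ^ O(N ^ 2)` -/
def E2 (F : ℕ → ℕ) : Prop := ∃ c, ∀ N, F N ≤ 2 ^ (c * (N + 1) ^ 2)

variable {F G : ℕ → ℕ}

private theorem pow2_mono {a b : ℕ} (h : a ≤ b) : 2 ^ a ≤ 2 ^ b :=
  Nat.pow_le_pow_right (by norm_num) h

private theorem add_pow2_le (x y : ℕ) : 2 ^ x + 2 ^ y ≤ 2 ^ (x + y + 1) := by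
  have h1 := pow2_mono (Nat.le_add_right x y)
  have h2 := pow2_mono (Nat.le_add_left y x)
  rw [pow_succ]
  omega

theorem E1.const (k : ℕ) : E1 fun _ => k := by
  refine ⟨k, fun N => ?_⟩
  refine Nat.lt_two_pow_self.le.trans (pow2_mono ?_)
  exact Nat.le_mul_of_pos_right k (Nat.succ_pos N)

theorem E1.id : E1 fun N => N := by
  refine ⟨1, fun N => ?_⟩
  rw [one_mul]
  exact (Nat.le_succ N).trans Nat.lt_two_pow_self.le

theorem E1.two_pow : E1 fun N => 2 ^ (6 * N) :=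
  ⟨6, fun N => pow2_mono (by omega)⟩

theorem E1.add (hF : E1 F) (hG : E1 G) : E1 fun N => F N + G N := by
  obtain ⟨a, ha⟩ := hF
  obtain ⟨b, hb⟩ := hG
  refine ⟨a + b + 1, fun N => ?_⟩
  refine (Nat.add_le_add (ha N) (hb N)).trans ((add_pow2_le _ _).trans (pow2_mono ?_))
  have : (a + b + 1) * (N + 1) = a * (N + 1) + b * (N + 1) + (N + 1) := by ring
  omega

theorem E1.mul (hF : E1 F) (hG : E1 G) : E1 fun N => F N * G N := by
  obtain ⟨a, ha⟩ := hF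
  obtain ⟨b, hb⟩ := hG
  refine ⟨a + b, fun N => ?_⟩
  refine (Nat.mul_le_mul (ha N) (hb N)).trans ?_
  rw [← pow_add, ← add_mul]

theorem E1.mono (hG : E1 G) (h : ∀ N, F N ≤ G N) : E1 F := by
  obtain ⟨a, ha⟩ := hG
  exact ⟨a, fun N => (h N).trans (ha N)⟩

theorem E1.e2 (hF : E1 F) : E2 F := by
  obtain ⟨a, ha⟩ := hF
  refine ⟨a, fun N => (ha N).trans (pow2_mono ?_)⟩
  refine Nat.mul_le_mul_left a ?_
  nlinarith

/-- Proof: `(2 ^ (c (N + 1))) ^ N ≤ 2 ^ (c (N + 1) ^ 2)`. -/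
theorem E1.pow (hF : E1 F) : E2 fun N => F N ^ N := by
  obtain ⟨a, ha⟩ := hF
  refine ⟨a, fun N => (Nat.pow_le_pow_left (ha N) N).trans ?_⟩
  rw [← pow_mul, mul_assoc]
  refine pow2_mono (Nat.mul_le_mul_left a ?_)
  nlinarith

theorem E2.add (hF : E2 F) (hG : E2 G) : E2 fun N => F N + G N := by
  obtain ⟨a, ha⟩ := hF
  obtain ⟨b, hb⟩ := hG
  refine ⟨a + b + 1, fun N => ?_⟩
  refine (Nat.add_le_add (ha N) (hb N)).trans ((add_pow2_le _ _).trans (pow2_mono ?_))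
  have h1 : (a + b + 1) * (N + 1) ^ 2 = a * (N + 1) ^ 2 + b * (N + 1) ^ 2 + (N + 1) ^ 2 := by ring
  have h2 : 1 ≤ (N + 1) ^ 2 := Nat.one_le_pow _ _ (Nat.succ_pos N)
  omega

theorem E2.mul (hF : E2 F) (hG : E2 G) : E2 fun N => F N * G N := by
  obtain ⟨a, ha⟩ := hF
  obtain ⟨b, hb⟩ := hG
  refine ⟨a + b, fun N => ?_⟩
  refine (Nat.mul_le_mul (ha N) (hb N)).trans ?_
  rw [← pow_add, ← add_mul]

theorem E2.mono (hG : E2 G) (h : ∀ N, F N ≤ G N) : E2 F := by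
  obtain ⟨a, ha⟩ := hG
  exact ⟨a, fun N => (h N).trans (ha N)⟩

/-- Proof: if `n = 0` the left side is `2 ^ c'`...; choose `e = c + 2`: `c * n ^ 2 + 2 ≤ n ^ e + e` for
all `n ≥ 1` (for `n ≥ 2` because `n ^ e ≥ 2 ^ (e - 2) * n ^ 2`). -/
theorem E2.final (hF : E2 F) : ∃ e, ∀ N n, N + 1 ≤ n → 4 * F N + 4 ≤ 2 ^ (n ^ e + e) := by
  obtain ⟨c, hc⟩ := hF
  refine ⟨c + 3, fun N n hn => ?_⟩
  have h1 : F N ≤ 2 ^ (c * n ^ 2) :=
    (hc N).trans (pow2_mono (Nat.mul_le_mul_left c (Nat.pow_le_pow_left hn 2)))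
  have h2 : 1 ≤ 2 ^ (c * n ^ 2) := Nat.one_le_two_pow
  have h3 : c * n ^ 2 + 3 ≤ n ^ (c + 3) + (c + 3) := by
    rcases Nat.lt_or_ge n 2 with h | h
    · have : n = 1 := by omega
      subst this
      simp
    · have h4 : c ≤ n ^ (c + 1) :=
        (Nat.le_succ c).trans (Nat.lt_two_pow_self.le.trans (Nat.pow_le_pow_left h (c + 1)))
      have h5 : n ^ (c + 3) = n ^ (c + 1) * n ^ 2 := by rw [← pow_add]
      have h6 := Nat.mul_le_mul_right (n ^ 2) h4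
      omega
  refine le_trans ?_ (pow2_mono h3)
  rw [pow_add]
  omega

end Pool.Agent.Lib.MP_bb9e9d_lc
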