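import Pool.Agent.Lib.MP_bb9e9d_lc.Ver.C0

/-! # Certificates: all lists -/

namespace Pool.Agent.Lib.MP_bb9e9d_lc

open MP_634427_lc

variable {α : Type}

theorem mem_lsEq {A : List α} {n : ℕ} {w : List α} :
    w ∈ lsEq A n ↔ w.length = n ∧ ∀ a ∈ w, a ∈ A := by
  induction n generalizing w with
  | zero =>
    rw [lsEq, List.mem_singleton]
    constructor
    · rintro rfl
      exact ⟨rfl, fun a ha => absurd ha (by simp)⟩
    · rintro ⟨h, -⟩
      exact List.length_eq_zero_iff.1 h
  | succ n ih =>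
    rw [lsEq, List.mem_flatMap]
    constructor
    · rintro ⟨v, hv, hw⟩
      obtain ⟨a, ha, rfl⟩ := List.mem_map.1 hw
      obtain ⟨h1, h2⟩ := ih.1 hv
      refine ⟨by rw [List.length_append, h1]; rfl, fun b hb => ?_⟩
      rcases List.mem_append.1 hb with h3 | h3
      · exact h2 b h3
      · rw [List.mem_singleton.1 h3]
        exact ha
    · rintro ⟨h1, h2⟩
      have h3 : w ≠ [] := by
        rintro rfl
        exact absurd h1 (by simp)
      have h4 := List.dropLast_append_getLast h3
      refine ⟨w.dropLast, ih.2 ⟨?_, fun a ha => h2 a (List.dropLast_subset w ha)⟩,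
        List.mem_map.2 ⟨w.getLast h3, h2 _ (List.getLast_mem h3), h4⟩⟩
      rw [List.length_dropLast, h1]
      rfl

theorem mem_lsLe {A : List α} {n : ℕ} {w : List α} :
    w ∈ lsLe A n ↔ w.length ≤ n ∧ ∀ a ∈ w, a ∈ A := by
  rw [lsLe, List.mem_flatMap]
  constructor
  · rintro ⟨m, hm, hw⟩
    obtain ⟨h1, h2⟩ := mem_lsEq.1 hw
    have := List.mem_range.1 hm
    exact ⟨by omega, h2⟩
  · rintro ⟨h1, h2⟩
    exact ⟨w.length, List.mem_range.2 (by omega), mem_lsEq.2 ⟨rfl, h2⟩⟩

theorem length_lsEq (A : List α) (n : ℕ) : (lsEq A n).length = A.length ^ n := by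
  induction n with
  | zero => rfl
  | succ n ih =>
    rw [lsEq, List.length_flatMap]
    simp only [List.length_map, List.map_const', List.sum_replicate, smul_eq_mul, ih, pow_succ]

theorem length_lsLe (A : List α) (n : ℕ) : (lsLe A n).length ≤ (n + 1) * (A.length + 1) ^ n := by
  rw [lsLe, List.length_flatMap]
  have h1 : ((List.range (n + 1)).map fun m => (lsEq A m).length).sum ≤
      ((List.range (n + 1)).map fun m => (lsEq A m).length).length • (A.length + 1) ^ n := by
    refine List.sum_le_card_nsmul _ _ fun x hx => ?_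
    obtain ⟨m, hm, rfl⟩ := List.mem_map.1 hx
    have h2 := List.mem_range.1 hm
    rw [length_lsEq]
    calc A.length ^ m ≤ (A.length + 1) ^ m := Nat.pow_le_pow_left (Nat.le_succ _) _
      _ ≤ (A.length + 1) ^ n := Nat.pow_le_pow_right (Nat.succ_pos _) (by omega)
  rw [List.length_map, List.length_range, smul_eq_mul] at h1
  exact h1

theorem nodup_lsEq {A : List α} (h : A.Nodup) (n : ℕ) : (lsEq A n).Nodup := by
  induction n with
  | zero => exact List.nodup_singleton _
  | succ n ih =>
    rw [lsEq, List.nodup_flatMap]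
    refine ⟨fun w _ => h.map fun a b hab => ?_, ?_⟩
    · simpa using hab
    · refine ih.imp fun {v w} hvw => ?_
      rw [Function.onFun, List.disjoint_left]
      intro u hu hu'
      obtain ⟨a, -, rfl⟩ := List.mem_map.1 hu
      obtain ⟨b, -, hb⟩ := List.mem_map.1 hu'
      exact hvw (List.append_inj_left' hb rfl).symm

theorem lsB_all (N : ℕ) : lsB N (allLS N) = true := by
  have key : ∀ w : Word, w ∈ allLS N ↔ w.length ≤ 6 * N := by
    intro w
    rw [allLS, mem_lsLe]
    refine ⟨fun h => h.1, fun h => ⟨h, fun a _ => ?_⟩⟩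
    cases a <;> simp
  rw [lsB, Bool.and_eq_true, decide_eq_true_eq, List.all_eq_true]
  refine ⟨(key _).2 (Nat.zero_le _), fun w _ => ?_⟩
  rw [Bool.or_eq_true, Bool.and_eq_true, decide_eq_true_eq, decide_eq_true_eq, decide_eq_true_eq]
  rcases Nat.lt_or_ge w.length (6 * N) with h | h
  · right
    exact ⟨(key _).2 (by rw [List.length_append]; exact h),
      (key _).2 (by rw [List.length_append]; exact h)⟩
  · exact Or.inl h

theorem llB_all (N L : ℕ) : llB N L (allLL N L) = true := by
  rw [llB, Bool.and_eq_true, decide_eq_true_eq, List.all_eq_true]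
  refine ⟨mem_lsLe.2 ⟨Nat.zero_le _, fun a ha => absurd ha (by simp)⟩, fun w hw => ?_⟩
  rw [Bool.or_eq_true, decide_eq_true_eq, List.all_eq_true]
  rcases Nat.lt_or_ge w.length N with h | h
  · right
    intro v hv
    rw [decide_eq_true_eq]
    refine mem_lsLe.2 ⟨by rw [List.length_append]; exact h, fun a ha => ?_⟩
    rcases List.mem_append.1 ha with h3 | h3
    · exact (mem_lsLe.1 hw).2 a h3
    · rw [List.mem_singleton.1 h3]
      exact hv
  · exact Or.inl h

theorem mem_allE {N r : ℕ} {e : En} : e ∈ allE N r ↔ Wf N e ∧ ∀ x ∈ e.1, x ≤ 2 * r := by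
  obtain ⟨v, f⟩ := e
  rw [allE, List.mem_flatMap]
  constructor
  · rintro ⟨v', hv', hf⟩
    obtain ⟨f', hf', h1⟩ := List.mem_map.1 hf
    obtain ⟨rfl, rfl⟩ := Prod.mk.inj h1
    obtain ⟨h2, h3⟩ := mem_lsEq.1 hv'
    refine ⟨⟨h2, (mem_lsEq.1 hf').1⟩, fun x hx => ?_⟩
    have := List.mem_range.1 (h3 x hx)
    omega
  · rintro ⟨⟨h1, h2⟩, h3⟩
    refine ⟨v, mem_lsEq.2 ⟨h1, fun x hx => List.mem_range.2 ?_⟩,
      List.mem_map.2 ⟨f, mem_lsEq.2 ⟨h2, fun a _ => ?_⟩, rfl⟩⟩
    · have := h3 x hx
      omega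
    · cases a <;> simp

theorem length_allE (N r : ℕ) : (allE N r).length = (2 * r + 1) ^ N * 2 ^ (6 * N) := by
  rw [allE, List.length_flatMap]
  simp only [List.length_map, List.map_const', List.sum_replicate, smul_eq_mul, length_lsEq,
    List.length_range]
  rfl

/-- all states, each once -/
theorem toSt_all (N : ℕ) : (toSt N (lsEq [false, true] (6 * N))).Nodup ∧
    ∀ s : Stt N, s ∈ toSt N (lsEq [false, true] (6 * N)) := by
  constructor
  · refine List.Nodup.filterMap ?_ (nodup_lsEq (by decide) _)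
    intro a a' b hb hb'
    by_cases h1 : a.length = 6 * N
    · by_cases h2 : a'.length = 6 * N
      · rw [dif_pos h1] at hb
        rw [dif_pos h2] at hb'
        have h3 := Option.some.inj hb
        have h4 := Option.some.inj hb'
        exact congrArg Subtype.val (h3.trans h4.symm)
      · rw [dif_neg h2] at hb'
        exact absurd hb' (by simp)
    · rw [dif_neg h1] at hb
      exact absurd hb (by simp)
  · intro s
    rw [toSt, List.mem_filterMap]
    refine ⟨s.1, mem_lsEq.2 ⟨s.2, fun a _ => ?_⟩, ?_⟩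
    · cases a <;> simp
    · rw [dif_pos s.2]
      rfl

end Pool.Agent.Lib.MP_bb9e9d_lc
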