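import Pool.Agent.Lib.MP_bb9e9d_lc.Ver.B1
import Pool.Agent.Lib.MP_bb9e9d_lc.Ver.C1
import Pool.Agent.Lib.MP_634427_lc.AlgoPT

/-! # The size of the certificates, 1 -/

namespace Pool.Agent.Lib.MP_bb9e9d_lc

open MP_634427_lc

/-- Proof: `(allLS N).length = ∑ 2 ^ i ≤ 2 ^ (6 N + 1)` or `length_lsLe` (`(6 N + 1) * 3 ^ (6 N)`). -/
theorem e1_allLS : E1 fun N => (allLS N).length := by
  refine E1.mono (G := fun N => (6 * N + 1) * (2 ^ (6 * N) * 2 ^ (6 * N))) ?_ fun N => ?_
  · exact (((E1.const 6).mul E1.id).add (E1.const 1)).mul (E1.two_pow.mul E1.two_pow)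
  · refine (length_lsLe [false, true] (6 * N)).trans (Nat.mul_le_mul_left _ ?_)
    rw [← mul_pow]
    exact Nat.pow_le_pow_left (by simp) _

theorem e1_rad0 : E1 fun N => rad0 N (2 ^ (6 * N)) := by
  have hs : E1 fun N => (allLS N).length := e1_allLS
  have hL : E1 fun N => 2 ^ (6 * N) := E1.two_pow
  have h1 := hL.add (E1.const 1)
  have h2 := hs.mul hs
  have h3 := h2.mul h1
  have h4 := (E1.const 2).mul (((h2.mul (hs.add (E1.const 1))).add h3).add hs)
  have h5 := (E1.const 2).mul (h3.mul (h3.add (E1.const 2)))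
  exact (h4.add h5).add (E1.const 1)

theorem e2_digs : E2 digs := by
  have hL : E1 fun N => 2 ^ (6 * N) := E1.two_pow
  have h1 := hL.add (E1.const 1)
  have h2 := hL.mul hL
  have h3 := (h2.mul ((hL.add (E1.const 2)).add (E1.const 1))).add (hL.mul (hL.mul h1))
  have h4 := (((E1.const 2).mul h3).add (E1.const 1)).pow
  have h5 := (h4.mul hL.e2).mul h1.pow
  have h6 := (E1.id.mul (((E1.const 6).mul E1.id).add (E1.const 2))).e2
  refine E2.mono ((h5.add h6).add (E1.const 1).e2) fun N => ?_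
  have hc : Fintype.card (Stt N) = 2 ^ (6 * N) := by
    rw [card_vector, Fintype.card_bool]
  have hcst : cst (Stt N) (Stt N) (Stt N × Stt N × Fin (2 ^ (6 * N) + 1)) 2 =
      2 ^ (6 * N) * 2 ^ (6 * N) * (2 ^ (6 * N) + 2 + 1) +
        2 ^ (6 * N) * (2 ^ (6 * N) * (2 ^ (6 * N) + 1)) := by
    unfold cst
    rw [Fintype.card_prod, Fintype.card_prod, Fintype.card_fin, hc]
  unfold digs
  rw [hcst]

theorem e2_allE : E2 fun N => (allE N (rad0 N (2 ^ (6 * N)))).length := by
  refine E2.mono (((((E1.const 2).mul e1_rad0).add (E1.const 1)).pow).mul E1.two_pow.e2)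
    fun N => ?_
  rw [length_allE]

theorem e2_allLL : E2 fun N => (allLL N (2 ^ (6 * N))).length := by
  refine E2.mono ((E1.id.add (E1.const 1)).e2.mul
    (((E1.two_pow.add (E1.const 1)).add (E1.const 1)).pow)) fun N => ?_
  refine (length_lsLe (List.range (2 ^ (6 * N) + 1)) N).trans ?_
  rw [List.length_range]

/-- the size of a list of small members (`sz_list_le` of `MP_634427_lc.AlgoPT`) -/
theorem sz_le_of {α : Type} [Enc α] (l : List α) (a b : ℕ) (hl : l.length ≤ a)
    (h : ∀ x ∈ l, sz x ≤ b) : sz l ≤ a * (b + 1) := by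
  exact (sz_list_le l b h).trans (Nat.mul_le_mul_right _ hl)

end Pool.Agent.Lib.MP_bb9e9d_lc
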