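import Pool.Agent.Lib.MP_bb9e9d_lc.Ver.B2

/-! # The size of the certificates, 2 -/

namespace Pool.Agent.Lib.MP_bb9e9d_lc

open MP_634427_lc

variable {N D L : ℕ} {m : Stt N → ℕ ⊕ ℕ}

private lemma b3_toSt (l : List Word) : (toSt N l).length ≤ l.length := by
  unfold toSt
  exact List.length_filterMap_le _ _

theorem length_mkProf : (mkProf N D m).length ≤ 2 ^ (6 * N) := by
  unfold mkProf
  rw [List.length_map]
  refine (List.length_filter_le _ _).trans ((b3_toSt _).trans ?_)
  rw [length_lsEq]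
  simp

private lemma b3_nats (l : List ℕ) (a b : ℕ) (hl : l.length ≤ a) (h : ∀ x ∈ l, x ≤ b) :
    sz l ≤ a * (b + 1) :=
  sz_le_of l a b hl fun x hx => by rw [sz_nat]; exact h x hx

theorem sz_mkProf (hL : ∀ s, lv m s ≤ L) :
    sz (mkProf N D m) ≤ 2 ^ (6 * N) * (12 * N + 2 * D + L + 10) := by
  refine sz_le_of _ _ (12 * N + 2 * D + L + 9) length_mkProf fun e he => ?_
  unfold mkProf at he
  obtain ⟨s, -, rfl⟩ := List.mem_map.1 he
  unfold mkPE
  have h1 := sz_word_le s.1
  have h2 : s.1.length = 6 * N := s.2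
  have h3 := sz_word_le ((List.range D).map fun k => (fp m s).testBit k)
  rw [List.length_map, List.length_range] at h3
  have h4 := sz_bool_le (decide (lv m s ≠ 0))
  have h5 := hL s
  simp only [sz_pair, sz_nat]
  omega

theorem sz_allLS : sz (allLS N) ≤ (allLS N).length * (12 * N + 1) := by
  refine sz_le_of _ _ _ le_rfl fun w hw => ?_
  have h1 := sz_word_le w
  have h2 := (mem_lsLe.1 hw).1
  omega

private lemma b3_LL {ℓ : List ℕ} (h : ℓ ∈ allLL N L) : sz ℓ ≤ N * (L + 1) := by
  obtain ⟨h1, h2⟩ := mem_lsLe.1 h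
  refine b3_nats ℓ _ _ h1 fun x hx => ?_
  have := List.mem_range.1 (h2 x hx)
  omega

theorem sz_allLL : sz (allLL N L) ≤ (allLL N L).length * (N * (L + 1) + 1) :=
  sz_le_of _ _ _ le_rfl fun _ hℓ => b3_LL hℓ

/-- Proof: the entries are at most `2 * (mkProf N D m).length` by `|wsum| ≤ length` in the case
`topl = 0` and `wsum m P 0 = 0` (`h`), and `0` otherwise (`wsum_le` of `C3` is not imported here: it
is a hypothesis). -/
theorem sz_mkWl (h : ∀ P k, topl m (fun s => gb s.1 N 3 P) = 0 → P < N →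
      |wsum m P k| ≤ (mkProf N D m).length) :
    sz (mkWl N D m) ≤ (D + 1) * (N * (2 * 2 ^ (6 * N) + 1) + 1) := by
  unfold mkWl
  refine sz_le_of _ _ _ (by simp) fun l hl => ?_
  obtain ⟨k, -, rfl⟩ := List.mem_map.1 hl
  refine b3_nats _ _ _ (by simp) fun x hx => ?_
  obtain ⟨P, hP, rfl⟩ := List.mem_map.1 hx
  have hlen := length_mkProf (N := N) (D := D) (m := m)
  split_ifs with h0
  · have h1 := (abs_le.1 (h P k h0 (List.mem_range.1 hP))).2
    have h2 : ((mkProf N D m).length : ℤ) ≤ ((2 ^ (6 * N) : ℕ) : ℤ) := by exact_mod_cast hlen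
    rw [Int.toNat_le]
    push_cast at h2 ⊢
    omega
  · exact Nat.zero_le _

theorem sz_allE {r : ℕ} {e : En} (he : e ∈ allE N r) : sz e ≤ N * (2 * r + 1) + 12 * N + 1 := by
  obtain ⟨⟨h1, h2⟩, h3⟩ := mem_allE.1 he
  have h4 := b3_nats e.1 N (2 * r) h1.le h3
  have h5 := sz_word_le e.2
  have h6 : sz e = sz e.1 + sz e.2 + 1 := sz_prod e
  rw [h6]
  omega

private lemma b3_flatMap {α β : Type} (l : List α) (f : α → List β) (b : ℕ)
    (h : ∀ x ∈ l, (f x).length ≤ b) : (l.flatMap f).length ≤ l.length * b := by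
  induction l with
  | nil => simp
  | cons a l ih =>
    rw [List.flatMap_cons, List.length_append, List.length_cons, Nat.succ_mul]
    have h1 := h a List.mem_cons_self
    have h2 := ih fun x hx => h x (List.mem_cons_of_mem _ hx)
    omega

theorem length_opL {K : Inst} {r : ℕ} (ℓ : List ℕ) :
    (opL K N r (preCrt N D L m) ℓ).length ≤ D * (1 + 2 ^ (6 * N)) + 2 ^ (6 * N) := by
  have hlen := length_mkProf (N := N) (D := D) (m := m)
  unfold opL
  rw [List.length_append, List.length_map]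
  refine Nat.add_le_add ?_ ?_
  · refine (b3_flatMap _ _ (1 + 2 ^ (6 * N)) fun i _ => ?_).trans ?_
    · rw [List.length_cons, List.length_map]
      have h1 := List.length_filter_le (fun e : PE => !e.2.1 &&
        e.2.2.1.getD ((preCrt N D L m).K - 1 - i) false) (preCrt N D L m).prof
      have h2 : (preCrt N D L m).prof.length ≤ 2 ^ (6 * N) := hlen
      omega
    · rw [List.length_range]
      exact le_rfl
  · exact (List.length_filter_le _ _).trans hlen

private lemma b3_filter {l : List En} {p : En → Bool} : sz (l.filter p) ≤ sz l :=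
  sz_sublist_le List.filter_sublist

theorem sz_mkTab {K : Inst} (ℓ : List ℕ) : sz (mkTab K N D L m ℓ) ≤
    (D * (1 + 2 ^ (6 * N)) + 2 ^ (6 * N) + 1) *
      ((allE N (rad0 N L)).length * (N * (2 * rad0 N L + 1) + 12 * N + 2) + 1) := by
  have h1 := length_opL (N := N) (D := D) (L := L) (m := m) (K := K) (r := rad0 N L) ℓ
  unfold mkTab
  refine sz_le_of _ _ _ ?_ fun t ht => ?_
  · rw [List.length_map, List.length_range]
    omega
  · obtain ⟨i, -, rfl⟩ := List.mem_map.1 ht
    refine b3_filter.trans ?_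
    exact sz_le_of _ _ (N * (2 * rad0 N L + 1) + 12 * N + 1) le_rfl fun e he => sz_allE he

end Pool.Agent.Lib.MP_bb9e9d_lc
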