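import Pool.Agent.Lib.MP_bb9e9d_lc.Ver.C2

/-! # Certificates: the balance of a solution -/

namespace Pool.Agent.Lib.MP_bb9e9d_lc

open MP_634427_lc

variable {K : Inst} {N D L : ℕ} {m : Stt N → ℕ ⊕ ℕ}

private theorem C3_len : (mkProf N D m).length = (Finset.univ.filter fun s => m s ≠ .inl 0).card := by
  classical
  obtain ⟨h1, h2⟩ := toSt_all N
  unfold mkProf
  rw [List.length_map]
  have h3 : ((toSt N (lsEq [false, true] (6 * N))).filter fun s => decide (m s ≠ .inl 0)).Nodup :=
    h1.filter _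
  rw [← List.toFinset_card_of_nodup h3]
  congr 1
  ext s
  simp only [List.mem_toFinset, List.mem_filter, decide_eq_true_eq, Finset.mem_filter,
    Finset.mem_univ, true_and]
  exact ⟨fun h => h.2, fun h => ⟨h2 s, h⟩⟩

private theorem C3_fp {s : Stt N} (h : fp m s ≠ 0) : m s ≠ .inl 0 ∧ lv m s = 0 := by
  unfold fp at h
  unfold lv
  cases hm : m s with
  | inl n =>
    rw [hm] at h
    simp only at h
    refine ⟨?_, rfl⟩
    intro hc
    rw [Sum.inl.injEq] at hc
    exact h hc
  | inr n =>
    rw [hm] at h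
    exact absurd rfl h

private theorem C3_bz (a b : Bool) : |bz a - bz b| ≤ 1 := by
  unfold bz
  cases a <;> cases b <;> simp

/-- Proof: `2 ^ k * wsum k = wsum 0 - ∑ (fp m s % 2 ^ k) * (..) = - ∑ ..` and `0 ≤ fp m s % 2 ^ k <
2 ^ k`, with `0` for the states that are not in the profile (`m s = inl 0`). -/
theorem wsum_le (hD : ∀ s, fp m s < 2 ^ D) {P : ℕ} (h0 : wsum m P 0 = 0) (k : ℕ) :
    |wsum m P k| ≤ (mkProf N D m).length := by
  classical
  have h1 : (2 : ℤ) ^ k * wsum m P k = wsum m P 0 -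
      ∑ s : Stt N, ((fp m s % 2 ^ k : ℕ) : ℤ) * (bz (gb s.1 N 3 P) - bz (gb s.1 N 4 P)) := by
    unfold wsum
    rw [Finset.mul_sum, ← Finset.sum_sub_distrib]
    refine Finset.sum_congr rfl fun s _ => ?_
    have h2 := Nat.div_add_mod (fp m s) (2 ^ k)
    have h3 : (2 : ℤ) ^ k * ((fp m s / 2 ^ k : ℕ) : ℤ) + ((fp m s % 2 ^ k : ℕ) : ℤ) =
        ((fp m s : ℕ) : ℤ) := by exact_mod_cast h2
    rw [pow_zero, Nat.div_one, ← h3]
    ring
  rw [h0, zero_sub] at h1
  have h2 : |∑ s : Stt N, ((fp m s % 2 ^ k : ℕ) : ℤ) * (bz (gb s.1 N 3 P) - bz (gb s.1 N 4 P))| ≤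
      2 ^ k * (mkProf N D m).length := by
    refine (Finset.abs_sum_le_sum_abs _ _).trans ?_
    calc ∑ s : Stt N, |((fp m s % 2 ^ k : ℕ) : ℤ) * (bz (gb s.1 N 3 P) - bz (gb s.1 N 4 P))|
        ≤ ∑ s : Stt N, if m s ≠ .inl 0 then (2 : ℤ) ^ k else 0 := by
          refine Finset.sum_le_sum fun s _ => ?_
          split_ifs with hs
          · rw [abs_mul, Nat.abs_cast]
            have h3 : ((fp m s % 2 ^ k : ℕ) : ℤ) ≤ 2 ^ k := by
              exact_mod_cast (Nat.mod_lt (fp m s) (by positivity : 0 < 2 ^ k)).le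
            have h4 := C3_bz (gb s.1 N 3 P) (gb s.1 N 4 P)
            have h5 : (0 : ℤ) ≤ ((fp m s % 2 ^ k : ℕ) : ℤ) := Int.natCast_nonneg _
            nlinarith
          · have h3 : fp m s = 0 := by
              by_contra hc
              exact hs (C3_fp hc).1
            rw [h3, Nat.zero_mod]
            simp
      _ = 2 ^ k * (mkProf N D m).length := by
          rw [← Finset.sum_filter, Finset.sum_const, C3_len, nsmul_eq_mul, mul_comm]
  have h3 : (2 : ℤ) ^ k * |wsum m P k| ≤ 2 ^ k * (mkProf N D m).length := by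
    have h4 : (2 : ℤ) ^ k * |wsum m P k| = |(2 : ℤ) ^ k * wsum m P k| := by
      rw [abs_mul, abs_of_pos (by positivity : (0 : ℤ) < 2 ^ k)]
    rw [h4, h1, abs_neg]
    exact h2
  exact le_of_mul_le_mul_left h3 (by positivity)

theorem wsum_top (hD : ∀ s, fp m s < 2 ^ D) (P : ℕ) : wsum m P D = 0 := by
  unfold wsum
  refine Finset.sum_eq_zero fun s _ => ?_
  rw [Nat.div_eq_of_lt (hD s)]
  simp

private theorem C3_digB {k : ℕ} (hk : k < D) (p : Word → Bool) :
    (digB (mkProf N D m) p k : ℤ) =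
      ∑ s : Stt N, bz (p s.1) * bz ((fp m s).testBit k) := by
  classical
  obtain ⟨h1, h2⟩ := toSt_all N
  have h3 : digB (mkProf N D m) p k =
      (Finset.univ.filter fun s : Stt N => p s.1 = true ∧ (fp m s).testBit k = true).card := by
    unfold digB mkProf
    rw [List.filter_map, List.length_map, List.filter_filter]
    rw [← List.toFinset_card_of_nodup (h1.filter _)]
    congr 1
    ext s
    simp only [List.mem_toFinset, List.mem_filter, Finset.mem_filter, Finset.mem_univ, true_and,
      Function.comp_apply, mkPE, Bool.and_eq_true, Bool.not_eq_true', decide_eq_true_eq,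
      decide_eq_false_iff_not, not_not]
    have h4 : ((List.range D).map (fun k => (fp m s).testBit k)).getD k false =
        (fp m s).testBit k := by
      rw [List.getD_eq_getElem?_getD, List.getElem?_map, List.getElem?_range hk]
      rfl
    rw [h4]
    constructor
    · rintro ⟨-, ⟨⟨-, ha⟩, hb⟩, -⟩
      exact ⟨ha, hb⟩
    · rintro ⟨ha, hb⟩
      have h5 : fp m s ≠ 0 := by
        intro hc
        rw [hc, Nat.zero_testBit] at hb
        exact absurd hb (by simp)
      obtain ⟨h6, h7⟩ := C3_fp h5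
      exact ⟨h2 s, ⟨⟨h7, ha⟩, hb⟩, h6⟩
  rw [h3, Finset.card_filter]
  push_cast
  refine Finset.sum_congr rfl fun s _ => ?_
  unfold bz
  cases p s.1 <;> cases (fp m s).testBit k <;> simp

/-- Proof: `fp m s / 2 ^ k = 2 * (fp m s / 2 ^ (k + 1)) + [testBit k]`; the digits of the entries. -/
theorem wsum_step {P k : ℕ} (hk : k < D) : wsum m P k = 2 * wsum m P (k + 1) +
    (digB (mkProf N D m) (fun s => gb s N 3 P) k : ℤ) - digB (mkProf N D m) (fun s => gb s N 4 P) k := by
  rw [C3_digB hk, C3_digB hk]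
  unfold wsum
  rw [Finset.mul_sum, ← Finset.sum_add_distrib, ← Finset.sum_sub_distrib]
  refine Finset.sum_congr rfl fun s _ => ?_
  have h1 : fp m s / 2 ^ k = 2 * (fp m s / 2 ^ (k + 1)) + (if (fp m s).testBit k then 1 else 0) := by
    rw [Nat.testBit_eq_decide_div_mod_eq, pow_succ, ← Nat.div_div_eq_div_mul]
    by_cases hc : fp m s / 2 ^ k % 2 = 1
    · simp only [hc, decide_true, if_true]
      omega
    · simp only [hc, decide_false, Bool.false_eq_true, if_false]
      omega
  rw [h1]
  unfold bz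
  push_cast
  cases gb s.1 N 3 P <;> cases gb s.1 N 4 P <;> cases (fp m s).testBit k <;> simp <;> ring

private theorem C3_wl {P k : ℕ} (hP : P < N) (hk : k < D + 1) (hD : ∀ s, fp m s < 2 ^ D)
    (ht : topl m (fun s => gb s.1 N 3 P) = 0) (h0 : wsum m P 0 = 0) :
    ((((mkWl N D m).getD k []).getD P 0 : ℕ) : ℤ) = (mkProf N D m).length + wsum m P k := by
  have h1 : ((mkWl N D m).getD k []).getD P 0 =
      (((mkProf N D m).length : ℤ) + wsum m P k).toNat := by
    unfold mkWl
    rw [List.getD_eq_getElem?_getD (l := List.map _ (List.range (D + 1))), List.getElem?_map,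
      List.getElem?_range hk, Option.map_some, Option.getD_some, List.getD_eq_getElem?_getD,
      List.getElem?_map, List.getElem?_range hP, Option.map_some, Option.getD_some, if_pos ht]
  rw [h1]
  have h2 := wsum_le hD h0 k
  rw [abs_le] at h2
  exact Int.toNat_of_nonneg (by linarith [h2.1])

/-- Proof: `topB_eq` (with `muS_mk`); `wsum 0 = 0` from `IMu.bal0`. -/
theorem balB_mk (hD : ∀ s, fp m s < 2 ^ D) (hL : ∀ s, lv m s ≤ L) (h : IMu (prob K N) m) {P : ℕ}
    (hP : P < N) (c : Crt) (h1 : c.prof = mkProf N D m) (h2 : c.K = D) (h3 : c.L = L)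
    (h4 : c.wl = mkWl N D m) : balB N c P = true := by
  classical
  have hp := profB_mk (K := K) hD hL h.loc c h1 h2 h3
  have t3 := topB_eq hp (fun s => gb s N 3 P)
  have t4 := topB_eq hp (fun s => gb s N 4 P)
  rw [h1, muS_mk hD] at t3 t4
  have hb : topl m (fun s => gb s.1 N 3 P) = topl m (fun s => gb s.1 N 4 P) := h.bal ⟨P, hP⟩
  unfold balB
  rw [h1, h2, h4, t3, t4, ← hb, decide_eq_true rfl, Bool.true_and]
  by_cases ht : topl m (fun s => gb s.1 N 3 P) = 0
  · have hb0 : ∑ s with gb s.1 N 3 P = true, fp m s = ∑ s with gb s.1 N 4 P = true, fp m s :=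
      h.bal0 ⟨P, hP⟩ ht
    have h0 : wsum m P 0 = 0 := by
      unfold wsum
      have h5 : ∀ j : ℕ, ∑ s : Stt N, ((fp m s : ℕ) : ℤ) * bz (gb s.1 N j P) =
          ((∑ s with gb s.1 N j P = true, fp m s : ℕ) : ℤ) := by
        intro j
        rw [Finset.sum_filter]
        push_cast
        refine Finset.sum_congr rfl fun s _ => ?_
        unfold bz
        split_ifs <;> simp
      have h6 : ∀ s : Stt N, ((fp m s / 2 ^ 0 : ℕ) : ℤ) *
          (bz (gb s.1 N 3 P) - bz (gb s.1 N 4 P)) =
          ((fp m s : ℕ) : ℤ) * bz (gb s.1 N 3 P) - ((fp m s : ℕ) : ℤ) * bz (gb s.1 N 4 P) := by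
        intro s
        rw [pow_zero, Nat.div_one]
        ring
      rw [Finset.sum_congr rfl fun s _ => h6 s, Finset.sum_sub_distrib, h5, h5, hb0, sub_self]
    have w := fun k (hk : k < D + 1) => C3_wl hP hk hD ht h0
    rw [Bool.or_eq_true]
    right
    rw [Bool.and_eq_true, Bool.and_eq_true, decide_eq_true_eq, decide_eq_true_eq,
      List.all_eq_true]
    refine ⟨⟨?_, ?_⟩, ?_⟩
    · have := w D (by omega)
      rw [wsum_top hD, add_zero] at this
      exact_mod_cast this
    · have := w 0 (by omega)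
      rw [h0, add_zero] at this
      exact_mod_cast this
    · intro k hk
      rw [List.mem_range] at hk
      rw [decide_eq_true_eq]
      have a1 := w k (by omega)
      have a2 := w (k + 1) (by omega)
      have a3 := wsum_step (m := m) (P := P) hk
      have a4 : (((((mkWl N D m).getD k []).getD P 0 + (mkProf N D m).length +
          digB (mkProf N D m) (fun s => gb s N 4 P) k : ℕ)) : ℤ) =
          ((2 * ((mkWl N D m).getD (k + 1) []).getD P 0 +
            digB (mkProf N D m) (fun s => gb s N 3 P) k : ℕ) : ℤ) := by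
        push_cast
        rw [a1, a2, a3]
        ring
      exact_mod_cast a4
  · rw [decide_eq_false ht]
    rfl

end Pool.Agent.Lib.MP_bb9e9d_lc
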