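import Pool.Agent.Lib.MP_bb9e9d_lc.Ver.B3
import Pool.Agent.Lib.MP_bb9e9d_lc.Ver.C3

/-! # The size of the certificates, 3 -/

namespace Pool.Agent.Lib.MP_bb9e9d_lc

open MP_634427_lc

private lemma b4_wsum {K : Inst} {N : ℕ} {m : Stt N → ℕ ⊕ ℕ} (h : IMu (prob K N) m) {P : ℕ}
    (hP : P < N) (h0 : topl m (fun s => gb s.1 N 3 P) = 0) : wsum m P 0 = 0 := by
  have h1 := h.bal0 ⟨P, hP⟩ h0
  have h2 : ∀ j : ℕ, ∑ s : Stt N, (fp m s : ℤ) * bz (gb s.1 N j P) =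
      ((∑ s with gb s.1 N j P = true, fp m s : ℕ) : ℤ) := by
    intro j
    push_cast
    rw [Finset.sum_filter]
    refine Finset.sum_congr rfl fun s _ => ?_
    unfold bz
    split_ifs <;> simp
  have h3 : wsum m P 0 = ∑ s : Stt N, (fp m s : ℤ) * bz (gb s.1 N 3 P) -
      ∑ s : Stt N, (fp m s : ℤ) * bz (gb s.1 N 4 P) := by
    unfold wsum
    rw [← Finset.sum_sub_distrib]
    refine Finset.sum_congr rfl fun s _ => ?_
    rw [pow_zero, Nat.div_one, mul_sub]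
  rw [h3, h2, h2]
  have h4 : (∑ s with gb s.1 N 3 P = true, fp m s) = ∑ s with gb s.1 N 4 P = true, fp m s := h1
  rw [h4, sub_self]

/-- Proof: `sz c = sz c.tup` is the sum of the sizes of the components plus `6`; `sz_mkProf`,
`sz_allLS`, `sz_allLL`, `sz_mkWl` (with `wsum_le`; `wsum m P 0 = 0` from `IMu.bal0`), and for the tables
`sz_le_of` with `sz_mkTab`; closure properties of `E1`, `E2`. -/
theorem e2_sz_mkCrt : ∃ F, E2 F ∧ ∀ (K : Inst) (N : ℕ) (m : Stt N → ℕ ⊕ ℕ), IMu (prob K N) m →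
    (∀ s, fp m s < 2 ^ digs N) → (∀ s, lv m s ≤ 2 ^ (6 * N)) →
      sz (mkCrt K N (digs N) (2 ^ (6 * N)) m) ≤ F N := by
  have c1 : ∀ k : ℕ, E2 fun _ => k := fun k => (E1.const k).e2
  have cN : E2 fun N => N := E1.id.e2
  have cP : E2 fun N => 2 ^ (6 * N) := E1.two_pow.e2
  have cD : E2 fun N => digs N := e2_digs
  have cLS : E2 fun N => (allLS N).length := e1_allLS.e2
  have cR : E2 fun N => rad0 N (2 ^ (6 * N)) := e1_rad0.e2
  have cE : E2 fun N => (allE N (rad0 N (2 ^ (6 * N)))).length := e2_allE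
  have cLL : E2 fun N => (allLL N (2 ^ (6 * N))).length := e2_allLL
  have A1 : E2 fun N => 2 ^ (6 * N) * (12 * N + 2 * digs N + 2 ^ (6 * N) + 10) :=
    cP.mul (((((c1 12).mul cN).add ((c1 2).mul cD)).add cP).add (c1 10))
  have A3 : E2 fun N => (allLS N).length * (12 * N + 1) :=
    cLS.mul (((c1 12).mul cN).add (c1 1))
  have A4 : E2 fun N => (allLL N (2 ^ (6 * N))).length * (N * (2 ^ (6 * N) + 1) + 1) :=
    cLL.mul ((cN.mul (cP.add (c1 1))).add (c1 1))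
  have A5 : E2 fun N => (digs N + 1) * (N * (2 * 2 ^ (6 * N) + 1) + 1) :=
    (cD.add (c1 1)).mul ((cN.mul (((c1 2).mul cP).add (c1 1))).add (c1 1))
  have A7 : E2 fun N => (digs N * (1 + 2 ^ (6 * N)) + 2 ^ (6 * N) + 1) *
      ((allE N (rad0 N (2 ^ (6 * N)))).length *
        (N * (2 * rad0 N (2 ^ (6 * N)) + 1) + 12 * N + 2) + 1) :=
    (((cD.mul ((c1 1).add cP)).add cP).add (c1 1)).mul
      ((cE.mul (((cN.mul (((c1 2).mul cR).add (c1 1))).add ((c1 12).mul cN)).add (c1 2))).add (c1 1))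
  have A6 := cLL.mul (((cN.mul (cP.add (c1 1))).add A7).add (c1 2))
  refine ⟨_, ((((((A1.add cD).add cP).add A3).add A4).add A5).add A6).add (c1 6), ?_⟩
  intro K N m hm hf hl
  have h1 := sz_mkProf (D := digs N) hl
  have h3 := sz_allLS (N := N)
  have h4 := sz_allLL (N := N) (L := 2 ^ (6 * N))
  have h5 := sz_mkWl (N := N) (D := digs N) (m := m) fun P k h0 hP =>
    wsum_le hf (b4_wsum hm hP h0) k
  have h6 : sz (((allLL N (2 ^ (6 * N))).filter fun ℓ => decide (ℓ.length = N)).map fun ℓ =>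
      (ℓ, mkTab K N (digs N) (2 ^ (6 * N)) m ℓ)) ≤ (allLL N (2 ^ (6 * N))).length *
        (N * (2 ^ (6 * N) + 1) + (digs N * (1 + 2 ^ (6 * N)) + 2 ^ (6 * N) + 1) *
      ((allE N (rad0 N (2 ^ (6 * N)))).length *
        (N * (2 * rad0 N (2 ^ (6 * N)) + 1) + 12 * N + 2) + 1) + 2) := by
    refine sz_le_of _ _ (N * (2 ^ (6 * N) + 1) + (digs N * (1 + 2 ^ (6 * N)) + 2 ^ (6 * N) + 1) *
      ((allE N (rad0 N (2 ^ (6 * N)))).length *
        (N * (2 * rad0 N (2 ^ (6 * N)) + 1) + 12 * N + 2) + 1) + 1) ?_ fun t ht => ?_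
    · rw [List.length_map]
      exact List.length_filter_le _ _
    · obtain ⟨ℓ, hℓ, rfl⟩ := List.mem_map.1 ht
      have h7 : ℓ ∈ allLL N (2 ^ (6 * N)) := List.mem_of_mem_filter hℓ
      obtain ⟨h8, h9⟩ := mem_lsLe.1 h7
      have h10 : sz ℓ ≤ N * (2 ^ (6 * N) + 1) := by
        refine sz_le_of ℓ _ _ h8 fun x hx => ?_
        rw [sz_nat]
        have := List.mem_range.1 (h9 x hx)
        omega
      have h11 := sz_mkTab (K := K) (N := N) (D := digs N) (L := 2 ^ (6 * N)) (m := m) ℓ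
      rw [sz_pair]
      omega
  have h0 : sz (mkCrt K N (digs N) (2 ^ (6 * N)) m) = sz (mkProf N (digs N) m) +
      (digs N + (2 ^ (6 * N) + (sz (allLS N) + (sz (allLL N (2 ^ (6 * N))) +
      (sz (mkWl N (digs N) m) + sz (((allLL N (2 ^ (6 * N))).filter fun ℓ =>
        decide (ℓ.length = N)).map fun ℓ => (ℓ, mkTab K N (digs N) (2 ^ (6 * N)) m ℓ)) + 1) + 1)
        + 1) + 1) + 1) + 1 := by
    have h01 : sz (mkCrt K N (digs N) (2 ^ (6 * N)) m) =
      sz (mkCrt K N (digs N) (2 ^ (6 * N)) m).tup := rfl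
    rw [h01]
    simp only [Crt.tup, mkCrt, sz_pair, sz_nat]
  rw [h0]
  omega

end Pool.Agent.Lib.MP_bb9e9d_lc
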