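import Pool.Agent.Lib.MP_bb9e9d_lc.Ver.S0
import Pool.Agent.Lib.MP_bb9e9d_lc.Core.Table
import Pool.Agent.Lib.MP_bb9e9d_lc.Abs.Main

/-! # Certificates: the certificate of a solution -/

namespace Pool.Agent.Lib.MP_bb9e9d_lc

open MP_634427_lc

/-- all lists of length `n` over `A` -/
def lsEq {α : Type} (A : List α) : ℕ → List (List α)
  | 0 => [[]]
  | n + 1 => (lsEq A n).flatMap fun w => A.map fun a => w ++ [a]

/-- all lists of length at most `n` over `A` -/
def lsLe {α : Type} (A : List α) (n : ℕ) : List (List α) := (List.range (n + 1)).flatMap (lsEq A)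

/-- all words of length at most `6 N` -/
def allLS (N : ℕ) : List Word := lsLe [false, true] (6 * N)

/-- all lists of levels -/
def allLL (N L : ℕ) : List (List ℕ) := lsLe (List.range (L + 1)) N

/-- all entries of the tables -/
def allE (N r : ℕ) : List En :=
  (lsEq (List.range (2 * r + 1)) N).flatMap fun v => (lsEq [false, true] (6 * N)).map fun f => (v, f)

/-- the entry of a state in the profile -/
def mkPE {N : ℕ} (D : ℕ) (m : Stt N → ℕ ⊕ ℕ) (s : Stt N) : PE :=
  (s.1, decide (lv m s ≠ 0), (List.range D).map (fun k => (fp m s).testBit k), lv m s)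

/-- the profile of `m`, with `D` digits -/
def mkProf (N D : ℕ) (m : Stt N → ℕ ⊕ ℕ) : List PE :=
  ((toSt N (lsEq [false, true] (6 * N))).filter fun s => decide (m s ≠ .inl 0)).map (mkPE D m)

/-- the partial sum for the digits from `k` on -/
def wsum {N : ℕ} (m : Stt N → ℕ ⊕ ℕ) (P k : ℕ) : ℤ :=
  ∑ s : Stt N, ((fp m s / 2 ^ k : ℕ) : ℤ) * (bz (gb s.1 N 3 P) - bz (gb s.1 N 4 P))

/-- the shifted partial sums -/
def mkWl (N D : ℕ) (m : Stt N → ℕ ⊕ ℕ) : List (List ℕ) :=
  (List.range (D + 1)).map fun k => (List.range N).map fun P =>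
    if topl m (fun s => gb s.1 N 3 P) = 0 then
      (((mkProf N D m).length : ℤ) + wsum m P k).toNat
    else 0

/-- the certificate without the tables -/
def preCrt (N D L : ℕ) (m : Stt N → ℕ ⊕ ℕ) : Crt where
  prof := mkProf N D m
  K := D
  L := L
  LS := allLS N
  LL := allLL N L
  wl := mkWl N D m
  tabs := []

/-- the radius of the certificate -/
def rad0 (N L : ℕ) : ℕ := rr (allLS N).length L

open Classical in
/-- the tables for `ℓ` -/
noncomputable def mkTab (K : Inst) (N D L : ℕ) (m : Stt N → ℕ ⊕ ℕ) (ℓ : List ℕ) : List (List En) :=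
  (List.range ((opL K N (rad0 N L) (preCrt N D L m) ℓ).length + 1)).map fun i =>
    (allE N (rad0 N L)).filter fun e => decide (dec N (rad0 N L) e ∈
      exact ((rp (prob K N) L m (lf N ℓ)).Reach 0)
        (((opL K N (rad0 N L) (preCrt N D L m) ℓ).take i).map (Option.map (TS N (rad0 N L)))))

/-- the certificate -/
noncomputable def mkCrt (K : Inst) (N D L : ℕ) (m : Stt N → ℕ ⊕ ℕ) : Crt where
  prof := mkProf N D m
  K := D
  L := L
  LS := allLS N
  LL := allLL N L
  wl := mkWl N D m
  tabs := ((allLL N L).filter fun ℓ => decide (ℓ.length = N)).map fun ℓ =>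
    (ℓ, mkTab K N D L m ℓ)

/-- the number of digits -/
def digs (N : ℕ) : ℕ :=
  (2 * cst (Stt N) (Stt N) (Stt N × Stt N × Fin (2 ^ (6 * N) + 1)) 2 + 1) ^ N * 2 ^ (6 * N) *
    (2 ^ (6 * N) + 1) ^ N + N * (6 * N + 2) + 1

end Pool.Agent.Lib.MP_bb9e9d_lc
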