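import Pool.Agent.Lib.MP_bb9e9d_lc.Ver.S0

/-! # Certificates: the profile -/

namespace Pool.Agent.Lib.MP_bb9e9d_lc

open MP_634427_lc

variable {K : Inst} {N : ℕ} {c : Crt}

private lemma s2_prof (h : profB K N c = true) :
    (c.prof.map fun e => e.1).Nodup ∧ ∀ e ∈ c.prof, e.1.length = 6 * N ∧
      e.2.2.1.length = c.K ∧ e.2.2.2 ≤ c.L ∧ (e.2.1 = true → e.2.2.2 ≠ 0) ∧
      (e.2.1 = false → e.2.2.2 = 0 ∧ true ∈ e.2.2.1) := by
  unfold profB at h
  rw [Bool.and_eq_true, decide_eq_true_eq, List.all_eq_true] at h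
  refine ⟨h.1, fun e he => ?_⟩
  have h1 := h.2 e he
  simp only [Bool.and_eq_true, decide_eq_true_eq] at h1
  obtain ⟨⟨⟨⟨h2, h3⟩, h4⟩, -⟩, h5⟩ := h1
  refine ⟨h2, h3, h4, fun h6 => ?_, fun h6 => ?_⟩
  · rw [h6] at h5
    simpa using h5
  · rw [h6] at h5
    simpa using h5

private lemma s2_find {l : List PE} (hl : (l.map fun e => e.1).Nodup) {e : PE} (he : e ∈ l) :
    l.find? (fun e' => decide (e'.1 = e.1)) = some e := by
  induction l with
  | nil => exact absurd he (by simp)
  | cons e' l ih =>
    rw [List.map_cons, List.nodup_cons] at hl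
    rcases List.mem_cons.1 he with h1 | h1
    · subst h1
      rw [List.find?_cons_of_pos]
      simp
    · rw [List.find?_cons_of_neg, ih hl.2 h1]
      intro h2
      apply hl.1
      rw [of_decide_eq_true h2]
      exact List.mem_map.2 ⟨e, h1, rfl⟩

private lemma s2_none {l : List PE} {s : Word} (hl : ¬ ∃ e ∈ l, e.1 = s) :
    l.find? (fun e' => decide (e'.1 = s)) = none := by
  rw [List.find?_eq_none]
  intro e he h1
  exact hl ⟨e, he, of_decide_eq_true h1⟩

private lemma s2_bval_ne {w : Word} (h : true ∈ w) : bval w ≠ 0 := by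
  induction w with
  | nil => exact absurd h (by simp)
  | cons b w ih =>
    rw [bval]
    cases b with
    | true => simp
    | false =>
      have h1 : true ∈ w := by simpa using h
      have := ih h1
      simp only [Bool.false_eq_true, if_false, zero_add]
      omega

private lemma s2_bval (w : Word) :
    bval w = ∑ k ∈ Finset.range w.length, 2 ^ k * (if w.getD k false = true then 1 else 0) := by
  induction w with
  | nil => rfl
  | cons b w ih =>
    rw [bval, List.length_cons, Finset.sum_range_succ', ih, Finset.mul_sum]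
    simp only [List.getD_cons_succ, List.getD_cons_zero, pow_zero, one_mul]
    rw [add_comm]
    congr 1
    refine Finset.sum_congr rfl fun k _ => ?_
    rw [pow_succ]
    ring

/-- Proof: the keys are different, so `find?` finds `e`. -/
theorem muOf_mem (h : profB K N c = true) {e : PE} (he : e ∈ c.prof) :
    muOf c.prof e.1 = bif e.2.1 then .inr (e.2.2.2 - 1) else .inl (bval e.2.2.1) := by
  unfold muOf
  rw [s2_find (s2_prof h).1 he]

/-- Proof: `bval` of digits with a `true` is not zero. -/
theorem muOf_ne (h : profB K N c = true) (s : Word) :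
    muOf c.prof s ≠ .inl 0 ↔ ∃ e ∈ c.prof, e.1 = s := by
  constructor
  · intro h1
    by_contra h2
    apply h1
    unfold muOf
    rw [s2_none h2]
  · rintro ⟨e, he, rfl⟩
    rw [muOf_mem h he]
    obtain ⟨-, -, -, -, h6⟩ := (s2_prof h).2 e he
    cases hb : e.2.1 with
    | true => simp
    | false =>
      have := s2_bval_ne (h6 hb).2
      simpa using this

theorem lv_mem (h : profB K N c = true) {e : PE} (he : e ∈ c.prof) (s : Stt N) (hs : s.1 = e.1) :
    lv (muS N c.prof) s = e.2.2.2 ∧ fp (muS N c.prof) s = (bif e.2.1 then 0 else bval e.2.2.1) ∧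
      (e.2.1 = true ↔ e.2.2.2 ≠ 0) := by
  obtain ⟨-, -, -, h5, h6⟩ := (s2_prof h).2 e he
  have h1 : muS N c.prof s = bif e.2.1 then .inr (e.2.2.2 - 1) else .inl (bval e.2.2.1) := by
    rw [muS, hs, muOf_mem h he]
  cases hb : e.2.1 with
  | true =>
    rw [hb, cond_true] at h1
    have h7 := h5 hb
    refine ⟨?_, ?_, fun _ => h7, fun _ => rfl⟩
    · rw [lv, h1]
      change e.2.2.2 - 1 + 1 = e.2.2.2
      omega
    · rw [fp, h1, cond_true]
  | false =>
    rw [hb, cond_false] at h1
    have h7 := (h6 hb).1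
    refine ⟨?_, ?_, fun h8 => absurd h8 (by decide), fun h8 => absurd h7 h8⟩
    · rw [lv, h1, h7]
    · rw [fp, h1, cond_false]

private lemma s2_lv_none {s : Stt N} (h1 : ¬ ∃ e ∈ c.prof, e.1 = s.1) :
    lv (muS N c.prof) s = 0 := by
  have h2 : muS N c.prof s = .inl 0 := by
    rw [muS, muOf, s2_none h1]
  rw [lv, h2]

theorem lv_le (h : profB K N c = true) (s : Stt N) : lv (muS N c.prof) s ≤ c.L := by
  by_cases h1 : ∃ e ∈ c.prof, e.1 = s.1
  · obtain ⟨e, he, h2⟩ := h1
    rw [(lv_mem h he s h2.symm).1]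
    exact ((s2_prof h).2 e he).2.2.1
  · rw [s2_lv_none h1]
    exact Nat.zero_le _

private lemma s2_le_foldr {l : List PE} {e : PE} (he : e ∈ l) :
    e.2.2.2 ≤ l.foldr (fun e r => max e.2.2.2 r) 0 := by
  induction l with
  | nil => exact absurd he (by simp)
  | cons e' l ih =>
    rw [List.foldr_cons]
    rcases List.mem_cons.1 he with h1 | h1
    · subst h1
      exact le_max_left _ _
    · exact (ih h1).trans (le_max_right _ _)

private lemma s2_foldr_le {l : List PE} {B : ℕ} (hl : ∀ e ∈ l, e.2.2.2 ≤ B) :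
    l.foldr (fun e r => max e.2.2.2 r) 0 ≤ B := by
  induction l with
  | nil => exact Nat.zero_le _
  | cons e l ih =>
    rw [List.foldr_cons]
    exact max_le (hl e List.mem_cons_self) (ih fun e' he' => hl e' (List.mem_cons_of_mem _ he'))

/-- Proof: `muOf_ne`, `lv_mem`: states outside the profile have level zero. -/
theorem topB_eq (h : profB K N c = true) (p : Word → Bool) :
    topB c.prof p = topl (muS N c.prof) fun s => p s.1 := by
  apply le_antisymm
  · refine s2_foldr_le fun e he => ?_
    obtain ⟨h1, h2⟩ := List.mem_filter.1 he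
    have h3 := ((s2_prof h).2 e h1).1
    have h4 := (lv_mem h h1 ⟨e.1, h3⟩ rfl).1
    rw [← h4]
    exact Finset.le_sup (f := lv (muS N c.prof))
      (Finset.mem_filter.2 ⟨Finset.mem_univ _, h2⟩)
  · refine Finset.sup_le fun s hs => ?_
    have h1 := (Finset.mem_filter.1 hs).2
    by_cases h2 : ∃ e ∈ c.prof, e.1 = s.1
    · obtain ⟨e, he, h3⟩ := h2
      rw [(lv_mem h he s h3.symm).1]
      refine s2_le_foldr (List.mem_filter.2 ⟨he, ?_⟩)
      rw [h3]
      exact h1
    · rw [s2_lv_none h2]
      exact Nat.zero_le _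

private lemma s2_sum_find (G : PE → ℕ) {l : List PE} (hl : (l.map fun e => e.1).Nodup)
    (hN : ∀ e ∈ l, e.1.length = 6 * N) :
    ∑ s : Stt N, ((l.find? fun e => decide (e.1 = s.1)).elim 0 G) = (l.map G).sum := by
  induction l with
  | nil => simp
  | cons e l ih =>
    rw [List.map_cons, List.nodup_cons] at hl
    rw [List.map_cons, List.sum_cons, ← ih hl.2 fun e' he' => hN e' (List.mem_cons_of_mem _ he')]
    have h1 : ∀ s : Stt N, ((e :: l).find? fun e => decide (e.1 = s.1)).elim 0 G =
        (if s = ⟨e.1, hN e List.mem_cons_self⟩ then G e else 0) +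
          (l.find? fun e => decide (e.1 = s.1)).elim 0 G := by
      intro s
      by_cases h2 : s = ⟨e.1, hN e List.mem_cons_self⟩
      · have h3 : e.1 = s.1 := by rw [h2]
        rw [if_pos h2, List.find?_cons_of_pos (by simpa using h3), s2_none]
        · rfl
        · rintro ⟨e', he', h4⟩
          apply hl.1
          rw [h3, ← h4]
          exact List.mem_map.2 ⟨e', he', rfl⟩
      · have h3 : ¬ e.1 = s.1 := fun h4 => h2 (Subtype.ext h4.symm)
        rw [if_neg h2, List.find?_cons_of_neg (by simpa using h3), zero_add]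
    rw [Finset.sum_congr rfl fun s _ => h1 s, Finset.sum_add_distrib, Finset.sum_ite_eq' ]
    simp

private lemma s2_exch (G : PE → ℕ) (q : ℕ → PE → Bool) (n : ℕ) {l : List PE}
    (h : ∀ e ∈ l, G e = ∑ k ∈ Finset.range n, 2 ^ k * (if q k e = true then 1 else 0)) :
    (l.map G).sum = ∑ k ∈ Finset.range n, 2 ^ k * (l.filter (q k)).length := by
  induction l with
  | nil => simp
  | cons e l ih =>
    rw [List.map_cons, List.sum_cons, ih fun e' he' => h e' (List.mem_cons_of_mem _ he'),
      h e List.mem_cons_self, ← Finset.sum_add_distrib]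
    refine Finset.sum_congr rfl fun k _ => ?_
    rw [← mul_add, List.filter_cons]
    split_ifs with h1
    · rw [List.length_cons, add_comm]
    · rw [zero_add]

/-- Proof: `bval w = ∑ k < w.length, 2 ^ k * [w.getD k]`; exchange the sums; the sum over the states is
the sum over the entries of the profile (different keys). -/
theorem sum_fp (h : profB K N c = true) (p : Word → Bool) :
    ∑ s : Stt N with p s.1 = true, fp (muS N c.prof) s =
      ∑ k ∈ Finset.range c.K, 2 ^ k * digB c.prof p k := by
  obtain ⟨h1, h2⟩ := s2_prof h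
  let G : PE → ℕ := fun e => if p e.1 = true then (bif e.2.1 then 0 else bval e.2.2.1) else 0
  have h3 : ∑ s : Stt N with p s.1 = true, fp (muS N c.prof) s = (c.prof.map G).sum := by
    rw [← s2_sum_find (N := N) G h1 fun e he => (h2 e he).1, Finset.sum_filter]
    refine Finset.sum_congr rfl fun s _ => ?_
    by_cases h4 : ∃ e ∈ c.prof, e.1 = s.1
    · obtain ⟨e, he, h5⟩ := h4
      rw [← h5, s2_find h1 he, (lv_mem h he s h5.symm).2.1]
      rfl
    · rw [s2_none h4]
      have h5 : muS N c.prof s = .inl 0 := by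
        rw [muS, muOf, s2_none h4]
      rw [fp, h5]
      split_ifs <;> rfl
  rw [h3, s2_exch G (fun k e => !e.2.1 && p e.1 && e.2.2.1.getD k false) c.K]
  · rfl
  · intro e he
    obtain ⟨-, h4, -, -, -⟩ := h2 e he
    change (if p e.1 = true then (bif e.2.1 then 0 else bval e.2.2.1) else 0) = _
    cases hp : p e.1 <;> cases hb : e.2.1
    · simp
    · simp
    · simp only [if_true, cond_false, s2_bval, h4, Bool.not_false, Bool.true_and]
    · simp

/-- Proof: from the recursion, `∑_{k < K} 2 ^ k (X k - Y k) = w 0 - 2 ^ K w K` for `w k = wl k - prof.length`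
(over `ℤ`), `w 0 = w K = 0`. -/
theorem bal_of (h : profB K N c = true) {P : ℕ} (hb : balB N c P = true)
    (h0 : topl (muS N c.prof) (fun s => gb s.1 N 3 P) = 0) :
    ∑ s : Stt N with gb s.1 N 3 P = true, fp (muS N c.prof) s =
      ∑ s : Stt N with gb s.1 N 4 P = true, fp (muS N c.prof) s := by
  have h1 := topB_eq h fun s => gb s N 3 P
  unfold balB at hb
  rw [h1, h0, decide_eq_true (rfl : (0 : ℕ) = 0)] at hb
  simp only [Bool.and_eq_true, Bool.not_true, Bool.false_or, decide_eq_true_eq,
    List.all_eq_true, List.mem_range] at hb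
  obtain ⟨-, ⟨h2, h3⟩, h4⟩ := hb
  rw [sum_fp h fun s => gb s N 3 P, sum_fp h fun s => gb s N 4 P]
  let w : ℕ → ℤ := fun k => ((c.wl.getD k []).getD P 0 : ℤ) - c.prof.length
  have h5 : ∀ n ≤ c.K, (∑ k ∈ Finset.range n, 2 ^ k * (digB c.prof (fun s => gb s N 3 P) k : ℤ)) -
      ∑ k ∈ Finset.range n, 2 ^ k * (digB c.prof (fun s => gb s N 4 P) k : ℤ) =
      w 0 - 2 ^ n * w n := by
    intro n hn
    induction n with
    | zero => simp
    | succ n ih =>
      rw [Finset.sum_range_succ, Finset.sum_range_succ]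
      have h6 := ih (by omega)
      have h7 := h4 n (by omega)
      have h8 : w n + (digB c.prof (fun s => gb s N 4 P) n : ℤ) =
          2 * w (n + 1) + (digB c.prof (fun s => gb s N 3 P) n : ℤ) := by
        simp only [w]
        have h9 : (((c.wl.getD n []).getD P 0 + c.prof.length +
            digB c.prof (fun s => gb s N 4 P) n : ℕ) : ℤ) =
            ((2 * (c.wl.getD (n + 1) []).getD P 0 +
              digB c.prof (fun s => gb s N 3 P) n : ℕ) : ℤ) := by exact_mod_cast h7
        push_cast at h9
        linarith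
      rw [pow_succ]
      linear_combination h6 - 2 ^ n * h8
  have h6 := h5 c.K le_rfl
  have h7 : w 0 = 0 := by
    simp only [w]
    rw [h3]
    ring
  have h8 : w c.K = 0 := by
    simp only [w]
    rw [h2]
    ring
  rw [h7, h8, mul_zero, sub_zero, sub_eq_zero] at h6
  exact_mod_cast h6

end Pool.Agent.Lib.MP_bb9e9d_lc
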