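import Pool.Agent.Lib.MP_bb9e9d_lc.Ver.C1
import Pool.Agent.Lib.MP_bb9e9d_lc.Ver.S2

/-! # Certificates: the profile of a solution -/

namespace Pool.Agent.Lib.MP_bb9e9d_lc

open MP_634427_lc

variable {K : Inst} {N D L : ℕ} {m : Stt N → ℕ ⊕ ℕ}

theorem mem_mkProf {e : PE} : e ∈ mkProf N D m ↔ ∃ s, m s ≠ .inl 0 ∧ e = mkPE D m s := by
  unfold mkProf
  simp only [List.mem_map, List.mem_filter, decide_eq_true_eq]
  constructor
  · rintro ⟨s, ⟨-, hs⟩, rfl⟩
    exact ⟨s, hs, rfl⟩
  · rintro ⟨s, hs, rfl⟩
    exact ⟨s, ⟨(toSt_all N).2 s, hs⟩, rfl⟩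

theorem bval_digits (n D : ℕ) (h : n < 2 ^ D) : bval ((List.range D).map fun k => n.testBit k) = n := by
  induction D generalizing n with
  | zero =>
    have : n = 0 := by simpa using h
    subst this
    rfl
  | succ D ih =>
    rw [List.range_succ_eq_map, List.map_cons, List.map_map, bval]
    have h1 : ((fun k => n.testBit k) ∘ Nat.succ) = fun k => (n / 2).testBit k := by
      funext k
      simp [Nat.testBit_succ]
    rw [h1, ih (n / 2) (by rw [pow_succ] at h; omega), Nat.testBit_zero]
    by_cases h2 : n % 2 = 1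
    · rw [decide_eq_true h2, if_pos rfl]
      omega
    · rw [decide_eq_false h2, if_neg (by decide)]
      omega

private lemma c2_keys : ((mkProf N D m).map fun e => e.1).Nodup := by
  unfold mkProf
  rw [List.map_map]
  have h1 : ((fun e : PE => e.1) ∘ mkPE D m) = fun s : Stt N => s.1 := rfl
  rw [h1]
  exact ((toSt_all N).1.filter _).map fun a b hab => Subtype.ext hab

private lemma c2_bval_false {w : Word} (h : true ∉ w) : bval w = 0 := by
  induction w with
  | nil => rfl
  | cons b w ih =>
    rw [bval]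
    cases b with
    | true => exact absurd List.mem_cons_self h
    | false =>
      rw [ih fun h1 => h (List.mem_cons_of_mem _ h1)]
      simp

private lemma c2_cases (s : Stt N) (hs : m s ≠ .inl 0) (h : lv m s = 0) :
    m s = .inl (fp m s) ∧ fp m s ≠ 0 := by
  unfold lv at h
  unfold fp
  cases hm : m s with
  | inl n =>
    refine ⟨rfl, fun h1 => hs ?_⟩
    have h2 : n = 0 := h1
    rw [hm, h2]
  | inr k =>
    rw [hm] at h
    exact absurd h (by simp)

/-- Proof: finite entries are not zero, so some digit is `true`. -/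
theorem profB_mk (hD : ∀ s, fp m s < 2 ^ D) (hL : ∀ s, lv m s ≤ L)
    (hloc : ∀ s, m s ≠ .inl 0 → (prob K N).loc s) (c : Crt) (h1 : c.prof = mkProf N D m)
    (h2 : c.K = D) (h3 : c.L = L) : profB K N c = true := by
  unfold profB
  rw [h1, h2, h3, Bool.and_eq_true, decide_eq_true_eq, List.all_eq_true]
  refine ⟨c2_keys, fun e he => ?_⟩
  obtain ⟨s, hs, rfl⟩ := mem_mkProf.1 he
  have e1 : (mkPE D m s).1 = s.1 := rfl
  have e2 : (mkPE D m s).2.1 = decide (lv m s ≠ 0) := rfl
  have e3 : (mkPE D m s).2.2.1 = (List.range D).map fun k => (fp m s).testBit k := rfl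
  have e4 : (mkPE D m s).2.2.2 = lv m s := rfl
  rw [e1, e2, e3, e4, decide_eq_true s.2, decide_eq_true (hL s), List.length_map,
    List.length_range, decide_eq_true (rfl : D = D)]
  have hl : locB K N s.1 = true := hloc s hs
  rw [hl]
  by_cases h4 : lv m s = 0
  · have h5 : decide (lv m s ≠ 0) = false := decide_eq_false (by simpa using h4)
    rw [h5, decide_eq_true h4]
    obtain ⟨-, h6⟩ := c2_cases s hs h4
    have h7 : true ∈ (List.range D).map fun k => (fp m s).testBit k := by
      by_contra h8
      exact h6 ((bval_digits _ D (hD s)).symm.trans (c2_bval_false h8))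
    simp only [Bool.and_true, Bool.true_and, cond_false]
    exact List.any_eq_true.2 ⟨true, h7, rfl⟩
  · have h5 : decide (lv m s ≠ 0) = true := decide_eq_true h4
    rw [h5, decide_eq_false h4]
    rfl

private lemma c2_find {l : List PE} (hl : (l.map fun e => e.1).Nodup) {e : PE} (he : e ∈ l) :
    l.find? (fun e' => decide (e'.1 = e.1)) = some e := by
  induction l with
  | nil => exact absurd he (by simp)
  | cons e' l ih =>
    rw [List.map_cons, List.nodup_cons] at hl
    rcases List.mem_cons.1 he with h1 | h1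
    · subst h1
      rw [List.find?_cons_of_pos]
      simp
    · rw [List.find?_cons_of_neg, ih hl.2 h1]
      intro h2
      apply hl.1
      rw [of_decide_eq_true h2]
      exact List.mem_map.2 ⟨e, h1, rfl⟩

/-- Proof: `find?` in the profile. -/
theorem muS_mk (hD : ∀ s, fp m s < 2 ^ D) : muS N (mkProf N D m) = m := by
  funext s
  unfold muS muOf
  by_cases hs : m s = .inl 0
  · have h1 : (mkProf N D m).find? (fun e => decide (e.1 = s.1)) = none := by
      rw [List.find?_eq_none]
      intro e he h2
      obtain ⟨s', hs', rfl⟩ := mem_mkProf.1 he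
      have h3 : s' = s := Subtype.ext (of_decide_eq_true h2)
      exact hs' (h3 ▸ hs)
    rw [h1, hs]
  · have h1 : (mkProf N D m).find? (fun e => decide (e.1 = s.1)) = some (mkPE D m s) :=
      c2_find (e := mkPE D m s) c2_keys (mem_mkProf.2 ⟨s, hs, rfl⟩)
    rw [h1]
    change (bif decide (lv m s ≠ 0) then Sum.inr (lv m s - 1) else
      Sum.inl (bval ((List.range D).map fun k => (fp m s).testBit k))) = m s
    by_cases h4 : lv m s = 0
    · have h5 : decide (lv m s ≠ 0) = false := decide_eq_false (by simpa using h4)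
      rw [h5, cond_false, bval_digits _ _ (hD s)]
      exact (c2_cases s hs h4).1.symm
    · have h5 : decide (lv m s ≠ 0) = true := decide_eq_true h4
      rw [h5, cond_true]
      unfold lv at h4 ⊢
      cases hm : m s with
      | inl n => rw [hm] at h4; exact absurd rfl h4
      | inr k => rfl

private lemma c2_one (D : ℕ) (h : 1 ≤ D) :
    ((List.range D).map fun k => (1 : ℕ).testBit k) = true :: List.replicate (D - 1) false := by
  obtain ⟨d, rfl⟩ : ∃ d, D = d + 1 := ⟨D - 1, by omega⟩
  rw [List.range_succ_eq_map, List.map_cons, List.map_map, Nat.add_sub_cancel]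
  congr 1
  rw [List.eq_replicate_iff]
  refine ⟨by simp, fun b hb => ?_⟩
  obtain ⟨k, -, rfl⟩ := List.mem_map.1 hb
  simp [Nat.testBit_succ]

/-- Proof: exactly one state with the bit has `fp = 1`; the other states with the bit have
multiplicity zero and do not occur in the profile. -/
theorem namB_mk (hD : ∀ s, fp m s < 2 ^ D) (h0 : 1 ≤ D) (h : IMu (prob K N) m)
    (hK : ∀ a ∈ K.inds, a < N) (c : Crt) (h1 : c.prof = mkProf N D m) (h2 : c.K = D) :
    namB K N c = true := by
  unfold namB
  rw [h1, h2, List.all_eq_true]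
  intro a ha
  obtain ⟨ht, hsum⟩ := h.named ⟨a, hK a ha⟩ ha
  have hdb : ∀ s : Stt N, (prob K N).db s ⟨a, hK a ha⟩ = gb s.1 N 5 a := fun _ => rfl
  have hlv : ∀ s : Stt N, gb s.1 N 5 a = true → lv m s = 0 := by
    intro s hs
    have h3 : lv m s ≤ topl m (fun s => (prob K N).db s ⟨a, hK a ha⟩) :=
      Finset.le_sup (f := lv m) (Finset.mem_filter.2 ⟨Finset.mem_univ _, hs⟩)
    omega
  -- the unique state
  have hex : ∃ s0 : Stt N, gb s0.1 N 5 a = true ∧ fp m s0 = 1 ∧
      ∀ s : Stt N, gb s.1 N 5 a = true → s ≠ s0 → fp m s = 0 := by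
    have h3 : ∃ s0 ∈ Finset.univ.filter (fun s : Stt N => (prob K N).db s ⟨a, hK a ha⟩ = true),
        fp m s0 ≠ 0 := by
      by_contra h4
      push Not at h4
      rw [Finset.sum_eq_zero h4] at hsum
      exact absurd hsum (by norm_num)
    obtain ⟨s0, hs0, hf0⟩ := h3
    have hrest := Finset.add_sum_erase _ (fp m) hs0
    rw [hsum] at hrest
    refine ⟨s0, ?_, by omega, fun s hs hne => ?_⟩
    · have := (Finset.mem_filter.1 hs0).2
      rwa [hdb] at this
    · have hz : ∑ x ∈ (Finset.univ.filter
          (fun s : Stt N => (prob K N).db s ⟨a, hK a ha⟩ = true)).erase s0, fp m x = 0 := by omega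
      refine (Finset.sum_eq_zero_iff.1 hz) s (Finset.mem_erase.2 ⟨hne, ?_⟩)
      exact Finset.mem_filter.2 ⟨Finset.mem_univ _, by rw [hdb]; exact hs⟩
  obtain ⟨s0, hg0, hf0, huniq⟩ := hex
  have hm0 : m s0 ≠ .inl 0 := by
    intro h4
    unfold fp at hf0
    rw [h4] at hf0
    exact absurd hf0 (by norm_num)
  have hmem : ∀ e, e ∈ (mkProf N D m).filter (fun e => gb e.1 N 5 a) ↔ e = mkPE D m s0 := by
    intro e
    rw [List.mem_filter]
    constructor
    · rintro ⟨h4, h5⟩
      obtain ⟨s, hs, rfl⟩ := mem_mkProf.1 h4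
      have h6 : gb s.1 N 5 a = true := h5
      by_cases h7 : s = s0
      · rw [h7]
      · exact absurd (huniq s h6 h7) (c2_cases s hs (hlv s h6)).2
    · rintro rfl
      exact ⟨mem_mkProf.2 ⟨s0, hm0, rfl⟩, hg0⟩
  have hnd : ((mkProf N D m).filter (fun e => gb e.1 N 5 a)).Nodup :=
    (List.Nodup.of_map _ c2_keys).filter _
  have hlist : (mkProf N D m).filter (fun e => gb e.1 N 5 a) = [mkPE D m s0] := by
    generalize (mkProf N D m).filter (fun e => gb e.1 N 5 a) = l at hmem hnd
    match l, hmem, hnd with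
    | [], hmem, _ => exact absurd ((hmem _).2 rfl) (by simp)
    | [x], hmem, _ => rw [(hmem x).1 (by simp)]
    | x :: y :: t, hmem, hnd =>
      have hx := (hmem x).1 (by simp)
      have hy := (hmem y).1 (by simp)
      rw [hx, hy] at hnd
      simp at hnd
  rw [hlist]
  have e2 : (mkPE D m s0).2.1 = false := decide_eq_false (by simpa using hlv s0 hg0)
  have e3 : (mkPE D m s0).2.2.1 = true :: List.replicate (D - 1) false := by
    change ((List.range D).map fun k => (fp m s0).testBit k) = _
    rw [hf0, c2_one D h0]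
  simp [e2, e3]

end Pool.Agent.Lib.MP_bb9e9d_lc
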