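import Pool.Agent.Lib.MP_bb9e9d_lc.Ver.S0

/-! # Certificates: lists that contain everything -/

namespace Pool.Agent.Lib.MP_bb9e9d_lc

open MP_634427_lc

/-- Proof: induction on `w` from the right (`List.reverseRecOn`). -/
theorem lsB_iff {N : ℕ} {LS : List Word} (h : lsB N LS = true) : LSok N LS := by
  unfold lsB at h
  rw [Bool.and_eq_true, decide_eq_true_eq, List.all_eq_true] at h
  obtain ⟨h0, h1⟩ := h
  intro w
  induction w using List.reverseRecOn with
  | nil => intro _; exact h0
  | append_singleton w b ih =>
    intro hw
    rw [List.length_append, List.length_singleton] at hw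
    have h2 := h1 w (ih (by omega))
    rw [Bool.or_eq_true, Bool.and_eq_true, decide_eq_true_eq, decide_eq_true_eq,
      decide_eq_true_eq] at h2
    rcases h2 with h2 | ⟨h2, h3⟩
    · omega
    · cases b
      · exact h2
      · exact h3

/-- Proof: induction on `w` from the right. -/
theorem llB_mem {N L : ℕ} {LL : List (List ℕ)} (h : llB N L LL = true) {w : List ℕ}
    (hw : w.length ≤ N) (hv : ∀ v ∈ w, v ≤ L) : w ∈ LL := by
  unfold llB at h
  rw [Bool.and_eq_true, decide_eq_true_eq, List.all_eq_true] at h
  obtain ⟨h0, h1⟩ := h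
  induction w using List.reverseRecOn with
  | nil => exact h0
  | append_singleton w b ih =>
    rw [List.length_append, List.length_singleton] at hw
    have h2 := h1 w (ih (by omega) fun v hv' => hv v (by simp [hv']))
    rw [Bool.or_eq_true, decide_eq_true_eq, List.all_eq_true] at h2
    rcases h2 with h2 | h2
    · omega
    · have h3 := h2 b (List.mem_range.2 (by have := hv b (by simp); omega))
      exact of_decide_eq_true h3

/-- Proof: the words of length `6 N` are pairwise different members of `LS`. -/
theorem card_le_length {N : ℕ} {LS : List Word} (h : LSok N LS) :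
    Fintype.card (Stt N) ≤ LS.length := by
  classical
  have h1 : Fintype.card (Stt N) ≤ LS.toFinset.card := by
    rw [← Finset.card_univ]
    apply Finset.card_le_card_of_injOn (fun s : Stt N => s.1)
    · intro s _
      rw [Finset.mem_coe, List.mem_toFinset]
      exact h s.1 (le_of_eq s.2)
    · intro a _ b _ hab
      exact Subtype.ext hab
  exact h1.trans (List.toFinset_card_le LS)

theorem card_Stt (N : ℕ) : Fintype.card (Stt N) = 2 ^ (6 * N) := by
  unfold Stt
  rw [card_vector, Fintype.card_bool]

/-- Proof: `rad` is monotone; `Fintype.card (Stt N × Stt N × Fin (L + 1)) = σ' * (σ' * (L + 1))`. -/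
theorem rad_le {N L : ℕ} {LS : List Word} (h : LSok N LS) :
    rad (Stt N) (Stt N) (Stt N × Stt N × Fin (L + 1)) ≤ rr LS.length L ∧ 1 ≤ rr LS.length L := by
  have h1 := card_le_length h
  constructor
  · unfold rad cst rr
    rw [Fintype.card_prod, Fintype.card_prod, Fintype.card_fin]
    generalize Fintype.card (Stt N) = a at h1
    generalize LS.length = b at h1
    have h2 : a * a ≤ b * b := Nat.mul_le_mul h1 h1
    have h3 : a * a * (a + 0 + 1) ≤ b * b * (b + 1) := Nat.mul_le_mul h2 (by omega)
    have h4 : a * (a * (L + 1)) ≤ b * b * (L + 1) := by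
      rw [← mul_assoc]
      exact Nat.mul_le_mul_right _ h2
    have h5 : a * (a * (L + 1)) * (a * (a * (L + 1)) + 2) ≤
        b * b * (L + 1) * (b * b * (L + 1) + 2) := Nat.mul_le_mul h4 (by omega)
    omega
  · unfold rr
    omega

end Pool.Agent.Lib.MP_bb9e9d_lc
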