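import Pool.Agent.Lib.MP_bb9e9d_lc.Ver.S0

/-! # Certificates: entries and vectors -/

namespace Pool.Agent.Lib.MP_bb9e9d_lc

open MP_634427_lc

variable {K : Inst} {N r : ℕ}

private lemma s4_getD_map {α : Type} (n : ℕ) (f : ℕ → α) (d : α) {i : ℕ} (hi : i < n) :
    ((List.range n).map f).getD i d = f i := by
  rw [List.getD_eq_getElem?_getD, List.getElem?_map, List.getElem?_range hi]
  rfl

private lemma s4_lt {N : ℕ} (j : Fin 6) (P : Fin N) : (j : ℕ) * N + P < 6 * N := by
  have h1 : ((j : ℕ) + 1) * N ≤ 6 * N := Nat.mul_le_mul_right _ j.2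
  have h2 : ((j : ℕ) + 1) * N = j * N + N := by ring
  have := P.2
  omega

private lemma s4_blk {N : ℕ} (f0 f1 f2 f3 f4 f5 : ℕ → Bool) (j : Fin 6) (P : Fin N) :
    ((List.range N).map f0 ++ (List.range N).map f1 ++ (List.range N).map f2 ++
      (List.range N).map f3 ++ (List.range N).map f4 ++ (List.range N).map f5).getD
      ((j : ℕ) * N + P) false = (![f0 P, f1 P, f2 P, f3 P, f4 P, f5 P] : Fin 6 → Bool) j := by
  have hP := P.2
  have hl : ∀ f : ℕ → Bool, ((List.range N).map f).length = N := by intro f; simp
  fin_cases j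
  · change List.getD _ (0 * N + P) false = f0 P
    rw [List.getD_append _ _ _ _ (by simp only [List.length_append, hl]; omega),
      List.getD_append _ _ _ _ (by simp only [List.length_append, hl]; omega),
      List.getD_append _ _ _ _ (by simp only [List.length_append, hl]; omega),
      List.getD_append _ _ _ _ (by simp only [List.length_append, hl]; omega),
      List.getD_append _ _ _ _ (by simp only [hl]; omega),
      s4_getD_map _ _ _ (by omega)]
    congr 1
    omega
  · change List.getD _ (1 * N + P) false = f1 P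
    rw [List.getD_append _ _ _ _ (by simp only [List.length_append, hl]; omega),
      List.getD_append _ _ _ _ (by simp only [List.length_append, hl]; omega),
      List.getD_append _ _ _ _ (by simp only [List.length_append, hl]; omega),
      List.getD_append _ _ _ _ (by simp only [List.length_append, hl]; omega),
      List.getD_append_right _ _ _ _ (by simp only [hl]; omega),
      s4_getD_map _ _ _ (by simp only [hl]; omega)]
    congr 1
    simp only [hl]
    omega
  · change List.getD _ (2 * N + P) false = f2 P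
    rw [List.getD_append _ _ _ _ (by simp only [List.length_append, hl]; omega),
      List.getD_append _ _ _ _ (by simp only [List.length_append, hl]; omega),
      List.getD_append _ _ _ _ (by simp only [List.length_append, hl]; omega),
      List.getD_append_right _ _ _ _ (by simp only [List.length_append, hl]; omega),
      s4_getD_map _ _ _ (by simp only [List.length_append, hl]; omega)]
    congr 1
    simp only [List.length_append, hl]
    omega
  · change List.getD _ (3 * N + P) false = f3 P
    rw [List.getD_append _ _ _ _ (by simp only [List.length_append, hl]; omega),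
      List.getD_append _ _ _ _ (by simp only [List.length_append, hl]; omega),
      List.getD_append_right _ _ _ _ (by simp only [List.length_append, hl]; omega),
      s4_getD_map _ _ _ (by simp only [List.length_append, hl]; omega)]
    congr 1
    simp only [List.length_append, hl]
    omega
  · change List.getD _ (4 * N + P) false = f4 P
    rw [List.getD_append _ _ _ _ (by simp only [List.length_append, hl]; omega),
      List.getD_append_right _ _ _ _ (by simp only [List.length_append, hl]; omega),
      s4_getD_map _ _ _ (by simp only [List.length_append, hl]; omega)]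
    congr 1
    simp only [List.length_append, hl]
    omega
  · change List.getD _ (5 * N + P) false = f5 P
    rw [List.getD_append_right _ _ _ _ (by simp only [List.length_append, hl]; omega),
      s4_getD_map _ _ _ (by simp only [List.length_append, hl]; omega)]
    congr 1
    simp only [List.length_append, hl]
    omega

theorem wf_addE (a b : En) : Wf N (addE N r a b) := by
  constructor <;> simp [addE]

theorem wf_zeroE : Wf N (zeroE N r) := by
  constructor <;> simp [zeroE]

theorem wf_ctrB (ℓ : List ℕ) (κ : ℕ) (s s' : Word) : Wf N (ctrB N r ℓ κ s s') := by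
  constructor
  · simp [ctrB]
  · simp only [ctrB, List.length_append, List.length_map, List.length_range]
    ring

theorem bdE_iff (a b : En) : bdE N r a b = true ↔ Bd r (dec N r a + dec N r b) := by
  unfold bdE Bd
  rw [List.all_eq_true]
  constructor
  · intro h P
    have h1 := h P (List.mem_range.2 P.2)
    rw [Bool.and_eq_true, decide_eq_true_eq, decide_eq_true_eq] at h1
    change |((a.1.getD P 0 : ℤ) - r) + ((b.1.getD P 0 : ℤ) - r)| ≤ r
    obtain ⟨h2, h3⟩ := h1
    rw [abs_le]
    constructor <;> omega
  · intro h P hP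
    have h1 := h ⟨P, List.mem_range.1 hP⟩
    change |((a.1.getD P 0 : ℤ) - r) + ((b.1.getD P 0 : ℤ) - r)| ≤ r at h1
    rw [abs_le] at h1
    rw [Bool.and_eq_true, decide_eq_true_eq, decide_eq_true_eq]
    obtain ⟨h2, h3⟩ := h1
    constructor <;> omega

/-- Proof: `r ≤ a + b` at every position by `bdE`, so the subtraction is exact. -/
theorem dec_addE {a b : En} (h : bdE N r a b = true) :
    dec N r (addE N r a b) = dec N r a + dec N r b := by
  unfold bdE at h
  rw [List.all_eq_true] at h
  refine Prod.ext ?_ ?_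
  · funext P
    have h1 := h P (List.mem_range.2 P.2)
    rw [Bool.and_eq_true, decide_eq_true_eq, decide_eq_true_eq] at h1
    obtain ⟨h2, h3⟩ := h1
    change (((List.range N).map fun P => a.1.getD P 0 + b.1.getD P 0 - r).getD (P : ℕ) 0 : ℤ) - r =
      ((a.1.getD P 0 : ℤ) - r) + ((b.1.getD P 0 : ℤ) - r)
    rw [s4_getD_map N _ 0 P.2]
    omega
  · funext j P
    apply Fl.ext'
    change ((List.range (6 * N)).map fun t => a.2.getD t false || b.2.getD t false).getD
      ((j : ℕ) * N + P) false = (a.2.getD ((j : ℕ) * N + P) false || b.2.getD ((j : ℕ) * N + P) false)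
    rw [s4_getD_map (6 * N) _ false (s4_lt j P)]

private lemma s4_getD_replicate {α : Type} (n : ℕ) (x d : α) {i : ℕ} (hi : i < n) :
    (List.replicate n x).getD i d = x := by
  rw [List.getD_eq_getElem?_getD, List.getElem?_replicate, if_pos hi]
  rfl

theorem dec_zeroE : dec N r (zeroE N r) = 0 := by
  refine Prod.ext ?_ ?_
  · funext P
    change ((List.replicate N r).getD (P : ℕ) 0 : ℤ) - r = 0
    rw [s4_getD_replicate N r 0 P.2]
    ring
  · funext j P
    apply Fl.ext'
    change (List.replicate (6 * N) false).getD ((j : ℕ) * N + P) false = false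
    rw [s4_getD_replicate (6 * N) false false (s4_lt j P)]

/-- Proof: the flags are a concatenation of six blocks of length `N`; `Matrix` notation `![...]` by
cases for `j : Fin 6`. -/
theorem dec_ctrB (hr : 1 ≤ r) (ℓ : List ℕ) (κ : ℕ) (s s' : Stt N) :
    dec N r (ctrB N r ℓ κ s.1 s'.1) = ctr (prob K N) (lf N ℓ) κ s s' := by
  refine Prod.ext ?_ ?_
  · funext P
    change (((List.range N).map fun P => bif decide (ℓ.getD P 0 = 0) && decide (κ = 0) then
      r + bn (gb s'.1 N 3 P) - bn (gb s'.1 N 4 P) else r).getD (P : ℕ) 0 : ℤ) - r =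
      if ℓ.getD (P : ℕ) 0 = 0 ∧ κ = 0 then bz (gb s'.1 N 3 P) - bz (gb s'.1 N 4 P) else 0
    rw [s4_getD_map N _ 0 P.2]
    by_cases h : ℓ.getD (P : ℕ) 0 = 0 ∧ κ = 0
    · rw [if_pos h]
      have h1 : (decide (ℓ.getD (P : ℕ) 0 = 0) && decide (κ = 0)) = true := by
        rw [Bool.and_eq_true, decide_eq_true_eq, decide_eq_true_eq]; exact h
      rw [h1, cond_true]
      unfold bn bz
      cases gb s'.1 N 3 P <;> cases gb s'.1 N 4 P <;>
        simp only [cond_true, cond_false, if_true, Bool.false_eq_true, if_false] <;> omega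
    · rw [if_neg h]
      have h1 : (decide (ℓ.getD (P : ℕ) 0 = 0) && decide (κ = 0)) = false := by
        rw [Bool.and_eq_false_iff, decide_eq_false_iff_not, decide_eq_false_iff_not]
        tauto
      rw [h1, cond_false]
      ring
  · funext j P
    apply Fl.ext'
    change (List.getD _ ((j : ℕ) * N + P) false) = _
    refine (s4_blk _ _ _ _ _ _ j P).trans ?_
    fin_cases j
    · rfl
    · rfl
    · rfl
    · rfl
    · change (gb s'.1 N 3 P && (!decide (κ = 0) && decide (ℓ.getD (P : ℕ) 0 = κ))) =
        (gb s'.1 N 3 P && decide (κ ≠ 0 ∧ ℓ.getD (P : ℕ) 0 = κ))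
      congr 1
      by_cases h1 : κ = 0 <;> simp [h1]
    · change (gb s'.1 N 4 P && (!decide (κ = 0) && decide (ℓ.getD (P : ℕ) 0 = κ))) =
        (gb s'.1 N 4 P && decide (κ ≠ 0 ∧ ℓ.getD (P : ℕ) 0 = κ))
      congr 1
      by_cases h1 : κ = 0 <;> simp [h1]

private lemma s4_ext {α : Type} {l l' : List α} (d : α) (h : l.length = l'.length)
    (h2 : ∀ i < l.length, l.getD i d = l'.getD i d) : l = l' := by
  apply List.ext_getElem h
  intro i h1 h3
  have := h2 i h1
  rwa [List.getD_eq_getElem _ _ h1, List.getD_eq_getElem _ _ h3] at this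

theorem dec_inj {a b : En} (ha : Wf N a) (hb : Wf N b) (h : dec N r a = dec N r b) : a = b := by
  have h1 := congrArg Prod.fst h
  have h2 := congrArg Prod.snd h
  refine Prod.ext ?_ ?_
  · apply s4_ext 0 (by rw [ha.1, hb.1])
    intro i hi
    rw [ha.1] at hi
    have h3 := congrFun h1 ⟨i, hi⟩
    change (a.1.getD i 0 : ℤ) - r = (b.1.getD i 0 : ℤ) - r at h3
    omega
  · apply s4_ext false (by rw [ha.2, hb.2])
    intro i hi
    rw [ha.2] at hi
    have hN : 0 < N := by
      rcases Nat.eq_zero_or_pos N with h0 | h0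
      · rw [h0] at hi; omega
      · exact h0
    have hj : i / N < 6 := Nat.div_lt_of_lt_mul (by rw [mul_comm]; exact hi)
    have h3 := congrFun (congrFun h2 ⟨i / N, hj⟩) ⟨i % N, Nat.mod_lt _ hN⟩
    have h4 := congrArg Fl.b h3
    change a.2.getD (i / N * N + i % N) false = b.2.getD (i / N * N + i % N) false at h4
    rwa [Nat.div_add_mod' i N] at h4

/-- every vector in the box is the vector of an entry with coordinates at most `2 r` -/
theorem exists_dec {v : Vc N} (h : Bd r v) :
    ∃ e : En, Wf N e ∧ (∀ x ∈ e.1, x ≤ 2 * r) ∧ dec N r e = v := by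
  refine ⟨((List.range N).map fun P => if hP : P < N then (v.1 ⟨P, hP⟩ + r).toNat else 0,
    (List.range (6 * N)).map fun t => if ht : t / N < 6 ∧ t % N < N then
      (v.2 ⟨t / N, ht.1⟩ ⟨t % N, ht.2⟩).b else false), ⟨by simp, by simp⟩, ?_, ?_⟩
  · intro x hx
    simp only [List.mem_map, List.mem_range] at hx
    obtain ⟨P, hP, rfl⟩ := hx
    rw [dif_pos hP]
    have h1 := abs_le.1 (h ⟨P, hP⟩)
    omega
  · refine Prod.ext ?_ ?_
    · funext P
      change (((List.range N).map fun P => if hP : P < N then (v.1 ⟨P, hP⟩ + r).toNat else 0).getD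
        (P : ℕ) 0 : ℤ) - r = v.1 P
      rw [s4_getD_map N _ 0 P.2, dif_pos P.2]
      have h1 := abs_le.1 (h P)
      have h2 : ((v.1 P + r).toNat : ℤ) = v.1 P + r := Int.toNat_of_nonneg (by omega)
      change ((v.1 P + r).toNat : ℤ) - r = v.1 P
      rw [h2]
      ring
    · funext j P
      apply Fl.ext'
      change ((List.range (6 * N)).map fun t => if ht : t / N < 6 ∧ t % N < N then
        (v.2 ⟨t / N, ht.1⟩ ⟨t % N, ht.2⟩).b else false).getD ((j : ℕ) * N + P) false = (v.2 j P).b
      rw [s4_getD_map (6 * N) _ false (s4_lt j P)]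
      have hN : 0 < N := lt_of_le_of_lt (Nat.zero_le _) P.2
      have e1 : ((j : ℕ) * N + P) / N = j := by
        rw [mul_comm, Nat.mul_add_div hN, Nat.div_eq_of_lt P.2, add_zero]
      have e2 : ((j : ℕ) * N + P) % N = P := by
        rw [mul_comm, Nat.mul_add_mod, Nat.mod_eq_of_lt P.2]
      have ht : ((j : ℕ) * N + P) / N < 6 ∧ ((j : ℕ) * N + P) % N < N := by
        rw [e1, e2]; exact ⟨j.2, P.2⟩
      rw [dif_pos ht]
      have a1 : (⟨((j : ℕ) * N + P) / N, ht.1⟩ : Fin 6) = j := Fin.ext e1
      have a2 : (⟨((j : ℕ) * N + P) % N, ht.2⟩ : Fin N) = P := Fin.ext e2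
      rw [a1, a2]

/-- Proof: `prefB` depends only on the names in `K.mins` and `K.prio`, which are below `N`. -/
theorem goodB_iff (hN : K.Below N) (ℓ : List ℕ) (e : En) : goodB K N r ℓ e = true ↔
    (dec N r e).1 = 0 ∧ FinalFl (prob K N) (lf N ℓ) (dec N r e).2 := by
  have hfl : ∀ j : Fin 6, extF (fun p : Fin N => ((dec N r e).2 j p).b) =
      fun p => flB N e j p := by
    intro j
    funext i
    unfold extF flB
    by_cases h : i < N
    · rw [dif_pos h, decide_eq_true h, Bool.true_and]
      rfl
    · rw [dif_neg h, decide_eq_false h, Bool.false_and]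
  have hfl' : ∀ (j : Fin 6) (P : Fin N), flB N e j P = ((dec N r e).2 j P).b := by
    intro j P
    unfold flB
    rw [decide_eq_true P.2, Bool.true_and]
    rfl
  unfold goodB
  rw [Bool.and_eq_true, Bool.and_eq_true, List.all_eq_true, List.all_eq_true]
  constructor
  · rintro ⟨⟨h1, h2⟩, h3⟩
    refine ⟨?_, ?_, ?_, ?_⟩
    · funext P
      have := h1 P (List.mem_range.2 P.2)
      rw [decide_eq_true_eq] at this
      change (e.1.getD P 0 : ℤ) - r = 0
      omega
    · change prefB K (extF fun p => ((dec N r e).2 0 p).b) (extF fun p => ((dec N r e).2 1 p).b) =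
        true
      rw [hfl 0, hfl 1]
      exact h2
    · intro P
      have := h3 P (List.mem_range.2 P.2)
      rw [Bool.and_eq_true] at this
      rw [← hfl' 2 P, ← hfl' 3 P]
      exact eq_of_beq this.1
    · intro P hP
      have := h3 P (List.mem_range.2 P.2)
      rw [Bool.and_eq_true, Bool.or_eq_true, Bool.and_eq_true, decide_eq_true_eq] at this
      rw [← hfl' 4 P, ← hfl' 5 P]
      rcases this.2 with h | h
      · exact absurd h hP
      · exact h
  · rintro ⟨h1, h2, h3, h4⟩
    refine ⟨⟨?_, ?_⟩, ?_⟩
    · intro P hP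
      have := congrFun h1 ⟨P, List.mem_range.1 hP⟩
      change (e.1.getD P 0 : ℤ) - r = 0 at this
      rw [decide_eq_true_eq]
      omega
    · change prefB K (extF fun p => ((dec N r e).2 0 p).b) (extF fun p => ((dec N r e).2 1 p).b) =
        true at h2
      rw [hfl 0, hfl 1] at h2
      exact h2
    · intro P hP
      have hP' := List.mem_range.1 hP
      have h5 := h3 ⟨P, hP'⟩
      rw [← hfl' 2 ⟨P, hP'⟩, ← hfl' 3 ⟨P, hP'⟩] at h5
      rw [Bool.and_eq_true, Bool.or_eq_true, Bool.and_eq_true, decide_eq_true_eq]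
      refine ⟨beq_iff_eq.2 h5, ?_⟩
      by_cases h6 : ℓ.getD P 0 = 0
      · exact Or.inl h6
      · right
        have h7 := h4 ⟨P, hP'⟩ h6
        rw [← hfl' 4 ⟨P, hP'⟩, ← hfl' 5 ⟨P, hP'⟩] at h7
        exact h7

theorem alwB_iff (ℓ : List ℕ) (κ : ℕ) (s : Stt N) :
    alwB N ℓ κ s.1 = true ↔ alw (prob K N) (lf N ℓ) κ s := by
  unfold alwB alw
  rw [List.all_eq_true]
  constructor
  · intro h P hP
    have := h P (List.mem_range.2 P.2)
    rw [Bool.or_eq_true, Bool.not_eq_true', Bool.or_eq_false_iff, decide_eq_true_eq] at this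
    change gb s.1 N 3 P = true ∨ gb s.1 N 4 P = true at hP
    rcases this with h1 | h1
    · rcases hP with h2 | h2
      · rw [h1.1] at h2; exact absurd h2 (by simp)
      · rw [h1.2] at h2; exact absurd h2 (by simp)
    · exact h1
  · intro h P hP
    have h1 := h ⟨P, List.mem_range.1 hP⟩
    change (gb s.1 N 3 P = true ∨ gb s.1 N 4 P = true) → κ ≤ ℓ.getD P 0 at h1
    rw [Bool.or_eq_true, Bool.not_eq_true', Bool.or_eq_false_iff, decide_eq_true_eq]
    by_cases h2 : gb s.1 N 3 P = true ∨ gb s.1 N 4 P = true
    · exact Or.inr (h1 h2)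
    · left
      rw [not_or, Bool.not_eq_true, Bool.not_eq_true] at h2
      exact h2

end Pool.Agent.Lib.MP_bb9e9d_lc
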