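import Pool.Agent.Lib.MP_bb9e9d_lc.Ver.S2
import Pool.Agent.Lib.MP_bb9e9d_lc.Ver.S4
import Pool.Agent.Lib.MP_bb9e9d_lc.Core.Table
import Pool.Agent.Lib.MP_634427_lc.Isolation

/-! # Certificates: options, generators, operations -/

namespace Pool.Agent.Lib.MP_bb9e9d_lc

open MP_634427_lc

variable {K : Inst} {N r : ℕ} {c : Crt}

private theorem S5_newS {LS : List Word} (hL : LSok N LS) (s : Stt N) (w : Word) :
    w ∈ newS K N LS s.1 ↔ ∃ s' : Stt N, s'.1 = w ∧ (prob K N).mv s s' ∧ (prob K N).loc s' := by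
  unfold newS
  rw [List.mem_filter, Bool.and_eq_true, Bool.and_eq_true, decide_eq_true_eq]
  constructor
  · rintro ⟨-, ⟨h1, h2⟩, h3⟩
    exact ⟨⟨w, h1⟩, rfl, h2, h3⟩
  · rintro ⟨s', rfl, h2, h3⟩
    exact ⟨hL _ (le_of_eq s'.2), ⟨s'.2, h2⟩, h3⟩

theorem TS_extL (hr : 1 ≤ r) {LS : List Word} (hL : LSok N LS) (ℓ : List ℕ) (κ : ℕ) (s : Stt N) :
    TS N r (extL K N r LS ℓ κ s.1) = extS K N (lf N ℓ) κ s := by
  ext v
  unfold TS extS extL
  simp only [Set.mem_ofPred_eq, List.mem_map, List.mem_filter]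
  constructor
  · rintro ⟨e, ⟨w, ⟨hw, ha⟩, rfl⟩, -, rfl⟩
    obtain ⟨s', rfl, h2, h3⟩ := (S5_newS hL s w).1 hw
    exact ⟨s', h2, h3, (alwB_iff ℓ κ s').1 ha, dec_ctrB hr ℓ κ s s'⟩
  · rintro ⟨s', h2, h3, h4, rfl⟩
    exact ⟨ctrB N r ℓ κ s.1 s'.1, ⟨s'.1, ⟨(S5_newS hL s _).2 ⟨s', rfl, h2, h3⟩,
      (alwB_iff (K := K) ℓ κ s').2 h4⟩, rfl⟩, wf_ctrB _ _ _ _, dec_ctrB hr ℓ κ s s'⟩

theorem TS_optL (hr : 1 ≤ r) {LS : List Word} (hL : LSok N LS) (ℓ : List ℕ) (L : ℕ)
    (m : Stt N → ℕ ⊕ ℕ) (s : Stt N) :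
    TS N r (optL K N r LS ℓ s.1) = (rp (prob K N) L m (lf N ℓ)).opt s := by
  ext v
  unfold TS RP.opt optL
  simp only [Set.mem_ofPred_eq, List.mem_map]
  constructor
  · rintro ⟨e, ⟨w, hw, rfl⟩, -, rfl⟩
    obtain ⟨s', rfl, h2, h3⟩ := (S5_newS hL s w).1 hw
    exact ⟨s', ⟨h2, h3⟩, dec_ctrB hr ℓ 0 s s'⟩
  · rintro ⟨s', ⟨h2, h3⟩, rfl⟩
    exact ⟨ctrB N r ℓ 0 s.1 s'.1, ⟨s'.1, (S5_newS hL s _).2 ⟨s', rfl, h2, h3⟩, rfl⟩,
      wf_ctrB _ _ _ _, dec_ctrB hr ℓ 0 s s'⟩

private theorem S5_prof (hp : profB K N c = true) : (c.prof.map fun e => e.1).Nodup ∧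
    ∀ e ∈ c.prof, e.1.length = 6 * N ∧ e.2.2.1.length = c.K ∧ e.2.2.2 ≤ c.L := by
  unfold profB at hp
  rw [Bool.and_eq_true, decide_eq_true_eq, List.all_eq_true] at hp
  refine ⟨hp.1, fun e he => ?_⟩
  have h := hp.2 e he
  simp only [Bool.and_eq_true, decide_eq_true_eq] at h
  exact ⟨h.1.1.1.1, h.1.1.1.2, h.1.1.2⟩

private theorem S5_flatMap {α : Type} (l : List α) (f : α → List En) (v : Vc N) :
    v ∈ TS N r (l.flatMap f) ↔ ∃ x ∈ l, v ∈ TS N r (f x) := by
  unfold TS
  simp only [Set.mem_ofPred_eq, List.mem_flatMap]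
  constructor
  · rintro ⟨e, ⟨x, hx, he⟩, h⟩
    exact ⟨x, hx, e, he, h⟩
  · rintro ⟨x, hx, e, he, h⟩
    exact ⟨e, ⟨x, hx, he⟩, h⟩

private theorem S5_exists (hp : profB K N c = true) {s : Stt N} (hs : muS N c.prof s ≠ .inl 0) :
    ∃ e ∈ c.prof, e.1 = s.1 := (muOf_ne hp s.1).1 hs

/-- Proof: a generator `(s, s', κ)` has `lv s ≠ 0`, so `s` is an infinite state of the profile with
level `lv s ≥ κ`. -/
theorem gen_iff (hr : 1 ≤ r) (hp : profB K N c = true) (hL : LSok N c.LS) (ℓ : List ℕ) (v : Vc N) :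
    v ∈ TS N r (genL K N r c.LS ℓ c.prof) ↔
      ∃ γ, (rp (prob K N) c.L (muS N c.prof) (lf N ℓ)).gok γ ∧
        v = (rp (prob K N) c.L (muS N c.prof) (lf N ℓ)).gval γ := by
  unfold genL
  rw [S5_flatMap]
  constructor
  · rintro ⟨e, he, hv⟩
    rw [List.mem_filter] at he
    rw [S5_flatMap] at hv
    obtain ⟨κ, hκ, hv⟩ := hv
    rw [List.mem_range] at hκ
    obtain ⟨h1, -, h3⟩ := (S5_prof hp).2 e he.1
    obtain ⟨l1, -, l3⟩ := lv_mem hp he.1 (⟨e.1, h1⟩ : Stt N) rfl
    have h4 := TS_extL (K := K) hr hL ℓ κ (⟨e.1, h1⟩ : Stt N)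
    change TS N r (extL K N r c.LS ℓ κ e.1) = _ at h4
    rw [h4] at hv
    obtain ⟨s', m1, m2, m3, rfl⟩ := hv
    refine ⟨(⟨e.1, h1⟩, s', ⟨κ, by omega⟩), ⟨m1, m2, ?_, ?_, m3⟩, rfl⟩
    · rw [l1]
      exact l3.1 he.2
    · rw [l1]
      change κ ≤ _
      omega
  · rintro ⟨⟨s, s', κ⟩, ⟨m1, m2, m3, m4, m5⟩, rfl⟩
    have hs : muS N c.prof s ≠ .inl 0 := by
      intro h
      apply m3
      simp only [lv, h]
    obtain ⟨e, he, hes⟩ := S5_exists hp hs
    obtain ⟨l1, -, l3⟩ := lv_mem hp he s hes.symm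
    simp only at m1 m2 m3 m4 m5
    refine ⟨e, ?_, ?_⟩
    · rw [List.mem_filter]
      refine ⟨he, l3.2 ?_⟩
      rw [← l1]
      exact m3
    · rw [S5_flatMap]
      refine ⟨κ, ?_, ?_⟩
      · rw [List.mem_range]
        rw [l1] at m4
        omega
      · rw [hes, TS_extL (K := K) hr hL ℓ κ s]
        exact ⟨s', m1, m2, m5, rfl⟩

/-- the rounds of the profile -/
def rounds (N : ℕ) (c : Crt) : List (List (Stt N)) :=
  (List.range c.K).map fun i =>
    (finL N c.prof).filter fun t => (fp (muS N c.prof) t).testBit (c.K - 1 - i)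

private theorem S5_testBit (w : Word) (k : ℕ) : (bval w).testBit k = w.getD k false := by
  induction w generalizing k with
  | nil => simp [bval]
  | cons b l ih =>
    cases k with
    | zero =>
      rw [Nat.testBit_zero, bval]
      cases b
      · simp
      · simp only [if_true, List.getD_cons_zero, decide_eq_true_eq]
        omega
    | succ k =>
      rw [Nat.testBit_succ, bval, List.getD_cons_succ, ← ih]
      congr 1
      cases b
      · simp only [Bool.false_eq_true, if_false]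
        omega
      · simp only [if_true]
        omega

private theorem S5_toSt_cons (w : Word) (hw : w.length = 6 * N) (l : List Word) :
    toSt N (w :: l) = ⟨w, hw⟩ :: toSt N l := by
  unfold toSt
  rw [List.filterMap_cons, dif_pos hw]

private theorem S5_mapA {β : Type} (hp : profB K N c = true) (k : ℕ) (F : PE → β) (F' : Stt N → β)
    (hF : ∀ s : Stt N, ∀ e : PE, e.1 = s.1 → F e = F' s) (P : List PE) (hP : ∀ e ∈ P, e ∈ c.prof) :
    (P.filter fun e => !e.2.1 && e.2.2.1.getD k false).map F =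
      ((toSt N ((P.filter fun e => !e.2.1).map fun e => e.1)).filter
        fun t => (fp (muS N c.prof) t).testBit k).map F' := by
  induction P with
  | nil => rfl
  | cons e P ih =>
    have ih := ih (fun x hx => hP x (List.mem_cons_of_mem _ hx))
    have he := hP e List.mem_cons_self
    obtain ⟨h1, -, -⟩ := (S5_prof hp).2 e he
    obtain ⟨-, l2, -⟩ := lv_mem hp he (⟨e.1, h1⟩ : Stt N) rfl
    by_cases hb : e.2.1 = true
    · rw [List.filter_cons_of_neg (by simp [hb]), List.filter_cons_of_neg (by simp [hb])]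
      exact ih
    · rw [Bool.not_eq_true] at hb
      have h3 : (e :: P).filter (fun e => !e.2.1) = e :: P.filter (fun e => !e.2.1) :=
        List.filter_cons_of_pos (by simp [hb])
      rw [h3, List.map_cons, S5_toSt_cons e.1 h1]
      have h4 : (fp (muS N c.prof) (⟨e.1, h1⟩ : Stt N)).testBit k = e.2.2.1.getD k false := by
        rw [l2, hb, cond_false, S5_testBit]
      by_cases hd : e.2.2.1.getD k false = true
      · rw [List.filter_cons_of_pos (by simp only [hb, hd]; rfl),
          List.filter_cons_of_pos (by rw [h4]; exact hd), List.map_cons, List.map_cons, ih,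
          hF (⟨e.1, h1⟩ : Stt N) e rfl]
      · rw [List.filter_cons_of_neg (by simp only [hb]; simpa using hd),
          List.filter_cons_of_neg (by rw [h4]; exact hd), ih]

private theorem S5_mapB {β : Type} (hp : profB K N c = true) (F : PE → β) (F' : Stt N → β)
    (hF : ∀ s : Stt N, ∀ e ∈ c.prof, e.1 = s.1 → F e = F' s) (P : List PE)
    (hP : ∀ e ∈ P, e ∈ c.prof) :
    (P.filter fun e => e.2.1).map F = (toSt N ((P.filter fun e => e.2.1).map fun e => e.1)).map F' := by
  induction P with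
  | nil => rfl
  | cons e P ih =>
    have ih := ih (fun x hx => hP x (List.mem_cons_of_mem _ hx))
    have he := hP e List.mem_cons_self
    obtain ⟨h1, -, -⟩ := (S5_prof hp).2 e he
    by_cases hb : e.2.1 = true
    · have h3 : (e :: P).filter (fun e => e.2.1) = e :: P.filter (fun e => e.2.1) :=
        List.filter_cons_of_pos hb
      rw [h3, List.map_cons, List.map_cons, S5_toSt_cons e.1 h1, List.map_cons, ih,
        hF (⟨e.1, h1⟩ : Stt N) e he rfl]
    · have h3 : (e :: P).filter (fun e => e.2.1) = P.filter (fun e => e.2.1) :=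
        List.filter_cons_of_neg hb
      rw [h3]
      exact ih

/-- Proof: `flatMap` and `map`; the digit `k` of `bval w` is `w.getD k`; `toSt` of a filtered list. -/
theorem opL_eq (hr : 1 ≤ r) (hp : profB K N c = true) (hL : LSok N c.LS) (ℓ : List ℕ) :
    (opL K N r c ℓ).map (Option.map (TS N r)) =
      opsOf (rp (prob K N) c.L (muS N c.prof) (lf N ℓ)) (rounds N c) ++
        ((infL N c.prof).map fun s => extS K N (lf N ℓ) (lv (muS N c.prof) s) s).map some := by
  unfold opL opsOf rounds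
  rw [List.map_append]
  congr 1
  · rw [List.map_flatMap, List.flatMap_map]
    refine congrArg (fun g => List.flatMap g (List.range c.K)) ?_
    funext i
    rw [List.map_cons, List.map_map]
    refine congrArg (fun t => none :: t) ?_
    unfold finL
    refine S5_mapA hp (c.K - 1 - i) _ _ ?_ c.prof (fun e he => he)
    intro s e hes
    simp only [Function.comp_apply, Option.map_some]
    rw [hes, TS_optL hr hL ℓ c.L (muS N c.prof) s]
  · rw [List.map_map, List.map_map]
    unfold infL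
    refine S5_mapB hp _ _ ?_ c.prof (fun e he => he)
    intro s e he hes
    simp only [Function.comp_apply, Option.map_some]
    rw [hes, (lv_mem hp he s hes.symm).1, TS_extL (K := K) hr hL ℓ _ s]

private theorem S5_mem_toSt (l : List Word) (s : Stt N) : s ∈ toSt N l ↔ s.1 ∈ l := by
  unfold toSt
  rw [List.mem_filterMap]
  constructor
  · rintro ⟨w, hw, h⟩
    split_ifs at h with hl
    rw [Option.some.injEq] at h
    rw [← h]
    exact hw
  · intro h
    refine ⟨s.1, h, ?_⟩
    rw [dif_pos s.2]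
    rfl

private theorem S5_nodup_toSt {l : List Word} (h : l.Nodup) : (toSt N l).Nodup := by
  unfold toSt
  refine h.filterMap ?_
  intro a a' b hb hb'
  rw [Option.mem_def] at hb hb'
  split_ifs at hb with hl
  split_ifs at hb' with hl'
  rw [Option.some.injEq] at hb hb'
  rw [← hb'] at hb
  exact congrArg Subtype.val hb

private theorem S5_sub (hp : profB K N c = true) (p : PE → Bool) :
    ((c.prof.filter p).map fun e => e.1).Nodup :=
  (S5_prof hp).1.sublist ((List.filter_sublist (l := c.prof)).map _)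

private theorem S5_fp_zero {s : Stt N} (h : muS N c.prof s = .inl 0) :
    fp (muS N c.prof) s = 0 := by
  simp only [fp, h]

/-- Proof: `runM_bits`: `fp` is zero outside `finL`, and `bval w < 2 ^ w.length`. -/
theorem runM_rounds (hp : profB K N c = true) : runM (rounds N c) = fp (muS N c.prof) := by
  unfold rounds
  refine runM_bits (finL N c.prof) (S5_nodup_toSt (S5_sub hp _)) (fp (muS N c.prof)) c.K ?_ ?_
  · intro t
    by_cases ht : muS N c.prof t = .inl 0
    · rw [S5_fp_zero ht]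
      positivity
    · obtain ⟨e, he, hes⟩ := S5_exists hp ht
      rw [(lv_mem hp he t hes.symm).2.1]
      by_cases hb : e.2.1 = true
      · rw [hb, cond_true]
        positivity
      · rw [Bool.not_eq_true] at hb
        rw [hb, cond_false, ← ((S5_prof hp).2 e he).2.1]
        exact bval_lt _
  · intro t ht
    by_contra hne
    have h1 : muS N c.prof t ≠ .inl 0 := fun h => hne (S5_fp_zero h)
    obtain ⟨e, he, hes⟩ := S5_exists hp h1
    rw [(lv_mem hp he t hes.symm).2.1] at hne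
    by_cases hb : e.2.1 = true
    · rw [hb, cond_true] at hne
      exact hne rfl
    · apply ht
      unfold finL
      rw [S5_mem_toSt, List.mem_map]
      refine ⟨e, ?_, hes⟩
      rw [List.mem_filter]
      exact ⟨he, by simpa using hb⟩

theorem rounds_length (hp : profB K N c = true) :
    ∀ a ∈ rounds N c, a.length ≤ Fintype.card (Stt N) := by
  intro a ha
  unfold rounds at ha
  rw [List.mem_map] at ha
  obtain ⟨i, -, rfl⟩ := ha
  exact ((S5_nodup_toSt (S5_sub hp _)).filter _).length_le_card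

theorem infL_nodup (hp : profB K N c = true) : (infL N c.prof).Nodup ∧
    ∀ s, s ∈ infL N c.prof ↔ lv (muS N c.prof) s ≠ 0 := by
  refine ⟨S5_nodup_toSt (S5_sub hp _), fun s => ?_⟩
  unfold infL
  rw [S5_mem_toSt, List.mem_map]
  constructor
  · rintro ⟨e, he, hes⟩
    rw [List.mem_filter] at he
    obtain ⟨l1, -, l3⟩ := lv_mem hp he.1 s hes.symm
    rw [l1]
    exact l3.1 he.2
  · intro h
    have hs : muS N c.prof s ≠ .inl 0 := by
      intro h'
      apply h
      simp only [lv, h']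
    obtain ⟨e, he, hes⟩ := S5_exists hp hs
    obtain ⟨l1, -, l3⟩ := lv_mem hp he s hes.symm
    refine ⟨e, ?_, hes⟩
    rw [List.mem_filter]
    refine ⟨he, l3.2 ?_⟩
    rw [← l1]
    exact h

end Pool.Agent.Lib.MP_bb9e9d_lc
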