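import Pool.Agent.Lib.MP_bb9e9d_lc.Ver.C2
import Pool.Agent.Lib.MP_bb9e9d_lc.Ver.S1
import Pool.Agent.Lib.MP_bb9e9d_lc.Ver.S5

/-! # Certificates: the tables of a solution -/

namespace Pool.Agent.Lib.MP_bb9e9d_lc

open MP_634427_lc

variable {K : Inst} {N D L : ℕ} {m : Stt N → ℕ ⊕ ℕ}

private theorem C4_mem (ℓ : List ℕ) {i : ℕ}
    (hi : i ≤ (opL K N (rad0 N L) (preCrt N D L m) ℓ).length) (e : En) :
    e ∈ (mkTab K N D L m ℓ).getD i [] ↔ (Wf N e ∧ ∀ x ∈ e.1, x ≤ 2 * rad0 N L) ∧
      dec N (rad0 N L) e ∈ exact ((rp (prob K N) L m (lf N ℓ)).Reach 0)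
        (((opL K N (rad0 N L) (preCrt N D L m) ℓ).take i).map
          (Option.map (TS N (rad0 N L)))) := by
  classical
  unfold mkTab
  rw [List.getD_eq_getElem?_getD, List.getElem?_map, List.getElem?_range (by omega)]
  simp only [Option.map_some, Option.getD_some]
  rw [List.mem_filter, decide_eq_true_eq, mem_allE]

private theorem C4_bd {r : ℕ} {e : En} (h : ∀ x ∈ e.1, x ≤ 2 * r) : Bd r (dec N r e) := by
  intro P
  change |(e.1.getD (P : ℕ) 0 : ℤ) - r| ≤ r
  have h1 : e.1.getD (P : ℕ) 0 ≤ 2 * r := by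
    rcases Nat.lt_or_ge (P : ℕ) e.1.length with h2 | h2
    · rw [List.getD_eq_getElem _ _ h2]
      exact h _ (List.getElem_mem h2)
    · rw [List.getD_eq_default _ _ h2]
      omega
  rw [abs_le]
  constructor <;> omega

private theorem C4_addE {r : ℕ} {a b : En} (h : bdE N r a b = true) :
    ∀ x ∈ (addE N r a b).1, x ≤ 2 * r := by
  unfold bdE at h
  rw [List.all_eq_true] at h
  intro x hx
  unfold addE at hx
  rw [List.mem_map] at hx
  obtain ⟨P, hP, rfl⟩ := hx
  have h1 := h P hP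
  rw [Bool.and_eq_true, decide_eq_true_eq, decide_eq_true_eq] at h1
  omega

private theorem C4_ctrB {r : ℕ} (hr : 1 ≤ r) (ℓ : List ℕ) (κ : ℕ) (s s' : Word) :
    ∀ x ∈ (ctrB N r ℓ κ s s').1, x ≤ 2 * r := by
  intro x hx
  unfold ctrB at hx
  rw [List.mem_map] at hx
  obtain ⟨P, hP, rfl⟩ := hx
  have h1 : bn (gb s' N 3 P) ≤ 1 := by
    unfold bn
    cases gb s' N 3 P <;> simp
  cases (decide (ℓ.getD P 0 = 0) && decide (κ = 0))
  · rw [cond_false]
    omega
  · rw [cond_true]
    omega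

private theorem C4_wf {r : ℕ} {c : Crt} {ℓ : List ℕ} {A : List En}
    (h : some A ∈ opL K N r c ℓ) : ∀ b ∈ A, Wf N b := by
  unfold opL at h
  rw [List.mem_append, List.mem_flatMap, List.mem_map] at h
  rcases h with ⟨i, _, h⟩ | ⟨e, _, h⟩
  · rw [List.mem_cons] at h
    rcases h with h | h
    · cases h
    · rw [List.mem_map] at h
      obtain ⟨e, _, h⟩ := h
      rw [Option.some.injEq] at h
      subst h
      intro b hb
      unfold optL at hb
      rw [List.mem_map] at hb
      obtain ⟨w, _, rfl⟩ := hb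
      exact wf_ctrB _ _ _ _
  · rw [Option.some.injEq] at h
    subst h
    intro b hb
    unfold extL at hb
    rw [List.mem_map] at hb
    obtain ⟨w, _, rfl⟩ := hb
    exact wf_ctrB _ _ _ _

private theorem C4_rad (N L : ℕ) : 1 ≤ rad0 N L := by
  unfold rad0 rr
  omega

private theorem C4_ls (N : ℕ) : LSok N (allLS N) := lsB_iff (lsB_all N)

/-- The vectors of the tables.  Proof: `mem_allE`, `exists_dec`. -/
theorem TS_mkTab (ℓ : List ℕ) {i : ℕ}
    (hi : i ≤ (opL K N (rad0 N L) (preCrt N D L m) ℓ).length) :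
    TS N (rad0 N L) ((mkTab K N D L m ℓ).getD i []) =
      {v | v ∈ exact ((rp (prob K N) L m (lf N ℓ)).Reach 0)
        (((opL K N (rad0 N L) (preCrt N D L m) ℓ).take i).map (Option.map (TS N (rad0 N L)))) ∧
        Bd (rad0 N L) v} := by
  ext v
  unfold TS
  simp only [Set.mem_ofPred_eq]
  constructor
  · rintro ⟨e, he, hw, rfl⟩
    rw [C4_mem ℓ hi] at he
    exact ⟨he.2, C4_bd he.1.2⟩
  · rintro ⟨hv, hb⟩
    obtain ⟨e, hw, hx, rfl⟩ := exists_dec hb
    exact ⟨e, (C4_mem ℓ hi e).2 ⟨⟨hw, hx⟩, hv⟩, hw, rfl⟩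

/-- From closure for vectors to closure for entries.  Proof: all entries of the tables are
well-formed with coordinates at most `2 r` (`mem_allE`), as is `addE` of two entries with `bdE`; such
an entry is in the table iff its vector is in the set. -/
theorem stepB_mk (ℓ : List ℕ) {i : ℕ}
    (hi : i < (opL K N (rad0 N L) (preCrt N D L m) ℓ).length) :
    stepB N (rad0 N L) ((opL K N (rad0 N L) (preCrt N D L m) ℓ).getD i none)
      ((mkTab K N D L m ℓ).getD i []) ((mkTab K N D L m ℓ).getD (i + 1) []) = true := by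
  have hi' : i < ((opL K N (rad0 N L) (preCrt N D L m) ℓ).map
      (Option.map (TS N (rad0 N L)))).length := by
    rw [List.length_map]
    exact hi
  have hs := exact_step ((rp (prob K N) L m (lf N ℓ)).Reach 0)
    ((opL K N (rad0 N L) (preCrt N D L m) ℓ).map (Option.map (TS N (rad0 N L)))) (rad0 N L) hi'
  rw [← List.map_take, ← List.map_take, List.getElem_map] at hs
  have hg : (opL K N (rad0 N L) (preCrt N D L m) ℓ).getD i none =
      (opL K N (rad0 N L) (preCrt N D L m) ℓ)[i] := List.getD_eq_getElem _ _ hi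
  have hmem : (opL K N (rad0 N L) (preCrt N D L m) ℓ)[i] ∈
      opL K N (rad0 N L) (preCrt N D L m) ℓ := List.getElem_mem hi
  rw [hg]
  generalize (opL K N (rad0 N L) (preCrt N D L m) ℓ)[i] = op at hs hmem
  cases op with
  | none =>
    unfold stepB
    simp only [List.all_eq_true, Bool.or_eq_true, Bool.not_eq_true', decide_eq_true_eq]
    intro a ha b hb
    by_cases hbd : bdE N (rad0 N L) a b = true
    · right
      rw [C4_mem ℓ (le_of_lt hi)] at ha hb
      rw [C4_mem ℓ (Nat.succ_le_of_lt hi)]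
      refine ⟨⟨wf_addE a b, C4_addE hbd⟩, ?_⟩
      rw [dec_addE hbd]
      exact (hs _ ⟨ha.2, C4_bd ha.1.2⟩ _ ⟨hb.2, C4_bd hb.1.2⟩ ((bdE_iff a b).1 hbd)).1
    · left
      rw [Bool.not_eq_true] at hbd
      exact hbd
  | some A =>
    unfold stepB
    simp only [List.all_eq_true, Bool.or_eq_true, Bool.not_eq_true', decide_eq_true_eq]
    intro a ha b hb
    by_cases hbd : bdE N (rad0 N L) a b = true
    · right
      rw [C4_mem ℓ (le_of_lt hi)] at ha
      rw [C4_mem ℓ (Nat.succ_le_of_lt hi)]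
      refine ⟨⟨wf_addE a b, C4_addE hbd⟩, ?_⟩
      rw [dec_addE hbd]
      exact (hs _ ⟨ha.2, C4_bd ha.1.2⟩ _ ⟨b, hb, C4_wf hmem b hb, rfl⟩ ((bdE_iff a b).1 hbd)).1
    · left
      rw [Bool.not_eq_true] at hbd
      exact hbd

theorem baseB_mk (hD : ∀ s, fp m s < 2 ^ D) (hL : ∀ s, lv m s ≤ L)
    (hloc : ∀ s, m s ≠ .inl 0 → (prob K N).loc s) (ℓ : List ℕ) :
    baseB N (rad0 N L) (genL K N (rad0 N L) (allLS N) ℓ (mkProf N D m))
      ((mkTab K N D L m ℓ).getD 0 []) = true := by
  classical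
  have hp : profB K N (preCrt N D L m) = true := profB_mk hD hL hloc _ rfl rfl rfl
  have hmu : muS N (preCrt N D L m).prof = m := muS_mk hD
  have hgen := gen_iff (K := K) (c := preCrt N D L m) (C4_rad N L) hp (C4_ls N) ℓ
  rw [hmu] at hgen
  have hb := exact_base (rp (prob K N) L m (lf N ℓ)) (rp_small _ _ _ _) (C4_rad N L)
  unfold baseB
  simp only [Bool.and_eq_true, decide_eq_true_eq, List.all_eq_true, Bool.or_eq_true,
    Bool.not_eq_true']
  refine ⟨⟨?_, ?_⟩, ?_⟩
  · rw [C4_mem ℓ (Nat.zero_le _)]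
    refine ⟨⟨wf_zeroE, ?_⟩, ?_⟩
    · intro x hx
      unfold zeroE at hx
      rw [List.eq_of_mem_replicate hx]
      omega
    · rw [dec_zeroE]
      exact hb.zero.1
  · intro g hg
    rw [C4_mem ℓ (Nat.zero_le _)]
    have hg' := hg
    unfold genL at hg'
    simp only [List.mem_flatMap] at hg'
    obtain ⟨e, _, κ, _, hg'⟩ := hg'
    unfold extL at hg'
    rw [List.mem_map] at hg'
    obtain ⟨w, _, hw⟩ := hg'
    have hwf : Wf N g := by
      rw [← hw]
      exact wf_ctrB _ _ _ _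
    refine ⟨⟨hwf, ?_⟩, ?_⟩
    · rw [← hw]
      exact C4_ctrB (C4_rad N L) _ _ _ _
    · obtain ⟨γ, hγ, hv⟩ := (hgen (dec N (rad0 N L) g)).1 ⟨g, hg, hwf, rfl⟩
      rw [hv]
      exact (hb.gen γ hγ).1
  · intro a ha b hb'
    by_cases hbd : bdE N (rad0 N L) a b = true
    · right
      rw [C4_mem ℓ (Nat.zero_le _)] at ha hb' ⊢
      refine ⟨⟨wf_addE a b, C4_addE hbd⟩, ?_⟩
      rw [dec_addE hbd]
      exact (hb.add _ ⟨ha.2, C4_bd ha.1.2⟩ _ ⟨hb'.2, C4_bd hb'.1.2⟩ ((bdE_iff a b).1 hbd)).1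
    · left
      rw [Bool.not_eq_true] at hbd
      exact hbd

/-- The last table contains no good entry.  Proof: `opL_eq`, `exact_append`, `exact_extra`,
`exact_sub`, `runM_rounds`, `muS_mk`: a vector of the last table is `u + ∑ e s` with `u` reachable
and `e s` obligatory contributions of the states in `infL`; if it were good, `u` would be a goal
(the vector parts of the `e s` are zero). -/
theorem final_mk (hN : K.Below N) (hD : ∀ s, fp m s < 2 ^ D) (hL : ∀ s, lv m s ≤ L)
    (hloc : ∀ s, m s ≠ .inl 0 → (prob K N).loc s) (ℓ : List ℕ)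
    (h : ∀ u ∈ (rp (prob K N) L m (lf N ℓ)).Reach (fp m), u ∉ goal (prob K N) m (lf N ℓ)) :
    (((mkTab K N D L m ℓ).getD (opL K N (rad0 N L) (preCrt N D L m) ℓ).length []).all fun e =>
      !goodB K N (rad0 N L) ℓ e) = true := by
  classical
  have hp : profB K N (preCrt N D L m) = true := profB_mk hD hL hloc _ rfl rfl rfl
  have hmu : muS N (preCrt N D L m).prof = m := muS_mk hD
  have heq := opL_eq (K := K) (c := preCrt N D L m) (C4_rad N L) hp (C4_ls N) ℓ
  have hrun := runM_rounds (K := K) hp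
  obtain ⟨hnd, hmem⟩ := infL_nodup (K := K) hp
  rw [hmu] at heq hrun hmem
  rw [List.all_eq_true]
  intro x hx
  rw [Bool.not_eq_true']
  by_contra hgood
  rw [Bool.not_eq_false] at hgood
  rw [C4_mem ℓ le_rfl, List.take_length, heq, exact_append] at hx
  obtain ⟨⟨hwx, -⟩, hx⟩ := hx
  obtain ⟨u, hu, e, he, hw⟩ := exact_extra _ _ hx
  have hu' := exact_sub _ _ hu
  rw [hrun] at hu'
  obtain ⟨hz, hfin⟩ := (goodB_iff hN ℓ x).1 hgood
  -- the contributions of the infinite states
  have hlen : ((infL N (preCrt N D L m).prof).map fun s =>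
      extS K N (lf N ℓ) (lv m s) s).length = (infL N (preCrt N D L m).prof).length :=
    List.length_map _
  have he2 : ∀ s : Stt N, lv m s ≠ 0 →
      e ((infL N (preCrt N D L m).prof).idxOf s) ∈ extS K N (lf N ℓ) (lv m s) s := by
    intro s hs
    have h1 : (infL N (preCrt N D L m).prof).idxOf s < (infL N (preCrt N D L m).prof).length :=
      List.idxOf_lt_length_iff.2 ((hmem s).2 hs)
    have h2 := he _ (by rw [hlen]; exact h1)
    rw [List.getElem_map] at h2
    rw [List.getElem_idxOf h1] at h2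
    exact h2
  have hz2 : ∀ s : Stt N, lv m s ≠ 0 → ∀ v ∈ extS K N (lf N ℓ) (lv m s) s, v.1 = 0 := by
    rintro s hs v ⟨s', _, _, _, rfl⟩
    funext P
    change (if lf N ℓ P = 0 ∧ lv m s = 0 then _ else (0 : ℤ)) = 0
    rw [if_neg (fun hh => hs hh.2)]
  have hsum : ∑ i ∈ Finset.range ((infL N (preCrt N D L m).prof).map fun s =>
      extS K N (lf N ℓ) (lv m s) s).length, e i =
      ∑ s with lv m s ≠ 0, e ((infL N (preCrt N D L m).prof).idxOf s) := by
    rw [hlen]
    have h1 : (Finset.univ.filter fun s : Stt N => lv m s ≠ 0) =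
        (infL N (preCrt N D L m).prof).toFinset := by
      ext s
      simp [hmem s]
    rw [h1]
    refine (Finset.sum_nbij (fun s => (infL N (preCrt N D L m).prof).idxOf s) ?_ ?_ ?_ ?_).symm
    · intro s hs
      rw [List.mem_toFinset] at hs
      rw [Finset.mem_range]
      exact List.idxOf_lt_length_iff.2 hs
    · intro s hs t ht hst
      rw [Finset.mem_coe, List.mem_toFinset] at hs ht
      exact (List.idxOf_inj hs).1 hst
    · intro i hi
      rw [Finset.mem_coe, Finset.mem_range] at hi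
      refine ⟨(infL N (preCrt N D L m).prof)[i], ?_, ?_⟩
      · rw [Finset.mem_coe, List.mem_toFinset]
        exact List.getElem_mem hi
      · exact List.Nodup.idxOf_getElem hnd i hi
    · intro s _
      rfl
  rw [hsum] at hw
  refine h u hu' ⟨?_, fun s => e ((infL N (preCrt N D L m).prof).idxOf s), he2, ?_⟩
  · rw [hw, Prod.fst_add, Prod.fst_sum, Finset.sum_eq_zero, add_zero] at hz
    · exact hz
    · intro s hs
      have hs' := (Finset.mem_filter.1 hs).2
      exact hz2 s hs' _ (he2 s hs')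
  · rw [hw] at hfin
    exact hfin

theorem tabB_mk (hN : K.Below N) (hD : ∀ s, fp m s < 2 ^ D) (hL : ∀ s, lv m s ≤ L)
    (hloc : ∀ s, m s ≠ .inl 0 → (prob K N).loc s) (ℓ : List ℕ)
    (h : ∀ u ∈ (rp (prob K N) L m (lf N ℓ)).Reach (fp m), u ∉ goal (prob K N) m (lf N ℓ)) :
    tabB K N (mkCrt K N D L m) ℓ (mkTab K N D L m ℓ) = true := by
  unfold tabB
  rw [Bool.and_eq_true, Bool.and_eq_true]
  refine ⟨⟨baseB_mk hD hL hloc ℓ, ?_⟩, final_mk hN hD hL hloc ℓ h⟩
  rw [List.all_eq_true]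
  intro i hi
  rw [List.mem_range] at hi
  exact stepB_mk ℓ hi

end Pool.Agent.Lib.MP_bb9e9d_lc
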