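import Pool.Agent.Lib.MP_bb9e9d_lc.Ver.C3
import Pool.Agent.Lib.MP_bb9e9d_lc.Ver.C4

/-! # Certificates: completeness -/

namespace Pool.Agent.Lib.MP_bb9e9d_lc

open MP_634427_lc

variable {K : Inst} {N D L : ℕ} {m : Stt N → ℕ ⊕ ℕ}

/-- the names of the individuals are below `N` -/
theorem inds_lt (hN : K.Below N) : ∀ a ∈ K.inds, a < N := by
  intro a ha
  unfold Inst.inds at ha
  rcases List.mem_append.1 ha with h | h
  · obtain ⟨p, hp, rfl⟩ := List.mem_map.1 h
    exact (hN.cass p hp).2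
  · obtain ⟨p, hp, h1⟩ := List.mem_flatMap.1 h
    obtain ⟨-, h2, h3⟩ := hN.rass p hp
    rcases List.mem_cons.1 h1 with rfl | h4
    · exact h2
    · rw [List.mem_singleton] at h4
      rw [h4]
      exact h3

/-- Proof: `profB_mk`, `namB_mk`, `balB_mk`, `lsB_all`, `llB_all`, `tabB_mk`; the levels in `allLL` are at
most `L`, so `lf N ℓ` is given by a map `Fin N → Fin (L + 1)` (`Cert.none`). -/
theorem chk_of_cert {u : Bool} (hN : K.Below N) (h0 : 1 ≤ D) (hD : ∀ s, fp m s < 2 ^ D)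
    (h : Cert u (prob K N) L m) : chkB u K N (mkCrt K N D L m) = true := by
  have hloc := h.imu.loc
  have hany : ∀ j P, ((mkProf N D m).any fun e => gb e.1 N j P) = true ↔
      ∃ s : Stt N, m s ≠ .inl 0 ∧ gb s.1 N j P = true := by
    intro j P
    rw [List.any_eq_true]
    constructor
    · rintro ⟨e, he, hg⟩
      obtain ⟨s, hs, rfl⟩ := mem_mkProf.1 he
      exact ⟨s, hs, hg⟩
    · rintro ⟨s, hs, hg⟩
      exact ⟨mkPE D m s, mem_mkProf.2 ⟨s, hs, rfl⟩, hg⟩
  unfold chkB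
  simp only [Bool.and_eq_true]
  refine ⟨⟨⟨⟨⟨⟨⟨⟨?_, ?_⟩, ?_⟩, ?_⟩, ?_⟩, ?_⟩, ?_⟩, ?_⟩, ?_⟩
  · exact profB_mk hD h.lv hloc _ rfl rfl rfl
  · exact namB_mk hD h0 h.imu (inds_lt hN) _ rfl rfl
  · rw [List.all_eq_true]
    intro P hP
    exact balB_mk hD h.lv h.imu (List.mem_range.1 hP) _ rfl rfl rfl rfl
  · rw [List.all_eq_true]
    intro P hP
    have hP' := List.mem_range.1 hP
    rw [beq_iff_eq, Bool.eq_iff_iff]
    show ((mkProf N D m).any fun e => gb e.1 N 1 P) = true ↔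
      ((mkProf N D m).any fun e => gb e.1 N 2 P) = true
    rw [hany, hany]
    exact h.imu.ne ⟨P, hP'⟩
  · rw [List.any_eq_true]
    obtain ⟨s, hs, hc⟩ := h.c0
    exact ⟨mkPE D m s, mem_mkProf.2 ⟨s, hs, rfl⟩, hc⟩
  · cases u with
    | false => rfl
    | true =>
      obtain ⟨s, hs⟩ := h.inf rfl
      show ((mkProf N D m).any fun e => e.2.1) = true
      rw [List.any_eq_true]
      refine ⟨mkPE D m s, mem_mkProf.2 ⟨s, ?_, rfl⟩, ?_⟩
      · intro hm
        apply hs
        unfold lv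
        rw [hm]
      · show decide (lv m s ≠ 0) = true
        exact decide_eq_true hs
  · exact lsB_all N
  · exact llB_all N L
  · rw [List.all_eq_true]
    intro ℓ hℓ
    by_cases hlen : ℓ.length = N
    · rw [Bool.or_eq_true]
      right
      rw [List.any_eq_true]
      refine ⟨(ℓ, mkTab K N D L m ℓ), ?_, ?_⟩
      · exact List.mem_map.2 ⟨ℓ, List.mem_filter.2 ⟨hℓ, decide_eq_true hlen⟩, rfl⟩
      · rw [Bool.and_eq_true]
        refine ⟨decide_eq_true rfl, ?_⟩
        refine tabB_mk hN hD h.lv hloc ℓ fun u' hu' hg => ?_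
        have hle : ∀ P : ℕ, ℓ.getD P 0 < L + 1 := by
          intro P
          by_cases hP : P < ℓ.length
          · rw [List.getD_eq_getElem _ _ hP]
            have h1 := (mem_lsLe.1 (show ℓ ∈ lsLe (List.range (L + 1)) N from hℓ)).2 _
              (List.getElem_mem hP)
            exact List.mem_range.1 h1
          · rw [List.getD_eq_default _ _ (not_lt.1 hP)]
            exact Nat.succ_pos L
        exact h.none ⟨fun P => ⟨ℓ.getD P 0, hle P⟩, u', hu', hg⟩
    · rw [Bool.or_eq_true]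
      left
      rw [decide_eq_false hlen]
      rfl

/-- Proof: `card_Stt`; `(2 ^ A) ^ B * (2 * σ + 1) ^ N < 2 ^ (A * B + N * (6 N + 2) + 1)`. -/
theorem bnd_lt (N : ℕ) : bnd N (Stt N) < 2 ^ digs N := by
  have hFl : Fintype.card Fl = 2 := rfl
  have hF : Fintype.card (Fin 6 → Fin N → Fl) = 2 ^ (6 * N) := by
    rw [Fintype.card_fun, Fintype.card_fun, hFl, Fintype.card_fin, Fintype.card_fin, ← pow_mul,
      mul_comm]
  have hcst : cst (Stt N) (Stt N) (Stt N × Stt N × Fin (Fintype.card (Stt N) + 1)) 2 =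
      cst (Stt N) (Stt N) (Stt N × Stt N × Fin (2 ^ (6 * N) + 1)) 2 := by
    unfold cst
    rw [Fintype.card_prod, Fintype.card_prod, Fintype.card_prod, Fintype.card_prod,
      Fintype.card_fin, Fintype.card_fin, card_Stt]
  have hΛ : Fintype.card (Fin N → Fin (Fintype.card (Stt N) + 1)) = (2 ^ (6 * N) + 1) ^ N := by
    rw [Fintype.card_fun, Fintype.card_fin, Fintype.card_fin, card_Stt]
  unfold bnd bound digs
  rw [hcst, hF, hΛ, Fintype.card_fin, card_Stt, ← pow_mul]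
  have h1 : (2 * 2 ^ (6 * N) + 1) ^ N ≤ 2 ^ (N * (6 * N + 2)) := by
    rw [mul_comm N, pow_mul 2 (6 * N + 2) N]
    refine Nat.pow_le_pow_left ?_ _
    rw [pow_add]
    have := Nat.one_le_two_pow (n := 6 * N)
    omega
  refine (Nat.mul_le_mul_left _ h1).trans_lt ?_
  rw [← pow_add]
  exact Nat.pow_lt_pow_right (by norm_num) (Nat.lt_succ_self _)

/-- The abstract problem has a model iff there is a certificate.  Proof: `cert_of_hasModel`,
`small_cert`, `bnd_lt`, `chk_of_cert`. -/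
theorem exists_crt {u : Bool} (hN : K.Below N) (h : HasModel u (prob K N)) :
    ∃ m : Stt N → ℕ ⊕ ℕ, (∀ s, fp m s < 2 ^ digs N) ∧ (∀ s, lv m s ≤ 2 ^ (6 * N)) ∧
      chkB u K N (mkCrt K N (digs N) (2 ^ (6 * N)) m) = true := by
  obtain ⟨m, hm⟩ := cert_of_hasModel h
  obtain ⟨m', hm', hb⟩ := small_cert hm
  rw [card_Stt] at hm'
  have hD : ∀ s, fp m' s < 2 ^ digs N := fun s => (hb s).trans_lt (bnd_lt N)
  exact ⟨m', hD, hm'.lv, chk_of_cert hN (by unfold digs; omega) hD hm'⟩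

end Pool.Agent.Lib.MP_bb9e9d_lc
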