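import Pool.Agent.Lib.MP_bb9e9d_lc.Sem.Defs
import Pool.Agent.Lib.MP_bb9e9d_lc.Core.TableDefs

/-!
# The certificates and their verification

Vectors in the box of radius `r` are lists of `N` numbers, shifted by `r`; flags are words of length
`6 N` (six blocks).  A certificate lists the states of non-zero multiplicity (`prof`): a state `s`, a bit
(infinite?), the binary digits of the multiplicity (least significant bit first) and the level
(`k + 1` for `ℵ_k`, `0` if finite); the number `K` of digits; a bound `L` of the levels; the list `LS`
of all words of length at most `6 N`; the list `LL` of all lists of length at most `N` with entries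
at most `L`; the partial sums `wl` that show that the two sides have the same finite cardinality; and
for each `ℓ` in `LL` of length `N` the tables.
-/

namespace Pool.Agent.Lib.MP_bb9e9d_lc

open MP_634427_lc

/-- an entry of the table: a shifted vector and flags -/
abbrev En : Type := List ℕ × Word

/-- an entry of the profile: state, (infinite?, (digits, level)) -/
abbrev PE : Type := Word × Bool × Word × ℕ

/-- certificates -/
structure Crt : Type where
  /-- the states with their multiplicities -/
  prof : List PE
  /-- the number of digits -/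
  K : ℕ
  /-- bound of the levels -/
  L : ℕ
  /-- all words of length at most `6 N` -/
  LS : List Word
  /-- all lists of levels -/
  LL : List (List ℕ)
  /-- partial sums for the digits -/
  wl : List (List ℕ)
  /-- tables -/
  tabs : List (List ℕ × List (List En))

/-- the components as nested pairs -/
def Crt.tup (c : Crt) : List PE × ℕ × ℕ × List Word × List (List ℕ) × List (List ℕ) ×
    List (List ℕ × List (List En)) :=
  (c.prof, c.K, c.L, c.LS, c.LL, c.wl, c.tabs)

instance : Enc Crt := ⟨fun c => enc c.tup⟩

/-! ### Operations on entries -/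

/-- addition of entries -/
def addE (N r : ℕ) (a b : En) : En :=
  ((List.range N).map fun P => a.1.getD P 0 + b.1.getD P 0 - r,
    (List.range (6 * N)).map fun t => a.2.getD t false || b.2.getD t false)

/-- the sum is in the box -/
def bdE (N r : ℕ) (a b : En) : Bool :=
  (List.range N).all fun P => decide (r ≤ a.1.getD P 0 + b.1.getD P 0) &&
    decide (a.1.getD P 0 + b.1.getD P 0 ≤ 3 * r)

/-- the zero vector -/
def zeroE (N r : ℕ) : En := (List.replicate N r, List.replicate (6 * N) false)

/-- a bit as a number -/
def bn (b : Bool) : ℕ := bif b then 1 else 0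

/-- the contribution of a change from `s` to `s'` (`ctr`) -/
def ctrB (N r : ℕ) (ℓ : List ℕ) (κ : ℕ) (s s' : Word) : En :=
  ((List.range N).map fun P => bif decide (ℓ.getD P 0 = 0) && decide (κ = 0) then
      r + bn (gb s' N 3 P) - bn (gb s' N 4 P) else r,
    ((List.range N).map fun p => gb s' N 0 p && !gb s N 0 p) ++
    ((List.range N).map fun p => gb s N 0 p && !gb s' N 0 p) ++
    ((List.range N).map fun P => gb s' N 1 P) ++ ((List.range N).map fun P => gb s' N 2 P) ++
    ((List.range N).map fun P => gb s' N 3 P && (!decide (κ = 0) && decide (ℓ.getD P 0 = κ))) ++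
    (List.range N).map fun P => gb s' N 4 P && (!decide (κ = 0) && decide (ℓ.getD P 0 = κ)))

/-- `alw` -/
def alwB (N : ℕ) (ℓ : List ℕ) (κ : ℕ) (s' : Word) : Bool :=
  (List.range N).all fun P => !(gb s' N 3 P || gb s' N 4 P) || decide (κ ≤ ℓ.getD P 0)

/-- flag `j` at `P` -/
def flB (N : ℕ) (e : En) (j P : ℕ) : Bool := decide (P < N) && e.2.getD (j * N + P) false

/-- the vector is zero and the flags are final -/
def goodB (K : Inst) (N r : ℕ) (ℓ : List ℕ) (e : En) : Bool :=
  ((List.range N).all fun P => decide (e.1.getD P 0 = r)) &&
  prefB K (fun p => flB N e 0 p) (fun p => flB N e 1 p) &&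
  ((List.range N).all fun P => (flB N e 2 P == flB N e 3 P) &&
    (decide (ℓ.getD P 0 = 0) || (flB N e 4 P && flB N e 5 P)))

/-! ### Options, generators, obligatory contributions -/

/-- the possible new states of a state `s` -/
def newS (K : Inst) (N : ℕ) (LS : List Word) (s : Word) : List Word :=
  LS.filter fun s' => decide (s'.length = 6 * N) && mvB K N s s' && locB K N s'

/-- the contributions of one element with the state `s` -/
def optL (K : Inst) (N r : ℕ) (LS : List Word) (ℓ : List ℕ) (s : Word) : List En :=
  (newS K N LS s).map fun s' => ctrB N r ℓ 0 s s'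

/-- the contributions with the level `κ` -/
def extL (K : Inst) (N r : ℕ) (LS : List Word) (ℓ : List ℕ) (κ : ℕ) (s : Word) : List En :=
  ((newS K N LS s).filter fun s' => alwB N ℓ κ s').map fun s' => ctrB N r ℓ κ s s'

/-- the free generators -/
def genL (K : Inst) (N r : ℕ) (LS : List Word) (ℓ : List ℕ) (prof : List PE) : List En :=
  (prof.filter fun e => e.2.1).flatMap fun e => (List.range (e.2.2.2 + 1)).flatMap fun κ =>
    extL K N r LS ℓ κ e.1

/-- the operations: doubling (`none`) or addition of one of the listed vectors -/
def opL (K : Inst) (N r : ℕ) (c : Crt) (ℓ : List ℕ) : List (Option (List En)) :=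
  ((List.range c.K).flatMap fun i => none ::
    (c.prof.filter fun e => !e.2.1 && e.2.2.1.getD (c.K - 1 - i) false).map fun e =>
      some (optL K N r c.LS ℓ e.1)) ++
  (c.prof.filter fun e => e.2.1).map fun e => some (extL K N r c.LS ℓ e.2.2.2 e.1)

/-! ### Tables -/

/-- closure of the first table -/
def baseB (N r : ℕ) (gens : List En) (t : List En) : Bool :=
  decide (zeroE N r ∈ t) && (gens.all fun g => decide (g ∈ t)) &&
  t.all fun a => t.all fun b => !bdE N r a b || decide (addE N r a b ∈ t)

/-- closure under one operation -/
def stepB (N r : ℕ) (op : Option (List En)) (t t' : List En) : Bool :=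
  match op with
  | none => t.all fun a => t.all fun b => !bdE N r a b || decide (addE N r a b ∈ t')
  | some A => t.all fun a => A.all fun b => !bdE N r a b || decide (addE N r a b ∈ t')

/-- the radius, in terms of the number `σ` of words -/
def rr (σ L : ℕ) : ℕ :=
  2 * (σ * σ * (σ + 1) + σ * σ * (L + 1) + σ) +
    2 * (σ * σ * (L + 1) * (σ * σ * (L + 1) + 2)) + 1

/-- the tables for `ℓ` are correct and show that no preferred model exists for `ℓ` -/
def tabB (K : Inst) (N : ℕ) (c : Crt) (ℓ : List ℕ) (ts : List (List En)) : Bool :=
  baseB N (rr c.LS.length c.L) (genL K N (rr c.LS.length c.L) c.LS ℓ c.prof) (ts.getD 0 []) &&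
  ((List.range (opL K N (rr c.LS.length c.L) c ℓ).length).all fun i =>
    stepB N (rr c.LS.length c.L) ((opL K N (rr c.LS.length c.L) c ℓ).getD i none)
      (ts.getD i []) (ts.getD (i + 1) [])) &&
  (ts.getD (opL K N (rr c.LS.length c.L) c ℓ).length []).all fun e =>
    !goodB K N (rr c.LS.length c.L) ℓ e

/-! ### The profile -/

/-- the entries of the profile are well-formed, the states are different -/
def profB (K : Inst) (N : ℕ) (c : Crt) : Bool :=
  decide ((c.prof.map fun e => e.1).Nodup) &&
  c.prof.all fun e => decide (e.1.length = 6 * N) && decide (e.2.2.1.length = c.K) &&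
    decide (e.2.2.2 ≤ c.L) && locB K N e.1 &&
    bif e.2.1 then !decide (e.2.2.2 = 0) else (decide (e.2.2.2 = 0) && e.2.2.1.any fun b => b)

/-- the largest level among the states with a property -/
def topB (prof : List PE) (p : Word → Bool) : ℕ :=
  (prof.filter fun e => p e.1).foldr (fun e r => max e.2.2.2 r) 0

/-- each individual is the identity of exactly one element -/
def namB (K : Inst) (N : ℕ) (c : Crt) : Bool :=
  K.inds.all fun a => decide ((c.prof.filter fun e => gb e.1 N 5 a).length = 1) &&
    (c.prof.filter fun e => gb e.1 N 5 a).all fun e =>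
      !e.2.1 && decide (e.2.2.1 = true :: List.replicate (c.K - 1) false)

/-- the number of states with a property whose multiplicity has the digit `k` -/
def digB (prof : List PE) (p : Word → Bool) (k : ℕ) : ℕ :=
  (prof.filter fun e => !e.2.1 && p e.1 && e.2.2.1.getD k false).length

/-- the two sides for `P` have the same cardinality -/
def balB (N : ℕ) (c : Crt) (P : ℕ) : Bool :=
  decide (topB c.prof (fun s => gb s N 3 P) = topB c.prof (fun s => gb s N 4 P)) &&
  (!decide (topB c.prof (fun s => gb s N 3 P) = 0) ||
    (decide ((c.wl.getD c.K []).getD P 0 = c.prof.length) &&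
      decide ((c.wl.getD 0 []).getD P 0 = c.prof.length) &&
      (List.range c.K).all fun k => decide ((c.wl.getD k []).getD P 0 + c.prof.length +
        digB c.prof (fun s => gb s N 4 P) k =
          2 * (c.wl.getD (k + 1) []).getD P 0 + digB c.prof (fun s => gb s N 3 P) k)))

/-- `LS` contains all words of length at most `6 N` -/
def lsB (N : ℕ) (LS : List Word) : Bool :=
  decide ([] ∈ LS) && LS.all fun w => decide (6 * N ≤ w.length) ||
    (decide (w ++ [false] ∈ LS) && decide (w ++ [true] ∈ LS))

/-- `LL` contains all lists of length at most `N` with entries at most `L` -/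
def llB (N L : ℕ) (LL : List (List ℕ)) : Bool :=
  decide ([] ∈ LL) && LL.all fun w => decide (N ≤ w.length) ||
    (List.range (L + 1)).all fun v => decide (w ++ [v] ∈ LL)

/-- the whole verification -/
def chkB (u : Bool) (K : Inst) (N : ℕ) (c : Crt) : Bool :=
  profB K N c && namB K N c && ((List.range N).all fun P => balB N c P) &&
  ((List.range N).all fun P => (c.prof.any fun e => gb e.1 N 1 P) ==
    (c.prof.any fun e => gb e.1 N 2 P)) &&
  (c.prof.any fun e => evs N e.1 K.C0) && (!u || c.prof.any fun e => e.2.1) &&
  lsB N c.LS && llB N c.L c.LL &&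
  c.LL.all fun ℓ => !decide (ℓ.length = N) ||
    c.tabs.any fun t => decide (t.1 = ℓ) && tabB K N c ℓ t.2

/-- `Inst.Valid` -/
def validB (K : Inst) : Bool :=
  (K.prio.all fun p => decide (p.1 ∈ K.mins) && decide (p.2 ∈ K.mins)) &&
  (K.prio.all fun p => !decide (p.1 = p.2)) &&
  (K.prio.all fun p => K.prio.all fun q => !decide (p.2 = q.1) || decide ((p.1, q.2) ∈ K.prio)) &&
  K.mins.all fun A => !decide (A ∈ K.fixC)

end Pool.Agent.Lib.MP_bb9e9d_lc
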