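import Pool.Agent.Lib.MP_bb9e9d_lc.Ver.Q1

/-! # Parsing certificates -/

namespace Pool.Agent.Lib.MP_bb9e9d_lc

open MP_634427_lc MP_be4430_lc

variable {γ : Type} [Enc γ]

/-- read a word -/
def paW (T : BT) : Word := (toL T).map paB

/-- read a list of numbers -/
def paLN (T : BT) : List ℕ := (toL T).map spine

/-- read an entry of a table -/
def paE (T : BT) : En := (paLN T.left, paW T.right)

/-- read a certificate -/
def paC (T : BT) : Crt where
  prof := (toL T.left).map fun t =>
    (paW t.left, paB t.right.left, paW t.right.right.left, spine t.right.right.right)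
  K := spine T.right.left
  L := spine T.right.right.left
  LS := (toL T.right.right.right.left).map paW
  LL := (toL T.right.right.right.right.left).map paLN
  wl := (toL T.right.right.right.right.right.left).map paLN
  tabs := (toL T.right.right.right.right.right.right).map fun t =>
    (paLN t.left, (toL t.right).map fun s => (toL s).map paE)

private theorem Q2_map {α : Type} [Enc α] (f : BT → α) (hf : ∀ a, f (enc a) = a) (l : List α) :
    (toL (enc l)).map f = l := by
  induction l with
  | nil => rfl
  | cons a l ih =>
    rw [enc_cons]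
    show f (enc a) :: (toL (enc l)).map f = _
    rw [ih, hf]

private theorem Q2_num (n : ℕ) : spine (enc n) = n := spine_un n

private theorem Q2_bit (b : Bool) : paB (enc b) = b := by
  cases b <;> rfl

private theorem Q2_W (w : Word) : paW (enc w) = w := Q2_map paB Q2_bit w

private theorem Q2_LN (l : List ℕ) : paLN (enc l) = l := Q2_map spine Q2_num l

private theorem Q2_E (e : En) : paE (enc e) = e := by
  obtain ⟨a, b⟩ := e
  show (paLN (enc a), paW (enc b)) = _
  rw [Q2_LN, Q2_W]

theorem paC_enc (c : Crt) : paC (enc c) = c := by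
  obtain ⟨prof, K, L, LS, LL, wl, tabs⟩ := c
  show Crt.mk ((toL (enc prof)).map fun t =>
      (paW t.left, paB t.right.left, paW t.right.right.left, spine t.right.right.right))
    (spine (enc K)) (spine (enc L)) ((toL (enc LS)).map paW) ((toL (enc LL)).map paLN)
    ((toL (enc wl)).map paLN) ((toL (enc tabs)).map fun t =>
      (paLN t.left, (toL t.right).map fun s => (toL s).map paE)) = _
  rw [Q2_num, Q2_num, Q2_map paW Q2_W, Q2_map paLN Q2_LN, Q2_map paLN Q2_LN,
    Q2_map (fun t => (paW t.left, paB t.right.left, paW t.right.right.left,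
      spine t.right.right.right)),
    Q2_map (fun t => (paLN t.left, (toL t.right).map fun s => (toL s).map paE))]
  · rintro ⟨a, b⟩
    show (paLN (enc a), (toL (enc b)).map fun s => (toL s).map paE) = _
    rw [Q2_LN, Q2_map (fun s => (toL s).map paE)]
    exact Q2_map paE Q2_E
  · rintro ⟨a, b, c, d⟩
    show (paW (enc a), paB (enc b), paW (enc c), spine (enc d)) = _
    rw [Q2_W, Q2_bit, Q2_W, Q2_num]

private theorem Q2_ptB {t : γ → BT} (ht : PT t) : PT fun c => paB (t c) :=
  (PT.not (pt_eqBT ht (PT.const BT.nil))).of_eq fun c => by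
    unfold paB
    simp

private theorem Q2_ptW {t : γ → BT} (ht : PT t) : PT fun c => paW (t c) :=
  PT.map (f := fun (_ : γ) u => paB u) (pt_toL ht) (Q2_ptB PT.snd)

private theorem Q2_ptLN {t : γ → BT} (ht : PT t) : PT fun c => paLN (t c) :=
  PT.map (f := fun (_ : γ) u => spine u) (pt_toL ht) (pt_spine PT.snd)

private theorem Q2_ptE {t : γ → BT} (ht : PT t) : PT fun c => paE (t c) :=
  PT.pair (Q2_ptLN (pt_left ht)) (Q2_ptW (pt_right ht))

private theorem Q2_ptLE {t : γ → BT} (ht : PT t) : PT fun c => (toL (t c)).map paE :=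
  PT.map (f := fun (_ : γ) u => paE u) (pt_toL ht) (Q2_ptE PT.snd)

private theorem Q2_ptLLE {t : γ → BT} (ht : PT t) :
    PT fun c => (toL (t c)).map fun s => (toL s).map paE :=
  PT.map (f := fun (_ : γ) u => (toL u).map paE) (pt_toL ht) (Q2_ptLE PT.snd)

theorem pt_paC {t : γ → BT} (ht : PT t) : PT fun c => paC (t c) := by
  have h1 := pt_right ht
  have h2 := pt_right h1
  have h3 := pt_right h2
  have h4 := pt_right h3
  have h5 := pt_right h4
  have hp : PT fun c => (toL (t c).left).map fun t =>
      (paW t.left, paB t.right.left, paW t.right.right.left, spine t.right.right.right) :=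
    PT.map (f := fun (_ : γ) t =>
      (paW t.left, paB t.right.left, paW t.right.right.left, spine t.right.right.right))
      (pt_toL (pt_left ht)) (PT.pair (Q2_ptW (pt_left PT.snd))
        (PT.pair (Q2_ptB (pt_left (pt_right PT.snd)))
          (PT.pair (Q2_ptW (pt_left (pt_right (pt_right PT.snd))))
            (pt_spine (pt_right (pt_right (pt_right PT.snd)))))))
  have hLS : PT fun c => (toL (t c).right.right.right.left).map paW :=
    PT.map (f := fun (_ : γ) u => paW u) (pt_toL (pt_left h3)) (Q2_ptW PT.snd)
  have hLL : PT fun c => (toL (t c).right.right.right.right.left).map paLN :=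
    PT.map (f := fun (_ : γ) u => paLN u) (pt_toL (pt_left h4)) (Q2_ptLN PT.snd)
  have hwl : PT fun c => (toL (t c).right.right.right.right.right.left).map paLN :=
    PT.map (f := fun (_ : γ) u => paLN u) (pt_toL (pt_left h5)) (Q2_ptLN PT.snd)
  have ht' : PT fun c => (toL (t c).right.right.right.right.right.right).map fun t =>
      (paLN t.left, (toL t.right).map fun s => (toL s).map paE) :=
    PT.map (f := fun (_ : γ) t => (paLN t.left, (toL t.right).map fun s => (toL s).map paE))
      (pt_toL (pt_right h5)) (PT.pair (Q2_ptLN (pt_left PT.snd)) (Q2_ptLLE (pt_right PT.snd)))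
  have h : PT fun c => (paC (t c)).tup :=
    PT.pair hp (PT.pair (pt_spine (pt_left h1)) (PT.pair (pt_spine (pt_left h2))
      (PT.pair hLS (PT.pair hLL (PT.pair hwl ht')))))
  obtain ⟨F, hF, h'⟩ := h
  exact ⟨F, hF, fun c => h' c⟩

end Pool.Agent.Lib.MP_bb9e9d_lc
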