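import Pool.Agent.Lib.MP_bb9e9d_lc.Ver.S2

/-! # Certificates: the profile describes a model -/

namespace Pool.Agent.Lib.MP_bb9e9d_lc

open MP_634427_lc

variable {K : Inst} {N : ℕ} {c : Crt}

private lemma S3_prof (h : profB K N c = true) {e : PE} (he : e ∈ c.prof) :
    e.1.length = 6 * N ∧ locB K N e.1 = true ∧ (e.2.1 = false → e.2.2.2 = 0) := by
  unfold profB at h
  rw [Bool.and_eq_true] at h
  have h1 := (List.all_eq_true.1 h.2) e he
  simp only [Bool.and_eq_true, decide_eq_true_eq] at h1
  obtain ⟨⟨⟨⟨h2, h3⟩, h4⟩, h5⟩, h6⟩ := h1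
  refine ⟨h2, h5, fun h7 => ?_⟩
  rw [h7] at h6
  simp only [cond_false, Bool.and_eq_true, decide_eq_true_eq] at h6
  exact h6.1

private lemma S3_bval (n : ℕ) : bval (true :: List.replicate n false) = 1 := by
  have h : bval (List.replicate n false) = 0 := by
    induction n with
    | zero => rfl
    | succ n ih =>
      rw [List.replicate_succ, bval, ih]
      simp
  rw [bval, h]
  simp

private lemma S3_fp {m : ℕ ⊕ ℕ} (h : ¬ m ≠ .inl 0) {S : Type} (μ : S → ℕ ⊕ ℕ) (s : S) (hs : μ s = m) :
    fp μ s = 0 := by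
  have h' : m = .inl 0 := not_not.1 h
  unfold fp
  rw [hs, h']

/-- Proof: exactly one entry has the bit, and its multiplicity is `bval (true :: replicate _ false) = 1`. -/
theorem named_of (h : profB K N c = true) (hn : namB K N c = true) {a : ℕ} (ha : a ∈ K.inds) :
    topl (muS N c.prof) (fun s => gb s.1 N 5 a) = 0 ∧
      ∑ s : Stt N with gb s.1 N 5 a = true, fp (muS N c.prof) s = 1 := by
  classical
  unfold namB at hn
  have h1 := (List.all_eq_true.1 hn) a ha
  rw [Bool.and_eq_true, decide_eq_true_eq] at h1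
  obtain ⟨hlen, hall⟩ := h1
  have hall' : ∀ e ∈ c.prof, gb e.1 N 5 a = true → e.2.1 = false ∧
      e.2.2.1 = true :: List.replicate (c.K - 1) false := by
    intro e he hg
    have h2 := (List.all_eq_true.1 hall) e (List.mem_filter.2 ⟨he, hg⟩)
    simp only [Bool.and_eq_true, decide_eq_true_eq, Bool.not_eq_true'] at h2
    exact h2
  constructor
  · rw [← topB_eq h fun s => gb s N 5 a]
    unfold topB
    have h2 : ∀ l : List PE, (∀ e ∈ l, e.2.2.2 = 0) → l.foldr (fun e r => max e.2.2.2 r) 0 = 0 := by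
      intro l
      induction l with
      | nil => intro _; rfl
      | cons e l ih =>
        intro hl
        rw [List.foldr_cons, ih fun x hx => hl x (List.mem_cons_of_mem _ hx), hl e List.mem_cons_self]
        rfl
    refine h2 _ fun e he => ?_
    obtain ⟨he1, he2⟩ := List.mem_filter.1 he
    exact (S3_prof h he1).2.2 (hall' e he1 he2).1
  · obtain ⟨e0, he0⟩ := List.length_eq_one_iff.1 hlen
    have hmem : e0 ∈ c.prof.filter fun e => gb e.1 N 5 a := by
      rw [he0]
      exact List.mem_singleton_self _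
    obtain ⟨hm1, hm2⟩ := List.mem_filter.1 hmem
    have huniq : ∀ e ∈ c.prof, gb e.1 N 5 a = true → e = e0 := by
      intro e he hg
      have h2 : e ∈ c.prof.filter fun e => gb e.1 N 5 a := List.mem_filter.2 ⟨he, hg⟩
      rw [he0] at h2
      exact List.mem_singleton.1 h2
    have hl := (S3_prof h hm1).1
    let s0 : Stt N := ⟨e0.1, hl⟩
    have hs0 : s0 ∈ Finset.univ.filter fun s : Stt N => gb s.1 N 5 a = true :=
      Finset.mem_filter.2 ⟨Finset.mem_univ _, hm2⟩
    rw [Finset.sum_eq_single_of_mem s0 hs0]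
    · rw [(lv_mem h hm1 s0 rfl).2.1, (hall' e0 hm1 hm2).1, (hall' e0 hm1 hm2).2]
      exact S3_bval _
    · intro s hs hne
      refine S3_fp (m := muOf c.prof s.1) ?_ _ _ rfl
      rw [muOf_ne h]
      rintro ⟨e, he, hes⟩
      have hg : gb e.1 N 5 a = true := by
        rw [hes]
        exact (Finset.mem_filter.1 hs).2
      have h2 := huniq e he hg
      apply hne
      apply Subtype.ext
      show s.1 = e0.1
      rw [← h2, hes]

/-- Proof: `muOf_ne` (`loc` from `profB`), `named_of`, `topB_eq`, `bal_of`; every entry of the profile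
is a state since its length is `6 N`. -/
theorem imu_of (h : profB K N c = true) (hn : namB K N c = true)
    (hb : ∀ P < N, balB N c P = true)
    (he : ∀ P < N, (c.prof.any fun e => gb e.1 N 1 P) = c.prof.any fun e => gb e.1 N 2 P) :
    IMu (prob K N) (muS N c.prof) := by
  have hany : ∀ j P, (∃ s : Stt N, muS N c.prof s ≠ .inl 0 ∧ gb s.1 N j P = true) ↔
      (c.prof.any fun e => gb e.1 N j P) = true := by
    intro j P
    rw [List.any_eq_true]
    constructor
    · rintro ⟨s, hs, hg⟩
      obtain ⟨e, he, hes⟩ := (muOf_ne h s.1).1 hs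
      exact ⟨e, he, by rw [hes]; exact hg⟩
    · rintro ⟨e, he, hg⟩
      exact ⟨⟨e.1, (S3_prof h he).1⟩, (muOf_ne h e.1).2 ⟨e, he, rfl⟩, hg⟩
  refine ⟨?_, ?_, ?_, ?_, ?_⟩
  · intro s hs
    obtain ⟨e, he, hes⟩ := (muOf_ne h s.1).1 hs
    show locB K N s.1 = true
    rw [← hes]
    exact (S3_prof h he).2.1
  · intro a ha
    exact named_of h hn ha
  · intro P
    have h1 := hb P P.2
    unfold balB at h1
    rw [Bool.and_eq_true, decide_eq_true_eq, topB_eq h, topB_eq h] at h1
    exact h1.1
  · intro P h0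
    exact bal_of h (hb P P.2) h0
  · intro P
    show (∃ s : Stt N, muS N c.prof s ≠ .inl 0 ∧ gb s.1 N 1 P = true) ↔
      ∃ s : Stt N, muS N c.prof s ≠ .inl 0 ∧ gb s.1 N 2 P = true
    rw [hany, hany, he P P.2]

end Pool.Agent.Lib.MP_bb9e9d_lc
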