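import Pool.Agent.Lib.MP_bb9e9d_lc.Ver.S1
import Pool.Agent.Lib.MP_bb9e9d_lc.Ver.S3
import Pool.Agent.Lib.MP_bb9e9d_lc.Ver.S5
import Pool.Agent.Lib.MP_bb9e9d_lc.Abs.Main

/-! # Certificates: soundness -/

namespace Pool.Agent.Lib.MP_bb9e9d_lc

open MP_634427_lc

variable {K : Inst} {N r : ℕ} {c : Crt}

theorem base_of {L : ℕ} {m : Stt N → ℕ ⊕ ℕ} {ℓ : List ℕ} {gens t : List En}
    (hg : ∀ γ, (rp (prob K N) L m (lf N ℓ)).gok γ →
      (rp (prob K N) L m (lf N ℓ)).gval γ ∈ TS N r gens)
    (h : baseB N r gens t = true) : Base (rp (prob K N) L m (lf N ℓ)) r (TS N r t) := by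
  unfold baseB at h
  simp only [Bool.and_eq_true, decide_eq_true_eq, List.all_eq_true, Bool.or_eq_true,
    Bool.not_eq_true'] at h
  obtain ⟨⟨h0, hgs⟩, hadd⟩ := h
  refine ⟨⟨zeroE N r, h0, wf_zeroE, dec_zeroE⟩, ?_, ?_⟩
  · intro γ hγ
    obtain ⟨e, he, hw, hd⟩ := hg γ hγ
    exact ⟨e, hgs e he, hw, hd⟩
  · rintro u ⟨a, ha, hwa, rfl⟩ v ⟨b, hb, hwb, rfl⟩ hB
    have hbd := (bdE_iff a b).2 hB
    refine ⟨addE N r a b, ?_, wf_addE a b, dec_addE hbd⟩
    rcases hadd a ha b hb with h1 | h1
    · rw [hbd] at h1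
      cases h1
    · exact h1

theorem step_of {op : Option (List En)} {t t' : List En} (h : stepB N r op t t' = true) :
    Step r (op.map (TS N r)) (TS N r t) (TS N r t') := by
  cases op with
  | none =>
    simp only [stepB, decide_eq_true_eq, List.all_eq_true, Bool.or_eq_true,
      Bool.not_eq_true'] at h
    rintro u ⟨a, ha, hwa, rfl⟩ v ⟨b, hb, hwb, rfl⟩ hB
    have hbd := (bdE_iff a b).2 hB
    refine ⟨addE N r a b, ?_, wf_addE a b, dec_addE hbd⟩
    rcases h a ha b hb with h1 | h1
    · rw [hbd] at h1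
      cases h1
    · exact h1
  | some A =>
    simp only [stepB, decide_eq_true_eq, List.all_eq_true, Bool.or_eq_true,
      Bool.not_eq_true'] at h
    rintro u ⟨a, ha, hwa, rfl⟩ v ⟨b, hb, hwb, rfl⟩ hB
    have hbd := (bdE_iff a b).2 hB
    refine ⟨addE N r a b, ?_, wf_addE a b, dec_addE hbd⟩
    rcases h a ha b hb with h1 | h1
    · rw [hbd] at h1
      cases h1
    · exact h1

private theorem S6_sum {α M : Type*} [AddCommMonoid M] (l : List α) (e : α → M) :
    ∑ i ∈ Finset.range l.length, (if hi : i < l.length then e l[i] else 0) = (l.map e).sum := by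
  rw [Finset.sum_range, ← Fin.sum_univ_fun_getElem]
  refine Finset.sum_congr rfl fun i _ => ?_
  rw [dif_pos i.2]

/-- The tables show that no preferred model exists for `ℓ`.  Proof: `D i = TS (ts.getD i [])`,
`cov_run` for the first operations (`rad_le`, `rounds_length`, `opL_eq`), `runM_rounds`: a reachable
goal `u` (with `u.1 = 0`) is in `D` after the rounds (`Bd` of zero); then `cov_extra` for the
obligatory contributions `e s` of the states in `infL` (their vector part is zero: in `ctr` the level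
is not zero), so `u + ∑ e s` (the sum over `lv s ≠ 0` is the sum over the list `infL`) is in the last
table; it is good, contradiction with `goodB_iff`. -/
theorem none_of (hN : K.Below N) (hp : profB K N c = true) (hL : LSok N c.LS) {ℓ : List ℕ}
    {ts : List (List En)} (h : tabB K N c ℓ ts = true) :
    ∀ u ∈ (rp (prob K N) c.L (muS N c.prof) (lf N ℓ)).Reach (fp (muS N c.prof)),
      u ∉ goal (prob K N) (muS N c.prof) (lf N ℓ) := by
  classical
  rintro u hu ⟨hu1, e, he, hfin⟩
  obtain ⟨hrad, hr1⟩ := rad_le (L := c.L) hL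
  unfold tabB at h
  generalize hr : rr c.LS.length c.L = r at h hrad hr1
  simp only [Bool.and_eq_true, List.all_eq_true, List.mem_range, Bool.not_eq_true'] at h
  obtain ⟨⟨hbase, hstep⟩, hlast⟩ := h
  have heq := opL_eq hr1 hp hL ℓ
  -- the zero part of the obligatory contributions
  have hz : ∀ s : Stt N, lv (muS N c.prof) s ≠ 0 →
      ∀ v ∈ extS K N (lf N ℓ) (lv (muS N c.prof) s) s, v.1 = 0 := by
    rintro s hs v ⟨s', _, _, _, rfl⟩
    funext P
    change (if lf N ℓ P = 0 ∧ lv (muS N c.prof) s = 0 then _ else (0 : ℤ)) = 0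
    rw [if_neg (fun hh => hs hh.2)]
  have hlen : (opL K N r c ℓ).length =
      (opsOf (rp (prob K N) c.L (muS N c.prof) (lf N ℓ)) (rounds N c)).length +
        ((infL N c.prof).map fun s =>
          extS K N (lf N ℓ) (lv (muS N c.prof) s) s).length := by
    have h1 := congrArg List.length heq
    rw [List.length_map, List.length_append, List.length_map] at h1
    exact h1
  have hD : ∀ i (hi : i < ((opL K N r c ℓ).map (Option.map (TS N r))).length),
      Step r (((opL K N r c ℓ).map (Option.map (TS N r)))[i])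
        (TS N r (ts.getD i [])) (TS N r (ts.getD (i + 1) [])) := by
    intro i hi
    have hi' : i < (opL K N r c ℓ).length := by
      rw [List.length_map] at hi
      exact hi
    have h1 := step_of (hstep i hi')
    rw [List.getElem_map]
    rw [List.getD_eq_getElem _ _ hi'] at h1
    exact h1
  have hD1 : ∀ i (hi : i < (opsOf (rp (prob K N) c.L (muS N c.prof) (lf N ℓ))
      (rounds N c)).length),
      Step r ((opsOf (rp (prob K N) c.L (muS N c.prof) (lf N ℓ)) (rounds N c))[i])
        (TS N r (ts.getD i [])) (TS N r (ts.getD (i + 1) [])) := by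
    intro i hi
    have hi2 : i < ((opL K N r c ℓ).map (Option.map (TS N r))).length := by
      rw [List.length_map, hlen]
      omega
    have h1 := hD i hi2
    have h2 : ((opL K N r c ℓ).map (Option.map (TS N r)))[i] =
        (opsOf (rp (prob K N) c.L (muS N c.prof) (lf N ℓ)) (rounds N c))[i] := by
      rw [List.getElem_of_eq heq, List.getElem_append_left hi]
    rw [h2] at h1
    exact h1
  have hD2 : ∀ i (hi : i < ((infL N c.prof).map fun s =>
      extS K N (lf N ℓ) (lv (muS N c.prof) s) s).length),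
      Step r (some ((infL N c.prof).map fun s =>
        extS K N (lf N ℓ) (lv (muS N c.prof) s) s)[i])
        (TS N r (ts.getD ((opsOf (rp (prob K N) c.L (muS N c.prof) (lf N ℓ))
          (rounds N c)).length + i) []))
        (TS N r (ts.getD ((opsOf (rp (prob K N) c.L (muS N c.prof) (lf N ℓ))
          (rounds N c)).length + (i + 1)) [])) := by
    intro i hi
    have hi2 : (opsOf (rp (prob K N) c.L (muS N c.prof) (lf N ℓ)) (rounds N c)).length + i <
        ((opL K N r c ℓ).map (Option.map (TS N r))).length := by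
      rw [List.length_map, hlen]
      omega
    have h1 := hD _ hi2
    have h2 : ((opL K N r c ℓ).map (Option.map (TS N r)))[(opsOf (rp (prob K N) c.L
        (muS N c.prof) (lf N ℓ)) (rounds N c)).length + i] =
        some ((infL N c.prof).map fun s =>
          extS K N (lf N ℓ) (lv (muS N c.prof) s) s)[i] := by
      rw [List.getElem_of_eq heq, List.getElem_append_right (Nat.le_add_right _ _)]
      simp
    rw [h2] at h1
    exact h1
  -- the first table
  have hb : Base (rp (prob K N) c.L (muS N c.prof) (lf N ℓ)) r (TS N r (ts.getD 0 [])) :=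
    base_of (fun γ hγ => (gen_iff hr1 hp hL ℓ _).2 ⟨γ, hγ, rfl⟩) hbase
  have hcov := cov_run (rp (prob K N) c.L (muS N c.prof) (lf N ℓ)) (rp_small _ _ _ _) hrad
    (rounds N c) (rounds_length hp) (fun i => TS N r (ts.getD i [])) hb hD1
  rw [runM_rounds hp] at hcov
  have hbd : ∀ q : ℕ, Bd q u := by
    intro q i
    rw [hu1]
    simp
  have hu2 := hcov u hu (hbd _)
  -- the obligatory contributions
  obtain ⟨hnd, hmem⟩ := infL_nodup (N := N) hp
  obtain ⟨e', he'⟩ : ∃ e' : ℕ → Vc N, e' = fun i =>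
      if hi : i < (infL N c.prof).length then e ((infL N c.prof)[i]) else 0 := ⟨_, rfl⟩
  have hex := cov_extra (r := r) ((infL N c.prof).map fun s =>
      extS K N (lf N ℓ) (lv (muS N c.prof) s) s) (by
      intro S hS v hv
      obtain ⟨s, hs, rfl⟩ := List.mem_map.1 hS
      exact hz s ((hmem s).1 hs) v hv)
    (fun i => TS N r (ts.getD ((opsOf (rp (prob K N) c.L (muS N c.prof) (lf N ℓ))
          (rounds N c)).length + i) [])) hD2 (u := u) hu2 (hbd r) e' (by
      intro i hi
      have hi' : i < (infL N c.prof).length := by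
        rw [List.length_map] at hi
        exact hi
      rw [List.getElem_map, he']
      simp only [hi', dif_pos]
      have hs : lv (muS N c.prof) ((infL N c.prof)[i]) ≠ 0 :=
        (hmem _).1 (List.getElem_mem hi')
      exact he _ hs)
  have hsum : ∑ i ∈ Finset.range ((infL N c.prof).map fun s =>
      extS K N (lf N ℓ) (lv (muS N c.prof) s) s).length, e' i =
      ∑ s with lv (muS N c.prof) s ≠ 0, e s := by
    rw [List.length_map]
    have h1 : (Finset.univ.filter fun s : Stt N => lv (muS N c.prof) s ≠ 0) =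
        (infL N c.prof).toFinset := by
      ext s
      simp [hmem s]
    rw [h1, List.sum_toFinset _ hnd, he']
    exact S6_sum _ e
  rw [hsum, ← hlen] at hex
  obtain ⟨x, hx, hwx, hdx⟩ := hex
  have hg : goodB K N r ℓ x = true := by
    rw [goodB_iff hN, hdx]
    refine ⟨?_, hfin⟩
    rw [Prod.fst_add, hu1, zero_add, Prod.fst_sum]
    refine Finset.sum_eq_zero fun s hs => ?_
    have hs' := (Finset.mem_filter.1 hs).2
    exact hz s hs' _ (he s hs')
  rw [hlast x hx] at hg
  cases hg

/-- Proof: `imu_of`, `lv_le`, `none_of` for the list `List.ofFn ℓ` (`llB_mem`); `c0` and `inf` by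
`muOf_ne`, `lv_mem`. -/
theorem cert_of_chk {u : Bool} (hN : K.Below N) (h : chkB u K N c = true) :
    Cert u (prob K N) c.L (muS N c.prof) := by
  unfold chkB at h
  simp only [Bool.and_eq_true, List.all_eq_true, List.mem_range, Bool.or_eq_true,
    Bool.not_eq_true', decide_eq_true_eq, decide_eq_false_iff_not, List.any_eq_true,
    beq_iff_eq] at h
  obtain ⟨⟨⟨⟨⟨⟨⟨⟨hp, hn⟩, hb⟩, hoi⟩, hc0⟩, hinf⟩, hls⟩, hll⟩, htab⟩ := h
  have hlen : ∀ e ∈ c.prof, e.1.length = 6 * N := by
    intro e he
    have h1 := hp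
    unfold profB at h1
    simp only [Bool.and_eq_true, List.all_eq_true, decide_eq_true_eq] at h1
    exact (h1.2 e he).1.1.1.1
  refine ⟨lv_le hp, ?_, imu_of hp hn hb hoi, ?_, ?_⟩
  · intro hu
    rcases hinf with h1 | ⟨e, he, h1⟩
    · rw [hu] at h1
      cases h1
    · refine ⟨⟨e.1, hlen e he⟩, ?_⟩
      obtain ⟨h2, _, h3⟩ := lv_mem hp he ⟨e.1, hlen e he⟩ rfl
      rw [h2]
      exact h3.1 h1
  · obtain ⟨e, he, h1⟩ := hc0
    exact ⟨⟨e.1, hlen e he⟩, (muOf_ne hp e.1).2 ⟨e, he, rfl⟩, h1⟩
  · rintro ⟨ℓ, v, hv, hg⟩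
    have hlf : (fun P => (ℓ P : ℕ)) = lf N (List.ofFn fun P => (ℓ P : ℕ)) := by
      funext P
      unfold lf
      rw [List.getD_eq_getElem _ _ (by simp)]
      simp
    rw [hlf] at hv hg
    have hmem : (List.ofFn fun P => (ℓ P : ℕ)) ∈ c.LL := by
      refine llB_mem hll (by simp) ?_
      intro v hv
      obtain ⟨P, rfl⟩ := List.mem_ofFn.1 hv
      exact Nat.lt_succ_iff.1 (ℓ P).2
    rcases htab _ hmem with h1 | ⟨t, _, h1, h2⟩
    · exact h1 (by simp)
    · exact none_of hN hp (lsB_iff hls) h2 v hv hg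

end Pool.Agent.Lib.MP_bb9e9d_lc
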