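import Pool.Agent.Lib.MP_bb9e9d_lc.Ver.P7
import Pool.Agent.Lib.MP_bb9e9d_lc.Ver.Q2
import Pool.Agent.Lib.MP_bb9e9d_lc.Ver.S6
import Pool.Agent.Lib.MP_bb9e9d_lc.Ver.C5
import Pool.Agent.Lib.MP_bb9e9d_lc.Ver.B4
import Pool.Agent.Lib.MP_bb9e9d_lc.Sem.Main

/-! # SAT is in NEXP -/

namespace Pool.Agent.Lib.MP_bb9e9d_lc

open MP_634427_lc MP_be4430_lc

private lemma vm_con (C : Con) (n : ℕ) (h : sz C ≤ n) : C.Below n := by
  induction C with
  | top => trivial
  | bot => trivial
  | name A =>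
    have h1 : sz (Con.name A) = sz (2 : ℕ) + sz A + 1 := rfl
    rw [sz_nat, sz_nat] at h1
    show A < n
    omega
  | ex R =>
    have h1 : sz (Con.ex R) = sz (3 : ℕ) + (sz R.1 + sz R.2 + 1) + 1 := rfl
    rw [sz_nat, sz_nat] at h1
    show R.2 < n
    omega
  | neg C ih =>
    have h1 : sz (Con.neg C) = sz (4 : ℕ) + sz C + 1 := rfl
    exact ih (by omega)
  | inter C D ihC ihD =>
    have h1 : sz (Con.inter C D) = sz (5 : ℕ) + (sz C + sz D + 1) + 1 := rfl
    exact ⟨ihC (by omega), ihD (by omega)⟩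

/-- Proof: all names occur in unary in the encoding; induction for concepts. -/
theorem below_sz (K : Inst) : K.Below (sz K) := by
  have h0 : sz K = sz K.C0 + (sz K.cis + (sz K.funcs + (sz K.cass + (sz K.rass + (sz K.mins +
      (sz K.prio + (sz K.fixC + sz K.fixR + 1) + 1) + 1) + 1) + 1) + 1) + 1) + 1 := rfl
  constructor
  · exact vm_con _ _ (by omega)
  · intro p hp
    have h1 := sz_mem_le hp
    rw [sz_prod] at h1
    exact ⟨vm_con _ _ (by omega), vm_con _ _ (by omega)⟩
  · intro p hp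
    have h1 := sz_mem_le hp
    rw [sz_prod, sz_nat] at h1
    omega
  · intro p hp
    have h1 := sz_mem_le hp
    rw [sz_prod, sz_nat, sz_nat] at h1
    omega
  · intro p hp
    have h1 := sz_mem_le hp
    rw [sz_prod, sz_prod p.2, sz_nat, sz_nat, sz_nat] at h1
    omega
  · intro p hp
    have h1 := sz_mem_le hp
    rw [sz_nat] at h1
    omega
  · intro p hp
    have h1 := sz_mem_le hp
    rw [sz_prod, sz_nat, sz_nat] at h1
    omega
  · intro p hp
    have h1 := sz_mem_le hp
    rw [sz_nat] at h1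
    omega
  · intro p hp
    have h1 := sz_mem_le hp
    rw [sz_nat] at h1
    omega

/-- the verifier -/
def verif (u : Bool) (p : Word × Word) : Bool :=
  decide (code (enc (paI (decode p.1))) = p.1) && validB (paI (decode p.1)) &&
    aboxB (paI (decode p.1)) &&
    chkB u (paI (decode p.1)) (sz (paI (decode p.1))) (paC (decode p.2))

private lemma vm_enc {γ α : Type} [Enc γ] [Enc α] {f : γ → α} (hf : PT f) :
    PT fun c => (enc (f c) : BT) := by
  obtain ⟨F, hF, h⟩ := hf
  exact ⟨F, hF, h⟩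

theorem pt_verif (u : Bool) : PT (verif u) := by
  have hK : PT fun p : Word × Word => paI (decode p.1) := pt_paI (PT.decode PT.fst)
  have hC : PT fun p : Word × Word => paC (decode p.2) := pt_paC (PT.decode PT.snd)
  exact PT.and (PT.and (PT.and (PT.eqWord (PT.code (vm_enc hK)) PT.fst) (pt_validB hK))
    (pt_aboxB hK)) (pt_chkB u hK (PT.size hK) hC)

private lemma vm_imu {u : Bool} {K : Inst} {N D L : ℕ} {m : Stt N → ℕ ⊕ ℕ} (hB : K.Below N)
    (h1 : ∀ s, fp m s < 2 ^ D) (h3 : chkB u K N (mkCrt K N D L m) = true) :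
    IMu (prob K N) m := by
  have h4 := (cert_of_chk hB h3).imu
  have h5 : (mkCrt K N D L m).prof = mkProf N D m := by
    unfold mkCrt
    rfl
  rw [h5, muS_mk h1] at h4
  exact h4

private lemma vm_exists : ∃ F, E2 F ∧ ∀ (u : Bool) (K : Inst) (N : ℕ), K.Below N →
    HasModel u (prob K N) → ∃ c : Crt, sz c ≤ F N ∧ chkB u K N c = true := by
  obtain ⟨F, hF, hsz⟩ := e2_sz_mkCrt
  refine ⟨F, hF, fun u K N hB hm => ?_⟩
  obtain ⟨m, h1, h2, h3⟩ := exists_crt hB hm
  exact ⟨_, hsz K N m (vm_imu hB h1 h3) h1 h2, h3⟩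

/-- Proof: `→`: `sat_iff` with `N = sz K` (`below_sz`), `exists_crt`; the witness is `code (enc c)`,
whose length is `2 * sz c + 1`, bounded by `e2_sz_mkCrt` and `E2.final` (`x.length = 2 * sz K + 1`).
`IMu` for `e2_sz_mkCrt` follows from `cert_of_chk`-like facts or strengthen the use of `exists_crt`:
`chkB .. = true` gives `Cert .. (muS N c.prof)` and `muS_mk`.  `←`: `cert_of_chk`,
`hasModel_of_cert`, `sat_iff`. -/
theorem sat_mem (u : Bool) : InNEXP (SAT u) := by
  obtain ⟨F, hF, hsz⟩ := vm_exists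
  obtain ⟨e, he⟩ := hF.final
  refine ⟨verif u, e, pt_verif u, fun x => ?_⟩
  constructor
  · rintro ⟨K, hx, hV, hM⟩
    have hB := below_sz K
    obtain ⟨hab, hm⟩ := (sat_iff hB u).1 hM
    obtain ⟨c, h6, h3⟩ := hsz u K (sz K) hB hm
    refine ⟨code (enc c), ?_, ?_⟩
    · rw [length_code]
      have h7 : x.length = 2 * sz K + 1 := by
        rw [hx, length_code]
        rfl
      have h8 := he (sz K) x.length (by omega)
      have h9 : (enc c).size = sz c := rfl
      rw [h9]
      omega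
    · unfold verif
      simp only [hx, decode_code, paI_enc, paC_enc]
      rw [(validB_iff K).2 hV, hab, h3]
      simp
  · rintro ⟨w, -, hw⟩
    unfold verif at hw
    simp only [Bool.and_eq_true, decide_eq_true_eq] at hw
    obtain ⟨⟨⟨h1, h2⟩, h3⟩, h4⟩ := hw
    have hB := below_sz (paI (decode x))
    exact ⟨paI (decode x), h1.symm, (validB_iff _).1 h2,
      (sat_iff hB u).2 ⟨h3, hasModel_of_cert (cert_of_chk hB h4)⟩⟩

end Pool.Agent.Lib.MP_bb9e9d_lc
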