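import Pool.Agent.Lib.MP_bb9e9d_lc.Ver.Defs
import Pool.Agent.Lib.MP_be4430_lc.P2_Lists

/-! # Polynomial time: components of inputs and certificates -/

namespace Pool.Agent.Lib.MP_bb9e9d_lc

open MP_634427_lc

variable {γ : Type} [Enc γ]

/-- Proof: the encoding of `K` is that of `K.tup`. -/
theorem pt_tup {f : γ → Inst} (hf : PT f) : PT fun c => (f c).tup := by
  obtain ⟨F, hF, h⟩ := hf
  exact ⟨F, hF, fun c => h c⟩

theorem pt_C0 {f : γ → Inst} (hf : PT f) : PT fun c => (f c).C0 := by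
  exact PT.fst' (pt_tup hf)

theorem pt_cis {f : γ → Inst} (hf : PT f) : PT fun c => (f c).cis := by
  exact PT.fst' (PT.snd' (pt_tup hf))

theorem pt_funcs {f : γ → Inst} (hf : PT f) : PT fun c => (f c).funcs := by
  exact PT.fst' (PT.snd' (PT.snd' (pt_tup hf)))

theorem pt_cass {f : γ → Inst} (hf : PT f) : PT fun c => (f c).cass := by
  exact PT.fst' (PT.snd' (PT.snd' (PT.snd' (pt_tup hf))))

theorem pt_rass {f : γ → Inst} (hf : PT f) : PT fun c => (f c).rass := by
  exact PT.fst' (PT.snd' (PT.snd' (PT.snd' (PT.snd' (pt_tup hf)))))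

theorem pt_mins {f : γ → Inst} (hf : PT f) : PT fun c => (f c).mins := by
  exact PT.fst' (PT.snd' (PT.snd' (PT.snd' (PT.snd' (PT.snd' (pt_tup hf))))))

theorem pt_prio {f : γ → Inst} (hf : PT f) : PT fun c => (f c).prio := by
  exact PT.fst' (PT.snd' (PT.snd' (PT.snd' (PT.snd' (PT.snd' (PT.snd' (pt_tup hf)))))))

theorem pt_fixC {f : γ → Inst} (hf : PT f) : PT fun c => (f c).fixC := by
  exact PT.fst' (PT.snd' (PT.snd' (PT.snd' (PT.snd' (PT.snd' (PT.snd' (PT.snd' (pt_tup hf))))))))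

theorem pt_fixR {f : γ → Inst} (hf : PT f) : PT fun c => (f c).fixR := by
  exact PT.snd' (PT.snd' (PT.snd' (PT.snd' (PT.snd' (PT.snd' (PT.snd' (PT.snd' (pt_tup hf))))))))

theorem pt_inds {f : γ → Inst} (hf : PT f) : PT fun c => (f c).inds := by
  have h1 := PT.map (f := fun (_ : γ) (p : ℕ × ℕ) => p.2) (pt_cass hf) (PT.snd' PT.snd)
  have h2 := PT.flatMap (f := fun (_ : γ) (p : ℕ × ℕ × ℕ) => [p.2.1, p.2.2]) (pt_rass hf)
    (PT.cons (PT.fst' (PT.snd' PT.snd)) (PT.cons (PT.snd' (PT.snd' PT.snd)) (PT.const [])))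
  exact PT.append h1 h2

theorem pt_ctup {f : γ → Crt} (hf : PT f) : PT fun c => (f c).tup := by
  obtain ⟨F, hF, h⟩ := hf
  exact ⟨F, hF, fun c => h c⟩

theorem pt_prof {f : γ → Crt} (hf : PT f) : PT fun c => (f c).prof := by
  exact PT.fst' (pt_ctup hf)

theorem pt_K {f : γ → Crt} (hf : PT f) : PT fun c => (f c).K := by
  exact PT.fst' (PT.snd' (pt_ctup hf))

theorem pt_L {f : γ → Crt} (hf : PT f) : PT fun c => (f c).L := by
  exact PT.fst' (PT.snd' (PT.snd' (pt_ctup hf)))

theorem pt_LS {f : γ → Crt} (hf : PT f) : PT fun c => (f c).LS := by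
  exact PT.fst' (PT.snd' (PT.snd' (PT.snd' (pt_ctup hf))))

theorem pt_LL {f : γ → Crt} (hf : PT f) : PT fun c => (f c).LL := by
  exact PT.fst' (PT.snd' (PT.snd' (PT.snd' (PT.snd' (pt_ctup hf)))))

theorem pt_wl {f : γ → Crt} (hf : PT f) : PT fun c => (f c).wl := by
  exact PT.fst' (PT.snd' (PT.snd' (PT.snd' (PT.snd' (PT.snd' (pt_ctup hf))))))

theorem pt_tabs {f : γ → Crt} (hf : PT f) : PT fun c => (f c).tabs := by
  exact PT.snd' (PT.snd' (PT.snd' (PT.snd' (PT.snd' (PT.snd' (pt_ctup hf))))))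

/-- injectivity of the encodings that are compared -/
theorem inj_En : Function.Injective (enc : En → BT) := by
  exact MP_be4430_lc.enc_pair_injective (enc_list_injective MP_be4430_lc.enc_nat_injective)
    enc_word_injective

theorem inj_Rl : Function.Injective (enc : Rl → BT) := by
  exact MP_be4430_lc.enc_pair_injective enc_bool_injective MP_be4430_lc.enc_nat_injective

theorem inj_NN : Function.Injective (enc : ℕ × ℕ → BT) := by
  exact MP_be4430_lc.enc_pair_injective MP_be4430_lc.enc_nat_injective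
    MP_be4430_lc.enc_nat_injective

theorem inj_LN : Function.Injective (enc : List ℕ → BT) := by
  exact enc_list_injective MP_be4430_lc.enc_nat_injective

/-- Proof: `l.Nodup ↔ l.dedup = l`, `pt_dedup`. -/
theorem pt_nodup {l : γ → List Word} (hl : PT l) : PT fun c => decide (l c).Nodup := by
  have h := PT.eqDec (enc_list_injective enc_word_injective)
    (MP_be4430_lc.pt_dedup enc_word_injective hl) hl
  refine h.of_eq fun c => ?_
  rw [Bool.eq_iff_iff]
  simp only [decide_eq_true_eq]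
  exact List.dedup_eq_self

end Pool.Agent.Lib.MP_bb9e9d_lc
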