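import Pool.Agent.Lib.MP_bb9e9d_lc.Ver.P1
import Pool.Agent.Lib.MP_be4430_lc.P1_TreeRec

/-! # Polynomial time: evaluation of concepts at states -/

namespace Pool.Agent.Lib.MP_bb9e9d_lc

open MP_634427_lc MP_be4430_lc

variable {γ : Type} [Enc γ]

theorem pt_gb {w : γ → Word} {N j i : γ → ℕ} (hw : PT w) (hN : PT N) (hj : PT j) (hi : PT i) :
    PT fun c => gb (w c) (N c) (j c) (i c) := by
  exact PT.and (PT.lt hi hN) (PT.getLD (PT.add (PT.mul hj hN) hi) hw (PT.const false))

/-- the value of a node with the tag `tg` and the payload `pl`; `rp, rs, rt` are the values of the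
payload and of its left and right subtree -/
def evStep (N : ℕ) (w : Word) (tg pl : BT) (rp rs rt : Bool) : Bool :=
  decide (tg = un 0) || (decide (tg = un 2) && gb w N 0 (spine pl)) ||
    (decide (tg = un 3) && gb w N (bif decide (pl.left = .nil) then 1 else 2) (spine pl.right)) ||
    (decide (tg = un 4) && !rp) || (decide (tg = un 5) && rs && rt)

/-- the values of a tree and of its left and right subtree -/
def evT (N : ℕ) (w : Word) (T : BT) : Bool × Bool × Bool :=
  trec (false, false, false)
    (fun a b ra rb => (evStep N w a b rb.1 rb.2.1 rb.2.2, ra.1, rb.1)) T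

private lemma p2_un (m n : ℕ) : decide (un m = un n) = decide (m = n) := by
  by_cases h : m = n
  · rw [h]
    simp
  · have h1 : un m ≠ un n := fun h2 => h (enc_nat_injective h2)
    rw [decide_eq_false h1, decide_eq_false h]

private lemma p2_node (N : ℕ) (w : Word) (a b : BT) :
    (evT N w (.node a b)).1 =
      evStep N w a b (evT N w b).1 (evT N w b).2.1 (evT N w b).2.2 := rfl

/-- Proof: induction on `C`; the second and third component are the values of the subtrees. -/
theorem evT_enc (N : ℕ) (w : Word) (C : Con) : (evT N w (enc C)).1 = evs N w C := by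
  induction C with
  | top =>
    change (evT N w (.node (un 0) .nil)).1 = true
    rw [p2_node, evStep]
    simp
  | bot =>
    change (evT N w (.node (un 1) .nil)).1 = false
    rw [p2_node, evStep]
    simp only [p2_un]
    simp
  | name A =>
    change (evT N w (.node (un 2) (un A))).1 = gb w N 0 A
    rw [p2_node, evStep]
    simp only [p2_un, spine_un]
    simp
  | ex R =>
    obtain ⟨b, P⟩ := R
    change (evT N w (.node (un 3) (.node (enc b) (un P)))).1 = gb w N (bif b then 2 else 1) P
    rw [p2_node, evStep]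
    simp only [p2_un, BT.left_node, BT.right_node, spine_un]
    cases b
    · simp
    · simp
  | neg C ih =>
    change (evT N w (.node (un 4) (enc C))).1 = !evs N w C
    rw [p2_node, evStep, ih]
    simp only [p2_un]
    simp
  | inter C D ihC ihD =>
    change (evT N w (.node (un 5) (.node (enc C) (enc D)))).1 = (evs N w C && evs N w D)
    rw [p2_node, evStep]
    have h1 : (evT N w (.node (enc C) (enc D))).2.1 = (evT N w (enc C)).1 := rfl
    have h2 : (evT N w (.node (enc C) (enc D))).2.2 = (evT N w (enc D)).1 := rfl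
    rw [h1, h2, ihC, ihD]
    simp only [p2_un]
    simp

/-- Proof: `pt_treeRec`, `evT_enc`. -/
theorem pt_evs {N : γ → ℕ} {w : γ → Word} {C : γ → Con} (hN : PT N) (hw : PT w) (hC : PT C) :
    PT fun c => evs (N c) (w c) (C c) := by
  have hT : PT fun c => (enc (C c) : BT) := hC
  have hf : PT fun p : γ × BT × BT × (Bool × Bool × Bool) × (Bool × Bool × Bool) =>
      ((evStep (N p.1) (w p.1) p.2.1 p.2.2.1 p.2.2.2.2.1 p.2.2.2.2.2.1 p.2.2.2.2.2.2,
        p.2.2.2.1.1, p.2.2.2.2.1) : Bool × Bool × Bool) := by
    have hN' : PT fun p : γ × BT × BT × (Bool × Bool × Bool) × (Bool × Bool × Bool) => N p.1 :=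
      hN.comp .fst
    have hw' : PT fun p : γ × BT × BT × (Bool × Bool × Bool) × (Bool × Bool × Bool) => w p.1 :=
      hw.comp .fst
    have htg : PT fun p : γ × BT × BT × (Bool × Bool × Bool) × (Bool × Bool × Bool) => p.2.1 :=
      .fst' .snd
    have hpl : PT fun p : γ × BT × BT × (Bool × Bool × Bool) × (Bool × Bool × Bool) => p.2.2.1 :=
      .fst' (.snd' .snd)
    have hra : PT fun p : γ × BT × BT × (Bool × Bool × Bool) × (Bool × Bool × Bool) =>
      p.2.2.2.1 := .fst' (.snd' (.snd' .snd))
    have hrb : PT fun p : γ × BT × BT × (Bool × Bool × Bool) × (Bool × Bool × Bool) =>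
      p.2.2.2.2 := .snd' (.snd' (.snd' .snd))
    refine .pair (.or (.or (.or (.or (pt_eqBT htg (.const _))
      (.and (pt_eqBT htg (.const _)) (pt_gb hw' hN' (.const 0) (pt_spine hpl))))
      (.and (pt_eqBT htg (.const _)) (pt_gb hw' hN' (.cond (pt_eqBT (pt_left hpl) (.const _))
        (.const 1) (.const 2)) (pt_spine (pt_right hpl)))))
      (.and (pt_eqBT htg (.const _)) (.not (.fst' hrb))))
      (.and (.and (pt_eqBT htg (.const _)) (.fst' (.snd' hrb))) (.snd' (.snd' hrb))))
      (.pair (.fst' hra) (.fst' hrb))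
  have h1 := pt_treeRec (s := fun _ : γ => ((false, false, false) : Bool × Bool × Bool))
    (f := fun c a b ra rb => (evStep (N c) (w c) a b rb.1 rb.2.1 rb.2.2, ra.1, rb.1))
    (.const _) hf hT (by
      refine ⟨3, fun c T => ?_⟩
      have h2 : ∀ x : Bool × Bool × Bool, sz x ≤ 5 := by
        intro x
        obtain ⟨x, y, z⟩ := x
        have hx := sz_bool_le x
        have hy := sz_bool_le y
        have hz := sz_bool_le z
        rw [sz_pair, sz_pair]
        omega
      refine (h2 _).trans ?_
      calc 5 ≤ 2 ^ 3 := by norm_num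
        _ ≤ (sz c + T.size + 2) ^ 3 := Nat.pow_le_pow_left (by omega) 3)
  exact (PT.fst' h1).of_eq fun c => evT_enc (N c) (w c) (C c)

end Pool.Agent.Lib.MP_bb9e9d_lc
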