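import Pool.Agent.Lib.MP_bb9e9d_lc.Ver.P2

/-! # Polynomial time: local conditions -/

namespace Pool.Agent.Lib.MP_bb9e9d_lc

open MP_634427_lc MP_be4430_lc

variable {γ : Type} [Enc γ]

private theorem P3_funcs {K : γ → Inst} {P : γ → ℕ} (hK : PT K) (hP : PT P) (b : Bool) :
    PT fun c => (K c).funcs.any fun R => decide (R = (b, P c)) :=
  PT.any (p := fun c R => decide (R = (b, P c))) (pt_funcs hK)
    (PT.eqDec inj_Rl PT.snd (PT.pair (PT.const b) (hP.comp PT.fst)))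

private theorem P3_rass1 {K : γ → Inst} {N : γ → ℕ} {w : γ → Word} {P : γ → ℕ} (hK : PT K)
    (hN : PT N) (hw : PT w) (hP : PT P) :
    PT fun c => (K c).rass.any fun p => decide (p.1 = P c) && gb (w c) (N c) 5 p.2.1 :=
  PT.any (p := fun c p => decide (p.1 = P c) && gb (w c) (N c) 5 p.2.1) (pt_rass hK)
    (PT.and (PT.eqNat (PT.fst' PT.snd) (hP.comp PT.fst))
      (pt_gb (hw.comp PT.fst) (hN.comp PT.fst) (PT.const 5) (PT.fst' (PT.snd' PT.snd))))

private theorem P3_rass2 {K : γ → Inst} {N : γ → ℕ} {w : γ → Word} {P : γ → ℕ} (hK : PT K)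
    (hN : PT N) (hw : PT w) (hP : PT P) :
    PT fun c => (K c).rass.any fun p => decide (p.1 = P c) && gb (w c) (N c) 5 p.2.2 :=
  PT.any (p := fun c p => decide (p.1 = P c) && gb (w c) (N c) 5 p.2.2) (pt_rass hK)
    (PT.and (PT.eqNat (PT.fst' PT.snd) (hP.comp PT.fst))
      (pt_gb (hw.comp PT.fst) (hN.comp PT.fst) (PT.const 5) (PT.snd' (PT.snd' PT.snd))))

theorem pt_roleB {K : γ → Inst} {N : γ → ℕ} {w : γ → Word} {P : γ → ℕ} (hK : PT K) (hN : PT N)
    (hw : PT w) (hP : PT P) : PT fun c => roleB (K c) (N c) (w c) (P c) := by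
  have g : ∀ j : ℕ, PT fun c => gb (w c) (N c) j (P c) := fun j => pt_gb hw hN (PT.const j) hP
  have hf := P3_funcs hK hP
  have h1 := P3_rass1 hK hN hw hP
  have h2 := P3_rass2 hK hN hw hP
  unfold roleB
  exact PT.and (PT.and (PT.and
    (PT.or (PT.not (g 3)) (PT.and (PT.and (g 1) (PT.not h1)) (PT.or (hf false) (hf true))))
    (PT.or (PT.not (g 4)) (PT.and (PT.and (g 2) (PT.not h2)) (PT.or (hf false) (hf true)))))
    (PT.or (PT.or (PT.or (PT.not (hf true)) (PT.not (g 1))) h1) (g 3)))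
    (PT.or (PT.or (PT.or (PT.not (hf false)) (PT.not (g 2))) h2) (g 4))

theorem pt_locB {K : γ → Inst} {N : γ → ℕ} {w : γ → Word} (hK : PT K) (hN : PT N)
    (hw : PT w) : PT fun c => locB (K c) (N c) (w c) := by
  have h1 : PT fun c => (K c).cis.all fun p => !evs (N c) (w c) p.1 || evs (N c) (w c) p.2 :=
    PT.all (p := fun c p => !evs (N c) (w c) p.1 || evs (N c) (w c) p.2) (pt_cis hK)
      (PT.or (PT.not (pt_evs (hN.comp PT.fst) (hw.comp PT.fst) (PT.fst' PT.snd)))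
        (pt_evs (hN.comp PT.fst) (hw.comp PT.fst) (PT.snd' PT.snd)))
  have h2 : PT fun c => (K c).cass.all fun p => !gb (w c) (N c) 5 p.2 || gb (w c) (N c) 0 p.1 :=
    PT.all (p := fun c p => !gb (w c) (N c) 5 p.2 || gb (w c) (N c) 0 p.1) (pt_cass hK)
      (PT.or (PT.not (pt_gb (hw.comp PT.fst) (hN.comp PT.fst) (PT.const 5) (PT.snd' PT.snd)))
        (pt_gb (hw.comp PT.fst) (hN.comp PT.fst) (PT.const 0) (PT.fst' PT.snd)))
  have h3 : PT fun c => (K c).rass.all fun p =>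
      (!gb (w c) (N c) 5 p.2.1 || gb (w c) (N c) 1 p.1) &&
        (!gb (w c) (N c) 5 p.2.2 || gb (w c) (N c) 2 p.1) :=
    PT.all (p := fun c p => (!gb (w c) (N c) 5 p.2.1 || gb (w c) (N c) 1 p.1) &&
        (!gb (w c) (N c) 5 p.2.2 || gb (w c) (N c) 2 p.1)) (pt_rass hK)
      (PT.and
        (PT.or (PT.not (pt_gb (hw.comp PT.fst) (hN.comp PT.fst) (PT.const 5)
          (PT.fst' (PT.snd' PT.snd))))
          (pt_gb (hw.comp PT.fst) (hN.comp PT.fst) (PT.const 1) (PT.fst' PT.snd)))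
        (PT.or (PT.not (pt_gb (hw.comp PT.fst) (hN.comp PT.fst) (PT.const 5)
          (PT.snd' (PT.snd' PT.snd))))
          (pt_gb (hw.comp PT.fst) (hN.comp PT.fst) (PT.const 2) (PT.fst' PT.snd))))
  have h4 : PT fun c => (List.range (N c)).all fun P => roleB (K c) (N c) (w c) P :=
    PT.all (p := fun c P => roleB (K c) (N c) (w c) P) (PT.range hN)
      (pt_roleB (hK.comp PT.fst) (hN.comp PT.fst) (hw.comp PT.fst) PT.snd)
  have h5a : PT fun q : γ × ℕ => (K q.1).inds.any fun b => decide (b = q.2) :=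
    PT.any (p := fun (q : γ × ℕ) b => decide (b = q.2)) (pt_inds (hK.comp PT.fst))
      (PT.eqNat PT.snd (PT.snd' PT.fst))
  have h5b : PT fun q : γ × ℕ => (List.range (N q.1)).all fun b =>
      !gb (w q.1) (N q.1) 5 b || decide (b = q.2) :=
    PT.all (p := fun (q : γ × ℕ) b => !gb (w q.1) (N q.1) 5 b || decide (b = q.2))
      (PT.range (hN.comp PT.fst))
      (PT.or (PT.not (pt_gb (hw.comp (PT.fst' PT.fst)) (hN.comp (PT.fst' PT.fst)) (PT.const 5)
        PT.snd)) (PT.eqNat PT.snd (PT.snd' PT.fst)))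
  have h5 : PT fun c => (List.range (N c)).all fun a => !gb (w c) (N c) 5 a ||
      (((K c).inds.any fun b => decide (b = a)) &&
        (List.range (N c)).all fun b => !gb (w c) (N c) 5 b || decide (b = a)) :=
    PT.all (p := fun c a => !gb (w c) (N c) 5 a ||
      (((K c).inds.any fun b => decide (b = a)) &&
        (List.range (N c)).all fun b => !gb (w c) (N c) 5 b || decide (b = a))) (PT.range hN)
      (PT.or (PT.not (pt_gb (hw.comp PT.fst) (hN.comp PT.fst) (PT.const 5) PT.snd))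
        (PT.and h5a h5b))
  unfold locB
  exact PT.and (PT.and (PT.and (PT.and h1 h2) h3) h4) h5

theorem pt_mvB {K : γ → Inst} {N : γ → ℕ} {w w' : γ → Word} (hK : PT K) (hN : PT N)
    (hw : PT w) (hw' : PT w') : PT fun c => mvB (K c) (N c) (w c) (w' c) := by
  have g : ∀ j : ℕ, PT fun q : γ × ℕ => gb (w q.1) (N q.1) j q.2 == gb (w' q.1) (N q.1) j q.2 :=
    fun j => PT.beqBool (pt_gb (hw.comp PT.fst) (hN.comp PT.fst) (PT.const j) PT.snd)
      (pt_gb (hw'.comp PT.fst) (hN.comp PT.fst) (PT.const j) PT.snd)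
  have h1 : PT fun c => (K c).fixC.all fun A => gb (w c) (N c) 0 A == gb (w' c) (N c) 0 A :=
    PT.all (p := fun c A => gb (w c) (N c) 0 A == gb (w' c) (N c) 0 A) (pt_fixC hK) (g 0)
  have h2 : PT fun c => (K c).fixR.all fun P => (gb (w c) (N c) 1 P == gb (w' c) (N c) 1 P) &&
      (gb (w c) (N c) 2 P == gb (w' c) (N c) 2 P) &&
      (gb (w c) (N c) 3 P == gb (w' c) (N c) 3 P) &&
      (gb (w c) (N c) 4 P == gb (w' c) (N c) 4 P) :=
    PT.all (p := fun c P => (gb (w c) (N c) 1 P == gb (w' c) (N c) 1 P) &&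
      (gb (w c) (N c) 2 P == gb (w' c) (N c) 2 P) &&
      (gb (w c) (N c) 3 P == gb (w' c) (N c) 3 P) &&
      (gb (w c) (N c) 4 P == gb (w' c) (N c) 4 P)) (pt_fixR hK)
      (PT.and (PT.and (PT.and (g 1) (g 2)) (g 3)) (g 4))
  have h3 : PT fun c => (List.range (N c)).all fun a =>
      gb (w c) (N c) 5 a == gb (w' c) (N c) 5 a :=
    PT.all (p := fun c a => gb (w c) (N c) 5 a == gb (w' c) (N c) 5 a) (PT.range hN) (g 5)
  unfold mvB
  exact PT.and (PT.and h1 h2) h3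

theorem pt_prefB {K : γ → Inst} {pl mi : γ → ℕ → Bool} (hK : PT K)
    (hp : PT fun p : γ × ℕ => pl p.1 p.2) (hm : PT fun p : γ × ℕ => mi p.1 p.2) :
    PT fun c => prefB (K c) (pl c) (mi c) := by
  have hp2 : PT fun q : (γ × ℕ) × (ℕ × ℕ) => pl q.1.1 q.2.1 :=
    hp.comp (PT.pair (PT.fst' PT.fst) (PT.fst' PT.snd))
  have hm2 : PT fun q : (γ × ℕ) × (ℕ × ℕ) => mi q.1.1 q.2.1 :=
    hm.comp (PT.pair (PT.fst' PT.fst) (PT.fst' PT.snd))
  have he : PT fun q : (γ × ℕ) × (ℕ × ℕ) => decide (q.2.2 = q.1.2) :=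
    PT.eqNat (PT.snd' PT.snd) (PT.snd' PT.fst)
  have h1 : PT fun q : γ × ℕ => (K q.1).prio.any fun r =>
      decide (r.2 = q.2) && !pl q.1 r.1 && mi q.1 r.1 :=
    PT.any (p := fun (q : γ × ℕ) r => decide (r.2 = q.2) && !pl q.1 r.1 && mi q.1 r.1)
      (pt_prio (hK.comp PT.fst)) (PT.and (PT.and he (PT.not hp2)) hm2)
  have h2 : PT fun q : γ × ℕ => (K q.1).prio.all fun r =>
      !decide (r.2 = q.2) || (!pl q.1 r.1 && !mi q.1 r.1) :=
    PT.all (p := fun (q : γ × ℕ) r => !decide (r.2 = q.2) || (!pl q.1 r.1 && !mi q.1 r.1))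
      (pt_prio (hK.comp PT.fst)) (PT.or (PT.not he) (PT.and (PT.not hp2) (PT.not hm2)))
  have h3 : PT fun c => (K c).mins.all fun p => !pl c p ||
      (K c).prio.any fun r => decide (r.2 = p) && !pl c r.1 && mi c r.1 :=
    PT.all (p := fun c p => !pl c p ||
      (K c).prio.any fun r => decide (r.2 = p) && !pl c r.1 && mi c r.1) (pt_mins hK)
      (PT.or (PT.not hp) h1)
  have h4 : PT fun c => (K c).mins.any fun p => !pl c p && mi c p &&
      (K c).prio.all fun r => !decide (r.2 = p) || (!pl c r.1 && !mi c r.1) :=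
    PT.any (p := fun c p => !pl c p && mi c p &&
      (K c).prio.all fun r => !decide (r.2 = p) || (!pl c r.1 && !mi c r.1)) (pt_mins hK)
      (PT.and (PT.and (PT.not hp) hm) h2)
  unfold prefB
  exact PT.and h3 h4

theorem pt_aboxB {K : γ → Inst} (hK : PT K) : PT fun c => aboxB (K c) := by
  have hf : ∀ b : Bool, PT fun q : (γ × (ℕ × ℕ × ℕ)) × (ℕ × ℕ × ℕ) =>
      (K q.1.1).funcs.any fun R => decide (R = (b, q.1.2.1)) :=
    fun b => P3_funcs (hK.comp (PT.fst' PT.fst)) (PT.fst' (PT.snd' PT.fst)) b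
  have e1 : PT fun q : (γ × (ℕ × ℕ × ℕ)) × (ℕ × ℕ × ℕ) => decide (q.1.2.1 = q.2.1) :=
    PT.eqNat (PT.fst' (PT.snd' PT.fst)) (PT.fst' PT.snd)
  have e2 : PT fun q : (γ × (ℕ × ℕ × ℕ)) × (ℕ × ℕ × ℕ) => decide (q.1.2.2.1 = q.2.2.1) :=
    PT.eqNat (PT.fst' (PT.snd' (PT.snd' PT.fst))) (PT.fst' (PT.snd' PT.snd))
  have e3 : PT fun q : (γ × (ℕ × ℕ × ℕ)) × (ℕ × ℕ × ℕ) => decide (q.1.2.2.2 = q.2.2.2) :=
    PT.eqNat (PT.snd' (PT.snd' (PT.snd' PT.fst))) (PT.snd' (PT.snd' PT.snd))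
  have h1 : PT fun q : γ × (ℕ × ℕ × ℕ) => (K q.1).rass.all fun r => !decide (q.2.1 = r.1) ||
      ((!((K q.1).funcs.any fun R => decide (R = (false, q.2.1))) ||
        !decide (q.2.2.1 = r.2.1) || decide (q.2.2.2 = r.2.2)) &&
      (!((K q.1).funcs.any fun R => decide (R = (true, q.2.1))) ||
        !decide (q.2.2.2 = r.2.2) || decide (q.2.2.1 = r.2.1))) :=
    PT.all (p := fun (q : γ × (ℕ × ℕ × ℕ)) r => !decide (q.2.1 = r.1) ||
      ((!((K q.1).funcs.any fun R => decide (R = (false, q.2.1))) ||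
        !decide (q.2.2.1 = r.2.1) || decide (q.2.2.2 = r.2.2)) &&
      (!((K q.1).funcs.any fun R => decide (R = (true, q.2.1))) ||
        !decide (q.2.2.2 = r.2.2) || decide (q.2.2.1 = r.2.1))))
      (pt_rass (hK.comp PT.fst))
      (PT.or (PT.not e1) (PT.and (PT.or (PT.or (PT.not (hf false)) (PT.not e2)) e3)
        (PT.or (PT.or (PT.not (hf true)) (PT.not e3)) e2)))
  unfold aboxB
  exact PT.all (p := fun c p => (K c).rass.all fun r => !decide (p.1 = r.1) ||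
      ((!((K c).funcs.any fun R => decide (R = (false, p.1))) ||
        !decide (p.2.1 = r.2.1) || decide (p.2.2 = r.2.2)) &&
      (!((K c).funcs.any fun R => decide (R = (true, p.1))) ||
        !decide (p.2.2 = r.2.2) || decide (p.2.1 = r.2.1)))) (pt_rass hK) h1

theorem pt_validB {K : γ → Inst} (hK : PT K) : PT fun c => validB (K c) := by
  have h1 : PT fun c => (K c).prio.all fun p =>
      decide (p.1 ∈ (K c).mins) && decide (p.2 ∈ (K c).mins) :=
    PT.all (p := fun c p => decide (p.1 ∈ (K c).mins) && decide (p.2 ∈ (K c).mins)) (pt_prio hK)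
      (PT.and (pt_mem enc_nat_injective (PT.fst' PT.snd) (pt_mins (hK.comp PT.fst)))
        (pt_mem enc_nat_injective (PT.snd' PT.snd) (pt_mins (hK.comp PT.fst))))
  have h2 : PT fun c => (K c).prio.all fun p => !decide (p.1 = p.2) :=
    PT.all (p := fun (_ : γ) p => !decide (p.1 = p.2)) (pt_prio hK)
      (PT.not (PT.eqNat (PT.fst' PT.snd) (PT.snd' PT.snd)))
  have h3a : PT fun q : γ × (ℕ × ℕ) => (K q.1).prio.all fun r =>
      !decide (q.2.2 = r.1) || decide ((q.2.1, r.2) ∈ (K q.1).prio) :=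
    PT.all (p := fun (q : γ × (ℕ × ℕ)) r =>
      !decide (q.2.2 = r.1) || decide ((q.2.1, r.2) ∈ (K q.1).prio)) (pt_prio (hK.comp PT.fst))
      (PT.or (PT.not (PT.eqNat (PT.snd' (PT.snd' PT.fst)) (PT.fst' PT.snd)))
        ((pt_mem inj_NN (PT.pair (PT.fst' (PT.snd' PT.fst)) (PT.snd' PT.snd))
          (pt_prio (hK.comp (PT.fst' PT.fst)))).of_eq fun q => decide_eq_decide.2 Iff.rfl))
  have h3 : PT fun c => (K c).prio.all fun p => (K c).prio.all fun r =>
      !decide (p.2 = r.1) || decide ((p.1, r.2) ∈ (K c).prio) :=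
    PT.all (p := fun c p => (K c).prio.all fun r =>
      !decide (p.2 = r.1) || decide ((p.1, r.2) ∈ (K c).prio)) (pt_prio hK) h3a
  have h4 : PT fun c => (K c).mins.all fun A => !decide (A ∈ (K c).fixC) :=
    PT.all (p := fun c A => !decide (A ∈ (K c).fixC)) (pt_mins hK)
      (PT.not (pt_mem enc_nat_injective PT.snd (pt_fixC (hK.comp PT.fst))))
  unfold validB
  exact PT.and (PT.and (PT.and h1 h2) h3) h4

theorem validB_iff (K : Inst) : validB K = true ↔ K.Valid := by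
  unfold validB
  simp only [Bool.and_eq_true, List.all_eq_true, decide_eq_true_eq, Bool.not_eq_true',
    decide_eq_false_iff_not, Bool.or_eq_true]
  constructor
  · rintro ⟨⟨⟨h1, h2⟩, h3⟩, h4⟩
    refine ⟨h1, h2, fun p hp q hq hpq => ?_, h4⟩
    rcases h3 p hp q hq with h | h
    · exact absurd hpq h
    · exact h
  · rintro ⟨h1, h2, h3, h4⟩
    refine ⟨⟨⟨h1, h2⟩, fun p hp q hq => ?_⟩, h4⟩
    by_cases hpq : p.2 = q.1
    · exact Or.inr (h3 p hp q hq hpq)
    · exact Or.inl hpq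

end Pool.Agent.Lib.MP_bb9e9d_lc
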