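import Pool.Agent.Lib.MP_bb9e9d_lc.Ver.P3

/-! # Polynomial time: entries -/

namespace Pool.Agent.Lib.MP_bb9e9d_lc

open MP_634427_lc MP_be4430_lc

variable {γ : Type} [Enc γ]

theorem pt_addE {N r : γ → ℕ} {a b : γ → En} (hN : PT N) (hr : PT r) (ha : PT a) (hb : PT b) :
    PT fun c => addE (N c) (r c) (a c) (b c) := by
  refine PT.pair (PT.map (f := fun c P => (a c).1.getD P 0 + (b c).1.getD P 0 - r c)
    (PT.range hN) ?_) (PT.map (f := fun c t => (a c).2.getD t false || (b c).2.getD t false)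
    (PT.range (PT.mul (PT.const 6) hN)) ?_)
  · exact PT.sub (PT.add (PT.getLD PT.snd (PT.fst' (ha.comp PT.fst)) (PT.const 0))
      (PT.getLD PT.snd (PT.fst' (hb.comp PT.fst)) (PT.const 0))) (hr.comp PT.fst)
  · exact PT.or (PT.getLD PT.snd (PT.snd' (ha.comp PT.fst)) (PT.const false))
      (PT.getLD PT.snd (PT.snd' (hb.comp PT.fst)) (PT.const false))

theorem pt_bdE {N r : γ → ℕ} {a b : γ → En} (hN : PT N) (hr : PT r) (ha : PT a) (hb : PT b) :
    PT fun c => bdE (N c) (r c) (a c) (b c) := by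
  have h : PT fun p : γ × ℕ => (a p.1).1.getD p.2 0 + (b p.1).1.getD p.2 0 :=
    PT.add (PT.getLD PT.snd (PT.fst' (ha.comp PT.fst)) (PT.const 0))
      (PT.getLD PT.snd (PT.fst' (hb.comp PT.fst)) (PT.const 0))
  exact PT.all (p := fun c P => decide (r c ≤ (a c).1.getD P 0 + (b c).1.getD P 0) &&
    decide ((a c).1.getD P 0 + (b c).1.getD P 0 ≤ 3 * r c)) (PT.range hN)
    (PT.and (PT.le (hr.comp PT.fst) h) (PT.le h (PT.mul (PT.const 3) (hr.comp PT.fst))))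

theorem pt_zeroE {N r : γ → ℕ} (hN : PT N) (hr : PT r) : PT fun c => zeroE (N c) (r c) :=
  PT.pair (PT.replicate hN hr) (PT.replicate (PT.mul (PT.const 6) hN) (PT.const false))

private theorem pt_bn {f : γ → Bool} (hf : PT f) : PT fun c => bn (f c) :=
  PT.cond hf (PT.const 1) (PT.const 0)

private theorem pt_gb1 {w : γ → Word} {N : γ → ℕ} (hw : PT w) (hN : PT N) (j : ℕ) :
    PT fun p : γ × ℕ => gb (w p.1) (N p.1) j p.2 :=
  pt_gb (hw.comp PT.fst) (hN.comp PT.fst) (PT.const j) PT.snd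

theorem pt_ctrB {N r κ : γ → ℕ} {ℓ : γ → List ℕ} {s s' : γ → Word} (hN : PT N) (hr : PT r)
    (hℓ : PT ℓ) (hκ : PT κ) (hs : PT s) (hs' : PT s') :
    PT fun c => ctrB (N c) (r c) (ℓ c) (κ c) (s c) (s' c) := by
  have hR := PT.range hN
  have hl : PT fun p : γ × ℕ => (ℓ p.1).getD p.2 0 :=
    PT.getLD PT.snd (hℓ.comp PT.fst) (PT.const 0)
  have hk : PT fun p : γ × ℕ => κ p.1 := hκ.comp PT.fst
  refine PT.pair ?_ ?_
  · exact PT.map (f := fun c P => bif decide ((ℓ c).getD P 0 = 0) && decide (κ c = 0) then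
      r c + bn (gb (s' c) (N c) 3 P) - bn (gb (s' c) (N c) 4 P) else r c) hR
      (PT.cond (PT.and (PT.isZero hl) (PT.isZero hk))
        (PT.sub (PT.add (hr.comp PT.fst) (pt_bn (pt_gb1 hs' hN 3))) (pt_bn (pt_gb1 hs' hN 4)))
        (hr.comp PT.fst))
  · have hf : PT fun p : γ × ℕ => !decide (κ p.1 = 0) && decide ((ℓ p.1).getD p.2 0 = κ p.1) :=
      PT.and (PT.not (PT.isZero hk)) (PT.eqNat hl hk)
    exact PT.append (PT.append (PT.append (PT.append (PT.append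
      (PT.map (f := fun c p => gb (s' c) (N c) 0 p && !gb (s c) (N c) 0 p) hR
        (PT.and (pt_gb1 hs' hN 0) (PT.not (pt_gb1 hs hN 0))))
      (PT.map (f := fun c p => gb (s c) (N c) 0 p && !gb (s' c) (N c) 0 p) hR
        (PT.and (pt_gb1 hs hN 0) (PT.not (pt_gb1 hs' hN 0)))))
      (PT.map (f := fun c P => gb (s' c) (N c) 1 P) hR (pt_gb1 hs' hN 1)))
      (PT.map (f := fun c P => gb (s' c) (N c) 2 P) hR (pt_gb1 hs' hN 2)))
      (PT.map (f := fun c P => gb (s' c) (N c) 3 P &&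
        (!decide (κ c = 0) && decide ((ℓ c).getD P 0 = κ c))) hR
        (PT.and (pt_gb1 hs' hN 3) hf)))
      (PT.map (f := fun c P => gb (s' c) (N c) 4 P &&
        (!decide (κ c = 0) && decide ((ℓ c).getD P 0 = κ c))) hR
        (PT.and (pt_gb1 hs' hN 4) hf))

theorem pt_alwB {N κ : γ → ℕ} {ℓ : γ → List ℕ} {s' : γ → Word} (hN : PT N)
    (hℓ : PT ℓ) (hκ : PT κ) (hs' : PT s') : PT fun c => alwB (N c) (ℓ c) (κ c) (s' c) :=
  PT.all (p := fun c P => !(gb (s' c) (N c) 3 P || gb (s' c) (N c) 4 P) ||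
    decide (κ c ≤ (ℓ c).getD P 0)) (PT.range hN)
    (PT.or (PT.not (PT.or (pt_gb1 hs' hN 3) (pt_gb1 hs' hN 4)))
      (PT.le (hκ.comp PT.fst) (PT.getLD PT.snd (hℓ.comp PT.fst) (PT.const 0))))

theorem pt_flB {N j P : γ → ℕ} {e : γ → En} (hN : PT N) (he : PT e) (hj : PT j) (hP : PT P) :
    PT fun c => flB (N c) (e c) (j c) (P c) :=
  PT.and (PT.lt hP hN) (PT.getLD (PT.add (PT.mul hj hN) hP) (PT.snd' he) (PT.const false))

private theorem pt_fl1 {N : γ → ℕ} {e : γ → En} (hN : PT N) (he : PT e) (j : ℕ) :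
    PT fun p : γ × ℕ => flB (N p.1) (e p.1) j p.2 :=
  pt_flB (hN.comp PT.fst) (he.comp PT.fst) (PT.const j) PT.snd

theorem pt_goodB {K : γ → Inst} {N r : γ → ℕ} {ℓ : γ → List ℕ} {e : γ → En} (hK : PT K)
    (hN : PT N) (hr : PT r) (hℓ : PT ℓ) (he : PT e) :
    PT fun c => goodB (K c) (N c) (r c) (ℓ c) (e c) := by
  refine PT.and (PT.and ?_ ?_) ?_
  · exact PT.all (p := fun c P => decide ((e c).1.getD P 0 = r c)) (PT.range hN)
      (PT.eqNat (PT.getLD PT.snd (PT.fst' (he.comp PT.fst)) (PT.const 0)) (hr.comp PT.fst))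
  · exact pt_prefB hK (pt_fl1 hN he 0) (pt_fl1 hN he 1)
  · exact PT.all (p := fun c P => (flB (N c) (e c) 2 P == flB (N c) (e c) 3 P) &&
      (decide ((ℓ c).getD P 0 = 0) || (flB (N c) (e c) 4 P && flB (N c) (e c) 5 P)))
      (PT.range hN)
      (PT.and (PT.beqBool (pt_fl1 hN he 2) (pt_fl1 hN he 3))
        (PT.or (PT.isZero (PT.getLD PT.snd (hℓ.comp PT.fst) (PT.const 0)))
          (PT.and (pt_fl1 hN he 4) (pt_fl1 hN he 5))))

end Pool.Agent.Lib.MP_bb9e9d_lc
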