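import Pool.Agent.Lib.MP_bb9e9d_lc.Ver.P4

/-! # Polynomial time: operations -/

namespace Pool.Agent.Lib.MP_bb9e9d_lc

open MP_634427_lc MP_be4430_lc

variable {γ : Type} [Enc γ]

theorem pt_newS {K : γ → Inst} {N : γ → ℕ} {LS : γ → List Word} {s : γ → Word} (hK : PT K)
    (hN : PT N) (hL : PT LS) (hs : PT s) : PT fun c => newS (K c) (N c) (LS c) (s c) :=
  PT.filter hL
    (((PT.eqNat (PT.length PT.snd) (PT.mul (PT.const 6) (hN.comp PT.fst))).and
      (pt_mvB (hK.comp PT.fst) (hN.comp PT.fst) (hs.comp PT.fst) PT.snd)).and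
      (pt_locB (hK.comp PT.fst) (hN.comp PT.fst) PT.snd))

theorem pt_optL {K : γ → Inst} {N r : γ → ℕ} {LS : γ → List Word} {ℓ : γ → List ℕ}
    {s : γ → Word} (hK : PT K) (hN : PT N) (hr : PT r) (hL : PT LS) (hℓ : PT ℓ) (hs : PT s) :
    PT fun c => optL (K c) (N c) (r c) (LS c) (ℓ c) (s c) :=
  PT.map (pt_newS hK hN hL hs)
    (pt_ctrB (hN.comp PT.fst) (hr.comp PT.fst) (hℓ.comp PT.fst) (PT.const 0) (hs.comp PT.fst)
      PT.snd)

theorem pt_extL {K : γ → Inst} {N r κ : γ → ℕ} {LS : γ → List Word} {ℓ : γ → List ℕ}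
    {s : γ → Word} (hK : PT K) (hN : PT N) (hr : PT r) (hL : PT LS) (hℓ : PT ℓ) (hκ : PT κ)
    (hs : PT s) : PT fun c => extL (K c) (N c) (r c) (LS c) (ℓ c) (κ c) (s c) :=
  PT.map (PT.filter (pt_newS hK hN hL hs)
      (pt_alwB (hN.comp PT.fst) (hℓ.comp PT.fst) (hκ.comp PT.fst) PT.snd))
    (pt_ctrB (hN.comp PT.fst) (hr.comp PT.fst) (hℓ.comp PT.fst) (hκ.comp PT.fst) (hs.comp PT.fst)
      PT.snd)

theorem pt_genL {K : γ → Inst} {N r : γ → ℕ} {LS : γ → List Word} {ℓ : γ → List ℕ}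
    {pr : γ → List PE} (hK : PT K) (hN : PT N) (hr : PT r) (hL : PT LS) (hℓ : PT ℓ) (hp : PT pr) :
    PT fun c => genL (K c) (N c) (r c) (LS c) (ℓ c) (pr c) :=
  PT.flatMap (PT.filter hp (PT.fst' (PT.snd' PT.snd)))
    (PT.flatMap (PT.range (PT.succ (PT.snd' (PT.snd' (PT.snd' PT.snd)))))
      (pt_extL (hK.comp (PT.fst' PT.fst)) (hN.comp (PT.fst' PT.fst)) (hr.comp (PT.fst' PT.fst))
        (hL.comp (PT.fst' PT.fst)) (hℓ.comp (PT.fst' PT.fst)) PT.snd (PT.fst' (PT.snd' PT.fst))))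

theorem pt_opL {K : γ → Inst} {N r : γ → ℕ} {C : γ → Crt} {ℓ : γ → List ℕ} (hK : PT K)
    (hN : PT N) (hr : PT r) (hC : PT C) (hℓ : PT ℓ) :
    PT fun c => opL (K c) (N c) (r c) (C c) (ℓ c) :=
  PT.append
    (PT.flatMap (PT.range (pt_K hC))
      (PT.cons (PT.const none)
        (PT.map
          (PT.filter (pt_prof (hC.comp PT.fst))
            ((PT.fst' (PT.snd' PT.snd)).not.and
              (PT.getLD (PT.sub (PT.sub (pt_K (hC.comp (PT.fst' PT.fst))) (PT.const 1))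
                (PT.snd' PT.fst)) (PT.fst' (PT.snd' (PT.snd' PT.snd))) (PT.const false))))
          (PT.some
            (pt_optL (hK.comp (PT.fst' PT.fst)) (hN.comp (PT.fst' PT.fst))
              (hr.comp (PT.fst' PT.fst)) (pt_LS (hC.comp (PT.fst' PT.fst)))
              (hℓ.comp (PT.fst' PT.fst)) (PT.fst' PT.snd))))))
    (PT.map (PT.filter (pt_prof hC) (PT.fst' (PT.snd' PT.snd)))
      (PT.some
        (pt_extL (hK.comp PT.fst) (hN.comp PT.fst) (hr.comp PT.fst) (pt_LS (hC.comp PT.fst))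
          (hℓ.comp PT.fst) (PT.snd' (PT.snd' (PT.snd' PT.snd))) (PT.fst' PT.snd))))

theorem pt_rr {σ L : γ → ℕ} (hσ : PT σ) (hL : PT L) : PT fun c => rr (σ c) (L c) := by
  unfold rr
  have h1 : PT fun c => σ c * σ c := PT.mul hσ hσ
  have h2 : PT fun c => σ c * σ c * (L c + 1) := PT.mul h1 (PT.succ hL)
  exact PT.add (PT.add (PT.mul (PT.const 2)
      (PT.add (PT.add (PT.mul h1 (PT.succ hσ)) h2) hσ))
    (PT.mul (PT.const 2) (PT.mul h2 (PT.add h2 (PT.const 2))))) (PT.const 1)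

end Pool.Agent.Lib.MP_bb9e9d_lc
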