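import Pool.Agent.Lib.MP_bb9e9d_lc.Ver.P5

/-! # Polynomial time: tables -/

namespace Pool.Agent.Lib.MP_bb9e9d_lc

open MP_634427_lc MP_be4430_lc

variable {γ : Type} [Enc γ]

private theorem P6_mem {a : γ → En} {l : γ → List En} (ha : PT a) (hl : PT l) :
    PT fun c => decide (a c ∈ l c) :=
  (pt_mem inj_En ha hl).of_eq fun _ => decide_eq_decide.2 Iff.rfl

/-- closure of a table under the addition of the vectors of a list -/
private theorem P6_close {N r : γ → ℕ} {t A t' : γ → List En} (hN : PT N) (hr : PT r)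
    (ht : PT t) (hA : PT A) (ht' : PT t') :
    PT fun c => (t c).all fun a => (A c).all fun b =>
      !bdE (N c) (r c) a b || decide (addE (N c) (r c) a b ∈ t' c) := by
  refine PT.all ht ?_
  refine PT.all (hA.comp PT.fst) ?_
  have h1 : PT fun q : (γ × En) × En => N q.1.1 := hN.comp (PT.fst.comp PT.fst)
  have h2 : PT fun q : (γ × En) × En => r q.1.1 := hr.comp (PT.fst.comp PT.fst)
  have h3 : PT fun q : (γ × En) × En => q.1.2 := PT.snd.comp PT.fst
  have h4 : PT fun q : (γ × En) × En => q.2 := PT.snd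
  exact PT.or (PT.not (pt_bdE h1 h2 h3 h4))
    (P6_mem (pt_addE h1 h2 h3 h4) (ht'.comp (PT.fst.comp PT.fst)))

theorem pt_baseB {N r : γ → ℕ} {g t : γ → List En} (hN : PT N) (hr : PT r) (hg : PT g)
    (ht : PT t) : PT fun c => baseB (N c) (r c) (g c) (t c) := by
  unfold baseB
  refine PT.and (PT.and (P6_mem (pt_zeroE hN hr) ht) (PT.all hg ?_)) (P6_close hN hr ht ht ht)
  exact P6_mem PT.snd (ht.comp PT.fst)

/-- Proof: `PT.casesOption`. -/
theorem pt_stepB {N r : γ → ℕ} {o : γ → Option (List En)} {t t' : γ → List En} (hN : PT N)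
    (hr : PT r) (ho : PT o) (ht : PT t) (ht' : PT t') :
    PT fun c => stepB (N c) (r c) (o c) (t c) (t' c) := by
  refine (PT.casesOption
    (f := fun c => (t c).all fun a => (t c).all fun b =>
      !bdE (N c) (r c) a b || decide (addE (N c) (r c) a b ∈ t' c))
    (g := fun c A => (t c).all fun a => A.all fun b =>
      !bdE (N c) (r c) a b || decide (addE (N c) (r c) a b ∈ t' c)) ho
    (P6_close hN hr ht ht ht')
    (P6_close (hN.comp PT.fst) (hr.comp PT.fst) (ht.comp PT.fst) PT.snd (ht'.comp PT.fst))).of_eq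
    fun c => ?_
  unfold stepB
  cases o c <;> rfl

theorem pt_tabB {K : γ → Inst} {N : γ → ℕ} {C : γ → Crt} {ℓ : γ → List ℕ}
    {ts : γ → List (List En)} (hK : PT K) (hN : PT N) (hC : PT C) (hℓ : PT ℓ) (ht : PT ts) :
    PT fun c => tabB (K c) (N c) (C c) (ℓ c) (ts c) := by
  have hr : PT fun c => rr (C c).LS.length (C c).L := pt_rr (PT.length (pt_LS hC)) (pt_L hC)
  have ho : PT fun c => opL (K c) (N c) (rr (C c).LS.length (C c).L) (C c) (ℓ c) :=
    pt_opL hK hN hr hC hℓ
  unfold tabB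
  refine PT.and (PT.and ?_ ?_) ?_
  · exact pt_baseB hN hr (pt_genL hK hN hr (pt_LS hC) hℓ (pt_prof hC))
      (PT.getLD (PT.const 0) ht (PT.const []))
  · refine PT.all (PT.range (PT.length ho)) ?_
    exact pt_stepB (hN.comp PT.fst) (hr.comp PT.fst)
      (PT.getLD PT.snd (ho.comp PT.fst) (PT.const none))
      (PT.getLD PT.snd (ht.comp PT.fst) (PT.const []))
      (PT.getLD (PT.succ PT.snd) (ht.comp PT.fst) (PT.const []))
  · refine PT.all (PT.getLD (PT.length ho) ht (PT.const [])) ?_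
    exact PT.not (pt_goodB (hK.comp PT.fst) (hN.comp PT.fst) (hr.comp PT.fst) (hℓ.comp PT.fst)
      PT.snd)

end Pool.Agent.Lib.MP_bb9e9d_lc
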