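import Pool.Agent.Lib.MP_bb9e9d_lc.Ver.P6

/-! # Polynomial time: the profile and the whole verification -/

namespace Pool.Agent.Lib.MP_bb9e9d_lc

open MP_634427_lc MP_be4430_lc

variable {γ : Type} [Enc γ]

theorem pt_profB {K : γ → Inst} {N : γ → ℕ} {C : γ → Crt} (hK : PT K) (hN : PT N) (hC : PT C) :
    PT fun c => profB (K c) (N c) (C c) := by
  have h1 := pt_nodup (PT.map (f := fun (_ : γ) (e : PE) => e.1) (pt_prof hC) (PT.fst' PT.snd))
  have e1 : PT fun q : γ × PE => q.2.1 := PT.fst' PT.snd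
  have e2 : PT fun q : γ × PE => q.2.2.1 := PT.fst' (PT.snd' PT.snd)
  have e3 : PT fun q : γ × PE => q.2.2.2.1 := PT.fst' (PT.snd' (PT.snd' PT.snd))
  have e4 : PT fun q : γ × PE => q.2.2.2.2 := PT.snd' (PT.snd' (PT.snd' PT.snd))
  have a1 := PT.eqNat (PT.length e1) (PT.mul (PT.const 6) (hN.comp (PT.fst (α := γ) (β := PE))))
  have a2 := PT.eqNat (PT.length e3) (pt_K (hC.comp (PT.fst (α := γ) (β := PE))))
  have a3 := PT.le e4 (pt_L (hC.comp (PT.fst (α := γ) (β := PE))))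
  have a4 := pt_locB (hK.comp (PT.fst (α := γ) (β := PE))) (hN.comp PT.fst) e1
  have a5 := PT.any (p := fun (_ : γ × PE) (b : Bool) => b) e3 PT.snd
  have a6 := PT.cond e2 (PT.not (PT.isZero e4)) (PT.and (PT.isZero e4) a5)
  exact PT.and h1 (PT.all (pt_prof hC) (PT.and (PT.and (PT.and (PT.and a1 a2) a3) a4) a6))

/-- Proof: `PT.foldr_bdd`: the value is at most the size of the list. -/
theorem pt_topB {pr : γ → List PE} {p : γ → Word → Bool} (hp : PT pr)
    (h : PT fun q : γ × Word => p q.1 q.2) : PT fun c => topB (pr c) (p c) := by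
  have h1 := PT.filter (p := fun c (e : PE) => p c e.1) hp
    (PT.comp₂ h (PT.fst (α := γ) (β := PE)) (PT.fst' PT.snd))
  have m : PT fun q : γ × PE × ℕ => max q.2.1.2.2.2 q.2.2 := by
    have x1 : PT fun q : γ × PE × ℕ => q.2.1.2.2.2 :=
      PT.snd' (PT.snd' (PT.snd' (PT.fst' PT.snd)))
    have x2 : PT fun q : γ × PE × ℕ => q.2.2 := PT.snd' PT.snd
    refine (PT.add x1 (PT.sub x2 x1)).of_eq fun q => ?_
    omega
  refine PT.foldr (f := fun (_ : γ) (e : PE) (r : ℕ) => max e.2.2.2 r) h1 (PT.const 0) m ?_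
  obtain ⟨k, hk⟩ := h1.size_le
  refine ⟨k, fun c l' hl' => ?_⟩
  have key : ∀ l'' : List PE, l''.foldr (fun e r => max e.2.2.2 r) 0 ≤ sz l'' := by
    intro l''
    induction l'' with
    | nil => simp
    | cons e l'' ih =>
      have hz : e.2.2.2 ≤ sz e := by
        rw [sz_prod, sz_prod, sz_prod, sz_nat]
        omega
      simp only [List.foldr_cons, sz_cons]
      omega
  rw [sz_nat]
  exact (key l').trans ((sz_suffix_le hl').trans (hk c))

theorem pt_namB {K : γ → Inst} {N : γ → ℕ} {C : γ → Crt} (hK : PT K) (hN : PT N) (hC : PT C) :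
    PT fun c => namB (K c) (N c) (C c) := by
  have hf : PT fun q : γ × ℕ => (C q.1).prof.filter fun e => gb e.1 (N q.1) 5 q.2 :=
    PT.filter (p := fun (q : γ × ℕ) (e : PE) => gb e.1 (N q.1) 5 q.2) (pt_prof (hC.comp PT.fst))
      (pt_gb (PT.fst' PT.snd) (hN.comp (PT.fst' PT.fst)) (PT.const 5) (PT.snd' PT.fst))
  refine PT.all (p := fun c a => decide (((C c).prof.filter fun e => gb e.1 (N c) 5 a).length = 1) &&
    ((C c).prof.filter fun e => gb e.1 (N c) 5 a).all fun e =>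
      !e.2.1 && decide (e.2.2.1 = true :: List.replicate ((C c).K - 1) false)) (pt_inds hK) ?_
  refine PT.and (PT.eqNat (PT.length hf) (PT.const 1)) (PT.all (p := fun (q : γ × ℕ) (e : PE) =>
    !e.2.1 && decide (e.2.2.1 = true :: List.replicate ((C q.1).K - 1) false)) hf ?_)
  refine PT.and (PT.not (PT.fst' (PT.snd' PT.snd))) (PT.eqDec enc_word_injective
    (PT.fst' (PT.snd' (PT.snd' PT.snd))) (PT.cons (PT.const true) (PT.replicate
      (PT.sub (pt_K (hC.comp (PT.fst' PT.fst))) (PT.const 1)) (PT.const false))))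

theorem pt_digB {pr : γ → List PE} {p : γ → Word → Bool} {k : γ → ℕ} (hp : PT pr)
    (h : PT fun q : γ × Word => p q.1 q.2) (hk : PT k) : PT fun c => digB (pr c) (p c) (k c) := by
  refine PT.length (PT.filter (p := fun c (e : PE) =>
    !e.2.1 && p c e.1 && e.2.2.1.getD (k c) false) hp ?_)
  exact PT.and (PT.and (PT.not (PT.fst' (PT.snd' PT.snd)))
    (PT.comp₂ h (PT.fst (α := γ) (β := PE)) (PT.fst' PT.snd)))
    (PT.getLD (hk.comp PT.fst) (PT.fst' (PT.snd' (PT.snd' PT.snd))) (PT.const false))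

theorem pt_balB {N : γ → ℕ} {C : γ → Crt} {P : γ → ℕ} (hN : PT N) (hC : PT C) (hP : PT P) :
    PT fun c => balB (N c) (C c) (P c) := by
  have g : ∀ j : ℕ, PT fun q : γ × Word => gb q.2 (N q.1) j (P q.1) := fun j =>
    pt_gb PT.snd (hN.comp PT.fst) (PT.const j) (hP.comp PT.fst)
  have g' : ∀ j : ℕ, PT fun q : (γ × ℕ) × Word => gb q.2 (N q.1.1) j (P q.1.1) := fun j =>
    pt_gb PT.snd (hN.comp (PT.fst' PT.fst)) (PT.const j) (hP.comp (PT.fst' PT.fst))
  have t3 := pt_topB (p := fun c s => gb s (N c) 3 (P c)) (pt_prof hC) (g 3)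
  have t4 := pt_topB (p := fun c s => gb s (N c) 4 (P c)) (pt_prof hC) (g 4)
  have d3 := pt_digB (p := fun (q : γ × ℕ) s => gb s (N q.1) 3 (P q.1))
    (pt_prof (hC.comp (PT.fst (α := γ) (β := ℕ)))) (g' 3) PT.snd
  have d4 := pt_digB (p := fun (q : γ × ℕ) s => gb s (N q.1) 4 (P q.1))
    (pt_prof (hC.comp (PT.fst (α := γ) (β := ℕ)))) (g' 4) PT.snd
  have w0 : ∀ k : γ → ℕ, PT k → PT fun c => ((C c).wl.getD (k c) []).getD (P c) 0 := fun k hk =>
    PT.getLD hP (PT.getLD hk (pt_wl hC) (PT.const [])) (PT.const 0)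
  have w1 : ∀ k : γ × ℕ → ℕ, PT k → PT fun q : γ × ℕ => ((C q.1).wl.getD (k q) []).getD (P q.1) 0 :=
    fun k hk => PT.getLD (hP.comp PT.fst) (PT.getLD hk (pt_wl (hC.comp PT.fst)) (PT.const []))
      (PT.const 0)
  have l0 := PT.length (pt_prof hC)
  have l1 := PT.length (pt_prof (hC.comp (PT.fst (α := γ) (β := ℕ))))
  refine PT.and (PT.eqNat t3 t4) (PT.or (PT.not (PT.isZero t3)) (PT.and (PT.and
    (PT.eqNat (w0 _ (pt_K hC)) l0) (PT.eqNat (w0 _ (PT.const 0)) l0)) ?_))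
  exact PT.all (PT.range (pt_K hC)) (PT.eqNat (PT.add (PT.add (w1 _ PT.snd) l1) d4)
    (PT.add (PT.mul (PT.const 2) (w1 _ (PT.succ PT.snd))) d3))

/-- `pt_mem` with any decidability instance -/
private theorem P7_mem {α : Type} [Enc α] [DecidableEq α]
    (hα : Function.Injective (enc : α → BT)) {a : γ → α} {l : γ → List α} (ha : PT a) (hl : PT l)
    (D : ∀ c, Decidable (a c ∈ l c)) : PT fun c => @decide (a c ∈ l c) (D c) :=
  (pt_mem hα ha hl).of_eq fun c => by congr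

theorem pt_lsB {N : γ → ℕ} {LS : γ → List Word} (hN : PT N) (hL : PT LS) :
    PT fun c => lsB (N c) (LS c) := by
  have hi : Function.Injective (enc : Word → BT) := enc_word_injective
  refine PT.and (P7_mem hi (PT.const []) hL _) (PT.all (p := fun c (w : Word) =>
    decide (6 * N c ≤ w.length) || (decide (w ++ [false] ∈ LS c) && decide (w ++ [true] ∈ LS c)))
    hL ?_)
  have hw : PT fun q : γ × Word => q.2 := PT.snd
  exact PT.or (PT.le (PT.mul (PT.const 6) (hN.comp PT.fst)) (PT.length hw))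
    (PT.and (P7_mem hi (PT.append hw (PT.const [false])) (hL.comp PT.fst) _)
      (P7_mem hi (PT.append hw (PT.const [true])) (hL.comp PT.fst) _))

theorem pt_llB {N L : γ → ℕ} {LL : γ → List (List ℕ)} (hN : PT N) (hL : PT L) (hLL : PT LL) :
    PT fun c => llB (N c) (L c) (LL c) := by
  refine PT.and (P7_mem inj_LN (PT.const []) hLL _) (PT.all (p := fun c (w : List ℕ) =>
    decide (N c ≤ w.length) || (List.range (L c + 1)).all fun v => decide (w ++ [v] ∈ LL c))
    hLL ?_)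
  have hw : PT fun q : γ × List ℕ => q.2 := PT.snd
  refine PT.or (PT.le (hN.comp PT.fst) (PT.length hw)) (PT.all (p := fun (q : γ × List ℕ) (v : ℕ) =>
    decide (q.2 ++ [v] ∈ LL q.1)) (PT.range (PT.succ (hL.comp PT.fst))) ?_)
  exact P7_mem inj_LN (PT.append (PT.snd' PT.fst) (PT.cons PT.snd (PT.const [])))
    (hLL.comp (PT.fst' PT.fst)) _

theorem pt_chkB (u : Bool) {K : γ → Inst} {N : γ → ℕ} {C : γ → Crt} (hK : PT K) (hN : PT N)
    (hC : PT C) : PT fun c => chkB u (K c) (N c) (C c) := by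
  have hF : PT fun q : γ × ℕ => q.1 := PT.fst
  have c1 := pt_profB hK hN hC
  have c2 := pt_namB hK hN hC
  have c3 : PT fun c => (List.range (N c)).all fun P => balB (N c) (C c) P :=
    PT.all (PT.range hN) (pt_balB (hN.comp hF) (hC.comp hF) PT.snd)
  have an : ∀ j : ℕ, PT fun q : γ × ℕ => (C q.1).prof.any fun e => gb e.1 (N q.1) j q.2 :=
    fun j => PT.any (p := fun (q : γ × ℕ) (e : PE) => gb e.1 (N q.1) j q.2)
      (pt_prof (hC.comp hF)) (pt_gb (PT.fst' PT.snd) (hN.comp (PT.fst' PT.fst)) (PT.const j)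
        (PT.snd' PT.fst))
  have c4 : PT fun c => (List.range (N c)).all fun P => ((C c).prof.any fun e => gb e.1 (N c) 1 P) ==
      ((C c).prof.any fun e => gb e.1 (N c) 2 P) :=
    PT.all (PT.range hN) (PT.beqBool (an 1) (an 2))
  have c5 : PT fun c => (C c).prof.any fun e => evs (N c) e.1 (K c).C0 :=
    PT.any (p := fun c (e : PE) => evs (N c) e.1 (K c).C0) (pt_prof hC)
      (pt_evs (hN.comp PT.fst) (PT.fst' PT.snd) (pt_C0 (hK.comp PT.fst)))
  have c6 : PT fun c => !u || (C c).prof.any fun e => e.2.1 :=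
    PT.or (PT.const (!u)) (PT.any (p := fun _ (e : PE) => e.2.1) (pt_prof hC)
      (PT.fst' (PT.snd' PT.snd)))
  have c7 := pt_lsB hN (pt_LS hC)
  have c8 := pt_llB hN (pt_L hC) (pt_LL hC)
  have c9 : PT fun c => (C c).LL.all fun ℓ => !decide (ℓ.length = N c) ||
      (C c).tabs.any fun t => decide (t.1 = ℓ) && tabB (K c) (N c) (C c) ℓ t.2 := by
    refine PT.all (p := fun c ℓ => !decide (ℓ.length = N c) ||
      (C c).tabs.any fun t => decide (t.1 = ℓ) && tabB (K c) (N c) (C c) ℓ t.2) (pt_LL hC) ?_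
    refine PT.or (PT.not (PT.eqNat (PT.length PT.snd) (hN.comp PT.fst))) (PT.any
      (p := fun (q : γ × List ℕ) (t : List ℕ × List (List En)) =>
        decide (t.1 = q.2) && tabB (K q.1) (N q.1) (C q.1) q.2 t.2)
      (pt_tabs (hC.comp PT.fst)) ?_)
    exact PT.and (PT.eqDec inj_LN (PT.fst' PT.snd) (PT.snd' PT.fst))
      (pt_tabB (hK.comp (PT.fst' PT.fst)) (hN.comp (PT.fst' PT.fst)) (hC.comp (PT.fst' PT.fst))
        (PT.snd' PT.fst) (PT.snd' PT.snd))
  exact PT.and (PT.and (PT.and (PT.and (PT.and (PT.and (PT.and (PT.and c1 c2) c3) c4) c5) c6) c7)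
    c8) c9

end Pool.Agent.Lib.MP_bb9e9d_lc
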