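import Pool.Agent.Lib.MP_bb9e9d_lc.Ver.P1
import Pool.Agent.Lib.MP_bb9e9d_lc.Hard.PTa
import Pool.Agent.Lib.MP_be4430_lc.P1_TreeRec
import Pool.Agent.Lib.MP_be4430_lc.M7_Parse

/-! # Parsing inputs and certificates -/

namespace Pool.Agent.Lib.MP_bb9e9d_lc

open MP_634427_lc MP_be4430_lc

variable {γ : Type} [Enc γ]

/-- the concept with the tag `tg` and the payload `pl`; `rp, rs, rt` are the concepts read from the
payload and from its left and right subtree -/
def paStep (tg pl : BT) (rp rs rt : Con) : Con :=
  bif decide (tg = un 0) then .top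
  else bif decide (tg = un 1) then .bot
  else bif decide (tg = un 2) then .name (spine pl)
  else bif decide (tg = un 3) then .ex (decide (pl.left ≠ .nil), spine pl.right)
  else bif decide (tg = un 4) then .neg rp
  else bif decide (tg = un 5) then .inter rs rt
  else .top

/-- the concepts read from a tree and from its left and right subtree -/
def paT (T : BT) : Con × Con × Con :=
  trec (Con.top, Con.top, Con.top)
    (fun a b ra rb => (paStep a b rb.1 rb.2.1 rb.2.2, ra.1, rb.1)) T

/-- read a concept -/
def paCon (T : BT) : Con := (paT T).1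

private theorem Q1_un {a b : ℕ} (h : un a = un b) : a = b := enc_nat_injective h

private theorem Q1_dec {a b : ℕ} (h : a ≠ b) : decide (un a = un b) = false :=
  decide_eq_false fun h' => h (Q1_un h')

private theorem Q1_node (a b : BT) : paT (.node a b) =
    (paStep a b (paT b).1 (paT b).2.1 (paT b).2.2, (paT a).1, (paT b).1) := rfl

private theorem Q1_con (a b : BT) : paCon (.node a b) =
    paStep a b (paT b).1 (paT b).2.1 (paT b).2.2 := rfl

private theorem Q1_step0 (pl : BT) (rp rs rt : Con) : paStep (un 0) pl rp rs rt = .top := by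
  unfold paStep
  simp

private theorem Q1_step1 (pl : BT) (rp rs rt : Con) : paStep (un 1) pl rp rs rt = .bot := by
  unfold paStep
  rw [Q1_dec (a := 1) (b := 0) (by decide)]
  simp

private theorem Q1_step2 (pl : BT) (rp rs rt : Con) :
    paStep (un 2) pl rp rs rt = .name (spine pl) := by
  unfold paStep
  rw [Q1_dec (a := 2) (b := 0) (by decide), Q1_dec (a := 2) (b := 1) (by decide)]
  simp

private theorem Q1_step3 (pl : BT) (rp rs rt : Con) :
    paStep (un 3) pl rp rs rt = .ex (decide (pl.left ≠ .nil), spine pl.right) := by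
  unfold paStep
  rw [Q1_dec (a := 3) (b := 0) (by decide), Q1_dec (a := 3) (b := 1) (by decide),
    Q1_dec (a := 3) (b := 2) (by decide)]
  simp

private theorem Q1_step4 (pl : BT) (rp rs rt : Con) :
    paStep (un 4) pl rp rs rt = .neg rp := by
  unfold paStep
  rw [Q1_dec (a := 4) (b := 0) (by decide), Q1_dec (a := 4) (b := 1) (by decide),
    Q1_dec (a := 4) (b := 2) (by decide), Q1_dec (a := 4) (b := 3) (by decide)]
  simp

private theorem Q1_step5 (pl : BT) (rp rs rt : Con) :
    paStep (un 5) pl rp rs rt = .inter rs rt := by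
  unfold paStep
  rw [Q1_dec (a := 5) (b := 0) (by decide), Q1_dec (a := 5) (b := 1) (by decide),
    Q1_dec (a := 5) (b := 2) (by decide), Q1_dec (a := 5) (b := 3) (by decide),
    Q1_dec (a := 5) (b := 4) (by decide)]
  simp

private theorem Q1_bit (b : Bool) : decide (enc b ≠ BT.nil) = b := by
  cases b <;> simp

private theorem Q1_num (n : ℕ) : spine (enc n) = n := spine_un n

/-- Proof: induction on `C`. -/
theorem paCon_enc (C : Con) : paCon (enc C) = C := by
  induction C with
  | top => exact (Q1_con _ _).trans (Q1_step0 _ _ _ _)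
  | bot => exact (Q1_con _ _).trans (Q1_step1 _ _ _ _)
  | name A =>
    refine (Q1_con _ _).trans ((Q1_step2 _ _ _ _).trans ?_)
    rw [Q1_num]
  | ex R =>
    obtain ⟨b, P⟩ := R
    refine (Q1_con _ _).trans ((Q1_step3 _ _ _ _).trans ?_)
    show Con.ex (decide (enc b ≠ BT.nil), spine (enc P)) = _
    rw [Q1_num, Q1_bit]
  | neg C ih =>
    refine (Q1_con _ _).trans ((Q1_step4 _ _ _ _).trans ?_)
    exact congrArg Con.neg ih
  | inter C D ihC ihD =>
    refine (Q1_con _ _).trans ((Q1_step5 _ _ _ _).trans ?_)
    show Con.inter (paCon (enc C)) (paCon (enc D)) = _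
    rw [ihC, ihD]

private theorem Q1_spine (T : BT) : spine T ≤ T.size := by
  induction T with
  | nil => exact le_rfl
  | node a b _ ih =>
    show spine b + 1 ≤ a.size + b.size + 1
    omega

private theorem Q1_top : sz Con.top = 1 := rfl

private theorem Q1_bot : sz Con.bot = 2 := rfl

private theorem Q1_name (A : ℕ) : sz (Con.name A) = A + 3 := by
  have h : sz (Con.name A) = sz ((2 : ℕ), A) := rfl
  rw [h]
  simp only [sz_pair, sz_nat]
  omega

private theorem Q1_ex (R : Rl) : sz (Con.ex R) ≤ R.2 + 6 := by
  have h : sz (Con.ex R) = sz ((3 : ℕ), R) := rfl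
  have h1 := sz_bool_le R.1
  rw [h, sz_pair, sz_prod R]
  simp only [sz_nat]
  omega

private theorem Q1_size (T : BT) : sz (paT T).1 ≤ 2 * T.size + 1 ∧
    sz (paT T).2.1 + sz (paT T).2.2 ≤ 2 * T.size + 2 := by
  induction T with
  | nil =>
    show sz Con.top ≤ _ ∧ sz Con.top + sz Con.top ≤ _
    rw [Q1_top]
    constructor <;> omega
  | node a b iha ihb =>
    rw [Q1_node]
    refine ⟨?_, ?_⟩
    · show sz (paStep a b (paT b).1 (paT b).2.1 (paT b).2.2) ≤ 2 * (a.size + b.size + 1) + 1
      by_cases h0 : a = un 0
      · rw [h0, Q1_step0, Q1_top]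
        omega
      by_cases h1 : a = un 1
      · rw [h1, Q1_step1, Q1_bot, size_un]
        omega
      by_cases h2 : a = un 2
      · rw [h2, Q1_step2, Q1_name, size_un]
        have := Q1_spine b
        omega
      by_cases h3 : a = un 3
      · rw [h3, Q1_step3, size_un]
        have h4 := Q1_ex (decide (b.left ≠ .nil), spine b.right)
        have h5 := Q1_spine b.right
        have h6 : b.right.size ≤ b.size := by
          cases b with
          | nil => exact le_rfl
          | node c d =>
            show d.size ≤ c.size + d.size + 1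
            omega
        beta_reduce at h4
        change _ ≤ spine b.right + 6 at h4
        omega
      by_cases h4 : a = un 4
      · rw [h4, Q1_step4, sz_neg, size_un]
        omega
      by_cases h5 : a = un 5
      · rw [h5, Q1_step5, sz_inter, size_un]
        omega
      · unfold paStep
        rw [decide_eq_false h0, decide_eq_false h1, decide_eq_false h2, decide_eq_false h3,
          decide_eq_false h4, decide_eq_false h5]
        show sz Con.top ≤ _
        rw [Q1_top]
        omega
    · show sz (paT a).1 + sz (paT b).1 ≤ 2 * (a.size + b.size + 1) + 2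
      omega

/-- Proof: `pt_treeRec`; the sizes of the three concepts are at most `2 * T.size + 1`
(or a similar bound; for `inter` the tag has size `5` and both parts are read from disjoint
subtrees). -/
theorem pt_paCon {t : γ → BT} (ht : PT t) : PT fun c => paCon (t c) := by
  have h := pt_treeRec (γ := γ) (σ := Con × Con × Con)
    (s := fun _ => (Con.top, Con.top, Con.top))
    (f := fun _ a b ra rb => (paStep a b rb.1 rb.2.1 rb.2.2, ra.1, rb.1)) (t := t)
    (PT.const _) ?_ ht ?_
  · exact PT.fst' h
  · have ha : PT fun p : γ × BT × BT × (Con × Con × Con) × (Con × Con × Con) => p.2.1 :=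
      PT.fst' PT.snd
    have hb : PT fun p : γ × BT × BT × (Con × Con × Con) × (Con × Con × Con) => p.2.2.1 :=
      PT.fst' (PT.snd' PT.snd)
    have hra : PT fun p : γ × BT × BT × (Con × Con × Con) × (Con × Con × Con) => p.2.2.2.1 :=
      PT.fst' (PT.snd' (PT.snd' PT.snd))
    have hrb : PT fun p : γ × BT × BT × (Con × Con × Con) × (Con × Con × Con) => p.2.2.2.2 :=
      PT.snd' (PT.snd' (PT.snd' PT.snd))
    refine PT.pair ?_ (PT.pair (PT.fst' hra) (PT.fst' hrb))
    unfold paStep
    refine PT.cond (pt_eqBT ha (PT.const _)) (PT.const _) ?_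
    refine PT.cond (pt_eqBT ha (PT.const _)) (PT.const _) ?_
    refine PT.cond (pt_eqBT ha (PT.const _)) (pt_name (pt_spine hb)) ?_
    refine PT.cond (pt_eqBT ha (PT.const _)) (pt_ex (PT.pair
      ((PT.not (pt_eqBT (pt_left hb) (PT.const BT.nil))).of_eq fun c => by simp)
      (pt_spine (pt_right hb)))) ?_
    refine PT.cond (pt_eqBT ha (PT.const _)) (pt_neg (PT.fst' hrb)) ?_
    exact PT.cond (pt_eqBT ha (PT.const _)) (pt_inter (PT.fst' (PT.snd' hrb))
      (PT.snd' (PT.snd' hrb))) (PT.const _)
  · refine ⟨3, fun c T => ?_⟩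
    show sz (paT T) ≤ _
    obtain ⟨h1, h2⟩ := Q1_size T
    rw [sz_prod, sz_prod (paT T).2]
    have h3 : (T.size + 2) ^ 3 ≤ (sz c + T.size + 2) ^ 3 := Nat.pow_le_pow_left (by omega) 3
    refine le_trans ?_ h3
    have h4 : 4 * T.size + 5 ≤ (T.size + 2) ^ 3 := by nlinarith [sq_nonneg T.size]
    omega

/-- read a pair of numbers -/
def paNN (T : BT) : ℕ × ℕ := (spine T.left, spine T.right)

/-- read a bit -/
def paB (T : BT) : Bool := decide (T ≠ .nil)

/-- read an input -/
def paI (T : BT) : Inst where
  C0 := paCon T.left
  cis := (toL T.right.left).map fun t => (paCon t.left, paCon t.right)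
  funcs := (toL T.right.right.left).map fun t => (paB t.left, spine t.right)
  cass := (toL T.right.right.right.left).map paNN
  rass := (toL T.right.right.right.right.left).map fun t =>
    (spine t.left, spine t.right.left, spine t.right.right)
  mins := (toL T.right.right.right.right.right.left).map spine
  prio := (toL T.right.right.right.right.right.right.left).map paNN
  fixC := (toL T.right.right.right.right.right.right.right.left).map spine
  fixR := (toL T.right.right.right.right.right.right.right.right).map spine

private theorem Q1_map {α : Type} [Enc α] (f : BT → α) (hf : ∀ a, f (enc a) = a) (l : List α) :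
    (toL (enc l)).map f = l := by
  induction l with
  | nil => rfl
  | cons a l ih =>
    rw [enc_cons]
    show f (enc a) :: (toL (enc l)).map f = _
    rw [ih, hf]

private theorem Q1_NN (p : ℕ × ℕ) : paNN (enc p) = p := by
  obtain ⟨a, b⟩ := p
  show (spine (enc a), spine (enc b)) = _
  rw [Q1_num, Q1_num]

theorem paI_enc (K : Inst) : paI (enc K) = K := by
  obtain ⟨C0, cis, funcs, cass, rass, mins, prio, fixC, fixR⟩ := K
  show Inst.mk (paCon (enc C0))
    ((toL (enc cis)).map fun t => (paCon t.left, paCon t.right))
    ((toL (enc funcs)).map fun t => (paB t.left, spine t.right))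
    ((toL (enc cass)).map paNN)
    ((toL (enc rass)).map fun t => (spine t.left, spine t.right.left, spine t.right.right))
    ((toL (enc mins)).map spine) ((toL (enc prio)).map paNN)
    ((toL (enc fixC)).map spine) ((toL (enc fixR)).map spine) = _
  rw [paCon_enc, Q1_map (fun t => (paCon t.left, paCon t.right)),
    Q1_map (fun t => (paB t.left, spine t.right)), Q1_map paNN Q1_NN,
    Q1_map (fun t => (spine t.left, spine t.right.left, spine t.right.right)),
    Q1_map spine Q1_num, Q1_map paNN Q1_NN, Q1_map spine Q1_num, Q1_map spine Q1_num]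
  · rintro ⟨a, b, c⟩
    show (spine (enc a), spine (enc b), spine (enc c)) = _
    rw [Q1_num, Q1_num, Q1_num]
  · rintro ⟨a, b⟩
    show (decide (enc a ≠ BT.nil), spine (enc b)) = _
    rw [Q1_num, Q1_bit]
  · rintro ⟨a, b⟩
    show (paCon (enc a), paCon (enc b)) = _
    rw [paCon_enc, paCon_enc]

private theorem Q1_mapS {t : γ → BT} (ht : PT t) : PT fun c => (toL (t c)).map spine :=
  PT.map (f := fun (_ : γ) u => spine u) (pt_toL ht) (pt_spine PT.snd)

private theorem Q1_mapN {t : γ → BT} (ht : PT t) : PT fun c => (toL (t c)).map paNN :=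
  PT.map (f := fun (_ : γ) u => paNN u) (pt_toL ht)
    (PT.pair (pt_spine (pt_left PT.snd)) (pt_spine (pt_right PT.snd)))

theorem pt_paI {t : γ → BT} (ht : PT t) : PT fun c => paI (t c) := by
  have h1 := pt_right ht
  have h2 := pt_right h1
  have h3 := pt_right h2
  have h4 := pt_right h3
  have h5 := pt_right h4
  have h6 := pt_right h5
  have h7 := pt_right h6
  have hc : PT fun c => (toL (t c).right.left).map fun u => (paCon u.left, paCon u.right) :=
    PT.map (f := fun (_ : γ) u => (paCon u.left, paCon u.right)) (pt_toL (pt_left h1))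
      (PT.pair (pt_paCon (pt_left PT.snd)) (pt_paCon (pt_right PT.snd)))
  have hf : PT fun c => (toL (t c).right.right.left).map fun u => (paB u.left, spine u.right) :=
    PT.map (f := fun (_ : γ) u => (paB u.left, spine u.right)) (pt_toL (pt_left h2))
      (PT.pair ((PT.not (pt_eqBT (pt_left PT.snd) (PT.const BT.nil))).of_eq fun c => by
        unfold paB
        simp) (pt_spine (pt_right PT.snd)))
  have hr : PT fun c => (toL (t c).right.right.right.right.left).map fun u =>
      (spine u.left, spine u.right.left, spine u.right.right) :=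
    PT.map (f := fun (_ : γ) u => (spine u.left, spine u.right.left, spine u.right.right))
      (pt_toL (pt_left h4)) (PT.pair (pt_spine (pt_left PT.snd))
        (PT.pair (pt_spine (pt_left (pt_right PT.snd))) (pt_spine (pt_right (pt_right PT.snd)))))
  have h : PT fun c => (paI (t c)).tup :=
    PT.pair (pt_paCon (pt_left ht)) (PT.pair hc (PT.pair hf (PT.pair (Q1_mapN (pt_left h3))
      (PT.pair hr (PT.pair (Q1_mapS (pt_left h5)) (PT.pair (Q1_mapN (pt_left h6))
        (PT.pair (Q1_mapS (pt_left h7)) (Q1_mapS (pt_right h7)))))))))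
  obtain ⟨F, hF, h'⟩ := h
  exact ⟨F, hF, fun c => h' c⟩

end Pool.Agent.Lib.MP_bb9e9d_lc
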