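import Pool.Agent.Lib.MP_bb9e9d_lc.Ver.Defs

/-! # Certificates: auxiliary definitions for the correctness proof -/

namespace Pool.Agent.Lib.MP_bb9e9d_lc

open MP_634427_lc

/-- the multiplicity of a state according to a profile -/
def muOf (prof : List PE) (s : Word) : ℕ ⊕ ℕ :=
  match prof.find? fun e => decide (e.1 = s) with
  | none => .inl 0
  | some e => bif e.2.1 then .inr (e.2.2.2 - 1) else .inl (bval e.2.2.1)

/-- the multiplicities of the states -/
def muS (N : ℕ) (prof : List PE) (s : Stt N) : ℕ ⊕ ℕ := muOf prof s.1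

/-- the levels given by a list -/
def lf (N : ℕ) (ℓ : List ℕ) (P : Fin N) : ℕ := ℓ.getD P 0

/-- well-formed entries -/
def Wf (N : ℕ) (e : En) : Prop := e.1.length = N ∧ e.2.length = 6 * N

/-- the vector with flags of an entry -/
def dec (N r : ℕ) (e : En) : Vc N :=
  (fun P => (e.1.getD P 0 : ℤ) - r, fun j P => ⟨e.2.getD (j * N + P) false⟩)

/-- the set of the vectors of a list of entries -/
def TS (N r : ℕ) (t : List En) : Set (Vc N) := {v | ∃ e ∈ t, Wf N e ∧ dec N r e = v}

/-- contributions with the level `κ` -/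
def extS (K : Inst) (N : ℕ) (ℓ : Fin N → ℕ) (κ : ℕ) (s : Stt N) : Set (Vc N) :=
  {v | ∃ s' : Stt N, (prob K N).mv s s' ∧ (prob K N).loc s' ∧ alw (prob K N) ℓ κ s' ∧
    v = ctr (prob K N) ℓ κ s s'}

/-- turn words of the right length into states -/
def toSt (N : ℕ) (l : List Word) : List (Stt N) :=
  l.filterMap fun w => if h : w.length = 6 * N then some ⟨w, h⟩ else none

/-- the states of finite multiplicity -/
def finL (N : ℕ) (prof : List PE) : List (Stt N) :=
  toSt N ((prof.filter fun e => !e.2.1).map fun e => e.1)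

/-- the states of infinite multiplicity -/
def infL (N : ℕ) (prof : List PE) : List (Stt N) :=
  toSt N ((prof.filter fun e => e.2.1).map fun e => e.1)

/-- `LS` contains all words of length at most `6 N` -/
def LSok (N : ℕ) (LS : List Word) : Prop := ∀ w : Word, w.length ≤ 6 * N → w ∈ LS

end Pool.Agent.Lib.MP_bb9e9d_lc
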